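import Mathlib
import Pool.Agent.R493.SC.Pairs
import Pool.Agent.Y876.FF.Tr
/-!
# Among `K` admissible linear forms `m + 1` are often prime together, at every scale
-/

namespace Pool.Agent.R493.ST

open Finset Filter
open Pool.Agent.Y827.GS (cntN Adf)
open Pool.Agent.Y876.FF (LH)

theorem floor_loss (C : ℕ) : ∀ᶠ X : ℝ in atTop,
    X / Real.log X ^ (C + 1) ≤ ((⌊X⌋₊ : ℕ) : ℝ) / Real.log ((⌊X⌋₊ : ℕ) : ℝ) ^ C := by
  have hl : ∀ᶠ x : ℝ in atTop, (2 : ℝ) ≤ Real.log x := Real.tendsto_log_atTop.eventually_ge_atTop _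
  filter_upwards [hl, eventually_ge_atTop (4 : ℝ)] with X h1 h2
  have h3 : X < (⌊X⌋₊ : ℝ) + 1 := Nat.lt_floor_add_one X
  have h4 : (⌊X⌋₊ : ℝ) ≤ X := Nat.floor_le (by linarith)
  have h5 : (3 : ℝ) ≤ (⌊X⌋₊ : ℝ) := by linarith
  have h6 : 0 < Real.log (⌊X⌋₊ : ℝ) := Real.log_pos (by linarith)
  have h7 : Real.log (⌊X⌋₊ : ℝ) ≤ Real.log X := Real.log_le_log (by linarith) h4
  rw [div_le_div_iff₀ (by positivity) (by positivity)]
  have h8 : Real.log (⌊X⌋₊ : ℝ) ^ C ≤ Real.log X ^ C := pow_le_pow_left₀ h6.le h7 C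
  calc X * Real.log (⌊X⌋₊ : ℝ) ^ C ≤ (2 * (⌊X⌋₊ : ℝ)) * Real.log X ^ C :=
        mul_le_mul (by linarith) h8 (by positivity) (by linarith)
    _ = (⌊X⌋₊ : ℝ) * (Real.log X ^ C * 2) := by ring
    _ ≤ (⌊X⌋₊ : ℝ) * (Real.log X ^ C * Real.log X) :=
        mul_le_mul_of_nonneg_left (mul_le_mul_of_nonneg_left h1 (by positivity)) (by linarith)
    _ = (⌊X⌋₊ : ℝ) * Real.log X ^ (C + 1) := by rw [pow_succ]

theorem lhAll (m : ℕ) : ∃ K C : ℕ, 1 ≤ K ∧ LH m K C := by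
  classical
  obtain ⟨K, C, hK, hcl⟩ := Pool.Agent.R493.SC.classesN (4 * (m + 1))
  refine ⟨4 * (m + 1) * K, C + 1, Nat.mul_pos (by omega) hK, ?_⟩
  intro a b ha hne hloc
  obtain ⟨N₀, hN₀⟩ := hcl (∑ i, a i)
  obtain ⟨M, hM⟩ : ∃ M : ℕ, M = ∑ i, b i := ⟨_, rfl⟩
  have hfl : Tendsto (fun X : ℝ => ⌊X⌋₊) atTop atTop := tendsto_nat_floor_atTop
  filter_upwards [floor_loss C, hfl.eventually_ge_atTop (N₀ + M), eventually_ge_atTop (0 : ℝ)]
    with X hX hXN hX0
  refine hX.trans ?_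
  set N : ℕ := ⌊X⌋₊ with hN
  set e : Fin (4 * (m + 1)) × Fin K ≃ Fin (4 * (m + 1) * K) := finProdFinEquiv with he
  obtain ⟨S, c, hS, hcnt⟩ := hN₀ N (by omega) (4 * (m + 1)) le_rfl
    (fun g i => ((a (e (g, i)) : ℤ), (b (e (g, i)) : ℤ)))
    (by
      intro x y hxy
      simp only [Prod.mk.injEq, Nat.cast_inj] at hxy
      by_contra hne'
      have h1 : e (x.1, x.2) ≠ e (y.1, y.2) := fun h => hne' (e.injective h)
      apply hne _ _ h1
      rw [hxy.1, hxy.2])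
    (by
      intro g i
      refine ⟨?_, ?_, ?_, ?_, ?_⟩
      · have := ha (e (g, i))
        show ((a (e (g, i)) : ℕ) : ℤ) ≠ 0
        exact_mod_cast (by omega : a (e (g, i)) ≠ 0)
      · show |((a (e (g, i)) : ℕ) : ℤ)| ≤ ((∑ i, a i : ℕ) : ℤ)
        rw [Nat.abs_cast]
        exact_mod_cast single_le_sum (f := a) (fun _ _ => Nat.zero_le _) (mem_univ _)
      · show |((b (e (g, i)) : ℕ) : ℤ)| ≤ (N : ℤ)
        rw [Nat.abs_cast]
        have h1 : b (e (g, i)) ≤ M := by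
          rw [hM]
          exact single_le_sum (f := b) (fun _ _ => Nat.zero_le _) (mem_univ _)
        exact_mod_cast (by omega : b (e (g, i)) ≤ N)
      · show IsCoprime ((a (e (g, i)) : ℕ) : ℤ) ((b (e (g, i)) : ℕ) : ℤ)
        rw [Nat.isCoprime_iff_coprime]
        by_contra hcop
        obtain ⟨p, hp, h1, h2⟩ := Nat.Prime.not_coprime_iff_dvd.1 hcop
        obtain ⟨n, hn⟩ := hloc p hp
        exact hn (e (g, i)) (dvd_add (h1.mul_right n) h2)
      · intro t ht1 ht2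
        have h1 : (1 : ℝ) ≤ (a (e (g, i)) : ℝ) := by exact_mod_cast ha _
        have h2 : (0 : ℝ) ≤ (b (e (g, i)) : ℝ) := Nat.cast_nonneg _
        have h3 : (0 : ℝ) ≤ (N : ℝ) := Nat.cast_nonneg _
        have h4 : 0 ≤ t := by linarith
        show (N : ℝ) / 24 ≤ (((a (e (g, i)) : ℕ) : ℤ) : ℝ) * t + (((b (e (g, i)) : ℕ) : ℤ) : ℝ)
        rw [Int.cast_natCast, Int.cast_natCast]
        nlinarith)
    (by
      intro p hp _
      obtain ⟨n, hn⟩ := hloc p hp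
      refine ⟨(n : ℤ), fun g i hd => hn (e (g, i)) ?_⟩
      have hd' : (p : ℤ) ∣ (a (e (g, i)) : ℤ) * (n : ℤ) + (b (e (g, i)) : ℤ) := hd
      exact_mod_cast hd')
  refine hcnt.trans (Nat.cast_le.2 ?_)
  unfold cntN
  rw [← Set.ncard_coe_finset]
  apply Set.ncard_le_ncard
  · intro n hn
    obtain ⟨h1, h2⟩ := mem_filter.1 (mem_coe.1 hn)
    rw [mem_Icc] at h1
    refine ⟨h1.1, ?_, ?_⟩
    · have h3 : (n : ℝ) ≤ (N : ℝ) := by exact_mod_cast h1.2
      have h4 : (N : ℝ) ≤ X := Nat.floor_le hX0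
      linarith
    · have h3 : (S.image (fun g => e (g, c g)) : Set (Fin (4 * (m + 1) * K))) ⊆
          {i | (a i * n + b i).Prime} := by
        intro i hi
        obtain ⟨g, hg, rfl⟩ := mem_image.1 (mem_coe.1 hi)
        have h4 := h2 _ (mem_image_of_mem _ hg)
        simp only at h4
        have h5 : ((a (e (g, c g)) : ℤ) * (n : ℤ) + (b (e (g, c g)) : ℤ)).toNat =
            a (e (g, c g)) * n + b (e (g, c g)) := by
          have : (a (e (g, c g)) : ℤ) * (n : ℤ) + (b (e (g, c g)) : ℤ) =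
            ((a (e (g, c g)) * n + b (e (g, c g)) : ℕ) : ℤ) := by push_cast; ring
          rw [this, Int.toNat_natCast]
        rw [h5] at h4
        exact h4
      have h4 := Set.ncard_le_ncard h3 (Set.toFinite _)
      rw [Set.ncard_coe_finset, card_image_of_injective _ (by
        intro g g' hgg
        have := e.injective hgg
        exact (Prod.mk.injEq _ _ _ _ ▸ this).1)] at h4
      omega
  · apply (Set.finite_Iic ⌊3 * X⌋₊).subset
    rintro n ⟨_, h3, _⟩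
    exact Nat.le_floor h3

end Pool.Agent.R493.ST
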