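import Mathlib
import Pool.Agent.R493.ST.LH
/-!
# Exact sets of prime forms which meet many classes, at every scale
-/

namespace Pool.Agent.R493.ST

open Finset Filter
open Pool.Agent.TH779.Shat (tr mem_tr congruences)
open Pool.Agent.Y876.HS (log_shift)
open Pool.Agent.Y827.GS (cntN Adf)

theorem tracec_nat (r : ℕ) : ∃ K C : ℕ, 1 ≤ K ∧ ∀ {ι : Type} [Fintype ι] [DecidableEq ι]
    (a b : ι → ℕ), (∀ i, 1 ≤ a i) → (∀ i j, i ≠ j → a i * b j ≠ a j * b i) → ∀ T' ≤ r,
    ∀ A : Fin T' → Fin K → ι, Function.Injective (fun x : Fin T' × Fin K => A x.1 x.2) →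
    (∀ p : ℕ, p.Prime → ∃ n : ℕ, ∀ g i, ¬ p ∣ a (A g i) * n + b (A g i)) →
    ∀ᶠ x : ℝ in atTop, ∃ (S : Finset (Fin T')) (c : Fin T' → Fin K) (T : Finset ι),
      5 * T' ≤ 18 * S.card ∧ (∀ g ∈ S, A g (c g) ∈ T) ∧ (∀ i ∈ T, ∃ g k, A g k = i) ∧
      x / Real.log x ^ C ≤ (Set.ncard {n : ℕ | (n : ℝ) ≤ x ∧ tr a b n = T} : ℝ) := by
  classical
  obtain ⟨K, C, hK, hcl⟩ := Pool.Agent.R493.SC.classesN r
  refine ⟨K, C + 3, hK, ?_⟩
  intro ι _ _ a b ha hne T' hT' A hAinj hloc'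
  set S₀ : Finset ι := (univ : Finset (Fin T' × Fin K)).image (fun x => A x.1 x.2) with hS₀
  have hAS : ∀ g i, A g i ∈ S₀ := fun g i => mem_image.2 ⟨(g, i), mem_univ _, rfl⟩
  obtain ⟨W, ν₀, hW, h1, h2⟩ := congruences a b ha hne S₀ (univ \ S₀) sdiff_disjoint
  set ν := ν₀ + W with hν
  have h1' : ∀ i ∉ S₀, ∃ p : ℕ, p.Prime ∧ p ∣ W ∧ p ∣ a i * ν + b i := by
    intro i hi
    obtain ⟨p, hp, hpW, hp2⟩ := h1 i (mem_sdiff.2 ⟨mem_univ _, hi⟩)
    refine ⟨p, hp, hpW, ?_⟩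
    rw [hν, mul_add, add_right_comm]
    exact dvd_add hp2 (hpW.mul_left _)
  have h2' : ∀ p : ℕ, p.Prime → p ∣ W → ∀ j ∈ S₀, ¬ p ∣ a j * ν + b j := by
    intro p hp hpW j hj hd
    apply h2 p hp hpW j hj
    rw [hν, mul_add, add_right_comm] at hd
    exact (Nat.dvd_add_left (hpW.mul_left (a j))).1 hd
  obtain ⟨N₀, hN₀⟩ := hcl (∑ i, a i * W)
  set M₀ : ℕ := ∑ i, (a i * ν + b i) with hM₀
  -- the new forms
  have hlocW : ∀ p : ℕ, p.Prime → ∃ n : ℕ, ∀ g i,
      ¬ p ∣ (a (A g i) * W) * n + (a (A g i) * ν + b (A g i)) := by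
    intro p hp
    have hval : ∀ (i : ι) (t : ℕ), (a i * W) * t + (a i * ν + b i) = a i * (W * t + ν) + b i := by
      intro i t; ring
    by_cases hpW : p ∣ W
    · refine ⟨0, fun g i => ?_⟩
      rw [mul_zero, zero_add]
      exact h2' p hp hpW _ (hAS g i)
    · obtain ⟨n, hn⟩ := hloc' p hp
      have : Fact p.Prime := ⟨hp⟩
      have hWZ : (W : ZMod p) ≠ 0 := fun h => hpW ((ZMod.natCast_eq_zero_iff _ _).1 h)
      refine ⟨(((n : ZMod p) - ν) / (W : ZMod p)).val, fun g i hd => ?_⟩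
      rw [hval] at hd
      apply hn g i
      rw [← ZMod.natCast_eq_zero_iff] at hd ⊢
      push_cast at hd ⊢
      rw [ZMod.natCast_zmod_val] at hd
      rw [← hd]
      field_simp
      ring
  have hWr : (1 : ℝ) ≤ W := by exact_mod_cast hW
  have hW0 : (0 : ℝ) < W := by linarith
  obtain ⟨N', hN'⟩ : ∃ N' : ℝ, N' = (Fintype.card (Finset ι) : ℝ) := ⟨_, rfl⟩
  have hNpos : 0 < N' := by
    rw [hN']
    have : 0 < Fintype.card (Finset ι) := Fintype.card_pos
    exact_mod_cast this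
  have ht : Tendsto (fun x : ℝ => (x - ν) / W) atTop atTop :=
    (tendsto_atTop_add_const_right _ _ tendsto_id).atTop_div_const (by positivity)
  have hfl : Tendsto (fun X : ℝ => ⌊X⌋₊) atTop atTop := tendsto_nat_floor_atTop
  filter_upwards [ht.eventually (floor_loss C), ht.eventually (hfl.eventually_ge_atTop (N₀ + M₀ + 1)),
    log_shift ν W (Nat.cast_nonneg _) hWr (C + 1), ht.eventually_ge_atTop 0,
    Real.tendsto_log_atTop.eventually_ge_atTop (max N' 1), eventually_ge_atTop (2 : ℝ)]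
    with x hxf hxN hxs hxX hxl hx2
  have hx0 : 0 < x := by linarith
  have hlog : 0 < Real.log x := lt_of_lt_of_le one_pos ((le_max_right _ _).trans hxl)
  have hlogN : N' ≤ Real.log x := (le_max_left _ _).trans hxl
  set N : ℕ := ⌊(x - ν) / W⌋₊ with hN
  obtain ⟨S, c, hS, hcnt⟩ := hN₀ N (by omega) T' hT'
    (fun g i => (((a (A g i) * W : ℕ) : ℤ), ((a (A g i) * ν + b (A g i) : ℕ) : ℤ)))
    (by
      intro u v huv
      simp only [Prod.mk.injEq, Nat.cast_inj] at huv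
      by_contra hne'
      have h3 : A u.1 u.2 ≠ A v.1 v.2 := fun h => hne' (hAinj h)
      apply hne _ _ h3
      have h4 : a (A u.1 u.2) = a (A v.1 v.2) := Nat.eq_of_mul_eq_mul_right hW huv.1
      have h5 : b (A u.1 u.2) = b (A v.1 v.2) := by
        have := huv.2
        rw [h4] at this
        exact Nat.add_left_cancel this
      rw [h4, h5])
    (by
      intro g i
      refine ⟨?_, ?_, ?_, ?_, ?_⟩
      · show ((a (A g i) * W : ℕ) : ℤ) ≠ 0
        have h3 : 0 < a (A g i) * W := Nat.mul_pos (ha _) hW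
        exact_mod_cast h3.ne'
      · show |((a (A g i) * W : ℕ) : ℤ)| ≤ ((∑ i, a i * W : ℕ) : ℤ)
        rw [Nat.abs_cast]
        exact_mod_cast single_le_sum (f := fun i => a i * W) (fun _ _ => Nat.zero_le _) (mem_univ (A g i))
      · show |((a (A g i) * ν + b (A g i) : ℕ) : ℤ)| ≤ (N : ℤ)
        rw [Nat.abs_cast]
        have h3 : a (A g i) * ν + b (A g i) ≤ M₀ := by
          rw [hM₀]
          exact single_le_sum (f := fun i => a i * ν + b i) (fun _ _ => Nat.zero_le _) (mem_univ (A g i))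
        exact_mod_cast (by omega : a (A g i) * ν + b (A g i) ≤ N)
      · show IsCoprime ((a (A g i) * W : ℕ) : ℤ) ((a (A g i) * ν + b (A g i) : ℕ) : ℤ)
        rw [Nat.isCoprime_iff_coprime]
        by_contra hcop
        obtain ⟨p, hp, h3, h4⟩ := Nat.Prime.not_coprime_iff_dvd.1 hcop
        obtain ⟨n, hn⟩ := hlocW p hp
        exact hn g i (dvd_add (h3.mul_right n) h4)
      · intro t ht1 ht2
        have h3 : (1 : ℝ) ≤ ((a (A g i) * W : ℕ) : ℝ) := by
          exact_mod_cast Nat.mul_pos (ha (A g i)) hW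
        have h4 : (0 : ℝ) ≤ ((a (A g i) * ν + b (A g i) : ℕ) : ℝ) := Nat.cast_nonneg _
        have h5 : (0 : ℝ) ≤ (N : ℝ) := Nat.cast_nonneg _
        have h6 : 0 ≤ t := by linarith
        show (N : ℝ) / 24 ≤ (((a (A g i) * W : ℕ) : ℤ) : ℝ) * t +
          (((a (A g i) * ν + b (A g i) : ℕ) : ℤ) : ℝ)
        rw [Int.cast_natCast, Int.cast_natCast]
        nlinarith)
    (by
      intro p hp _
      obtain ⟨n, hn⟩ := hlocW p hp
      refine ⟨(n : ℤ), fun g i hd => hn g i ?_⟩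
      have hd' : (p : ℤ) ∣ ((a (A g i) * W : ℕ) : ℤ) * (n : ℤ) + ((a (A g i) * ν + b (A g i) : ℕ) : ℤ) := hd
      exact_mod_cast hd')
  -- the numbers with prime values
  set Gf : Finset ℕ := (Icc 1 N).filter (fun n : ℕ => ∀ f ∈ S.image (fun g =>
    (((a (A g (c g)) * W : ℕ) : ℤ), ((a (A g (c g)) * ν + b (A g (c g)) : ℕ) : ℤ))),
    (f.1 * (n : ℤ) + f.2).toNat.Prime) with hGf
  have hcnt' : (N : ℝ) / Real.log N ^ C ≤ (Gf.card : ℝ) := hcnt
  have hGcard : x / Real.log x ^ (C + 2) ≤ (Gf.card : ℝ) := hxs.trans (hxf.trans hcnt')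
  have hval' : ∀ t ∈ Gf, (∀ i ∈ tr a b (W * t + ν), i ∈ S₀) ∧
      (∀ g ∈ S, A g (c g) ∈ tr a b (W * t + ν)) ∧ ((W * t + ν : ℕ) : ℝ) ≤ x := by
    intro t ht
    obtain ⟨ht1, ht3⟩ := mem_filter.1 ht
    rw [mem_Icc] at ht1
    obtain ⟨ht1, ht2⟩ := ht1
    refine ⟨?_, ?_, ?_⟩
    · intro i hi
      by_contra hiS
      rw [mem_tr] at hi
      obtain ⟨p, hp, hpW, hpd⟩ := h1' i hiS
      have h3 : p ∣ a i * (W * t + ν) + b i := by
        have : a i * (W * t + ν) + b i = W * (a i * t) + (a i * ν + b i) := by ring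
        rw [this]
        exact dvd_add (hpW.mul_right _) hpd
      have h4 : p = a i * (W * t + ν) + b i := (Nat.prime_dvd_prime_iff_eq hp hi).1 h3
      have h5 : p ≤ W := Nat.le_of_dvd hW hpW
      have h6 : W + W ≤ W * t + ν := by
        have : W * 1 ≤ W * t := Nat.mul_le_mul_left _ ht1
        omega
      have h7 : 1 * (W * t + ν) ≤ a i * (W * t + ν) := Nat.mul_le_mul_right _ (ha i)
      omega
    · intro g hg
      have h3 := ht3 _ (mem_image_of_mem _ hg)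
      simp only at h3
      rw [mem_tr]
      have h4 : (((a (A g (c g)) * W : ℕ) : ℤ) * (t : ℤ) +
          ((a (A g (c g)) * ν + b (A g (c g)) : ℕ) : ℤ)).toNat =
          a (A g (c g)) * (W * t + ν) + b (A g (c g)) := by
        have : ((a (A g (c g)) * W : ℕ) : ℤ) * (t : ℤ) +
          ((a (A g (c g)) * ν + b (A g (c g)) : ℕ) : ℤ) =
          ((a (A g (c g)) * (W * t + ν) + b (A g (c g)) : ℕ) : ℤ) := by push_cast; ring
        rw [this, Int.toNat_natCast]
      rwa [h4] at h3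
    · have h3 : (t : ℝ) ≤ (x - ν) / W := by
        have h4 : (t : ℝ) ≤ (N : ℝ) := by exact_mod_cast ht2
        exact h4.trans (Nat.floor_le hxX)
      rw [le_div_iff₀ hW0] at h3
      push_cast
      linarith
  -- pigeonhole
  obtain ⟨T, hT, hT2⟩ : ∃ T ∈ (univ : Finset (Finset ι)), (Gf.card : ℝ) / N' ≤
      ((Gf.filter (fun t => tr a b (W * t + ν) = T)).card : ℝ) := by
    by_contra hcon
    push Not at hcon
    have h3 : (Gf.card : ℝ) = ∑ T ∈ (univ : Finset (Finset ι)),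
        ((Gf.filter (fun t => tr a b (W * t + ν) = T)).card : ℝ) := by
      rw [← Nat.cast_sum]
      congr 1
      exact card_eq_sum_card_fiberwise (fun t _ => mem_univ _)
    have h4 : ∑ T ∈ (univ : Finset (Finset ι)),
        ((Gf.filter (fun t => tr a b (W * t + ν) = T)).card : ℝ) <
        ∑ T ∈ (univ : Finset (Finset ι)), (Gf.card : ℝ) / N' :=
      sum_lt_sum_of_nonempty univ_nonempty hcon
    rw [sum_const, card_univ, nsmul_eq_mul, ← hN', mul_div_cancel₀ _ hNpos.ne'] at h4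
    linarith
  have hT3 : x / Real.log x ^ (C + 3) ≤ ((Gf.filter (fun t => tr a b (W * t + ν) = T)).card : ℝ) := by
    refine le_trans ?_ hT2
    rw [le_div_iff₀ hNpos]
    refine le_trans ?_ hGcard
    have e1 : x / Real.log x ^ (C + 3) * N' = (x / Real.log x ^ (C + 2)) * (N' / Real.log x) := by
      rw [show C + 3 = (C + 2) + 1 by ring, pow_succ]
      field_simp
    rw [e1]
    apply mul_le_of_le_one_right (by positivity)
    rw [div_le_one hlog]
    exact hlogN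
  have hne2 : (Gf.filter (fun t => tr a b (W * t + ν) = T)).Nonempty := by
    rw [← card_pos]
    have h3 : (0 : ℝ) < x / Real.log x ^ (C + 3) := by positivity
    exact_mod_cast h3.trans_le hT3
  obtain ⟨t, ht⟩ := hne2
  obtain ⟨ht1, ht2⟩ := mem_filter.1 ht
  obtain ⟨h3, h4, -⟩ := hval' t ht1
  rw [ht2] at h3 h4
  refine ⟨S, c, T, hS, h4, ?_, hT3.trans ?_⟩
  · intro i hi
    obtain ⟨y, _, hy⟩ := mem_image.1 (h3 i hi)
    exact ⟨y.1, y.2, hy⟩
  have hfin2 : {n : ℕ | (n : ℝ) ≤ x ∧ tr a b n = T}.Finite := by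
    apply (Set.finite_Iic ⌊x⌋₊).subset
    intro n hn
    exact Nat.le_floor hn.1
  have hfinal : (Gf.filter (fun t => tr a b (W * t + ν) = T)).card ≤
      Set.ncard {n : ℕ | (n : ℝ) ≤ x ∧ tr a b n = T} := by
    rw [← Set.ncard_coe_finset]
    refine Set.ncard_le_ncard_of_injOn (fun t => W * t + ν) ?_ ?_ hfin2
    · intro t ht
      obtain ⟨ht1, ht2⟩ := mem_filter.1 (mem_coe.1 ht)
      obtain ⟨-, -, h6⟩ := hval' t ht1
      exact ⟨h6, ht2⟩
    · intro t _ t' _ h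
      have h5 : W * t = W * t' := by
        have : W * t + ν = W * t' + ν := h
        omega
      exact Nat.eq_of_mul_eq_mul_left hW h5
  exact_mod_cast hfinal

theorem tracec (r : ℕ) : ∃ K C : ℕ, 1 ≤ K ∧ ∀ {ι : Type} [Fintype ι] [DecidableEq ι]
    (a b : ι → ℤ), (∀ i, 0 < a i) → (∀ i j, i ≠ j → a i * b j ≠ a j * b i) → ∀ T' ≤ r,
    ∀ A : Fin T' → Fin K → ι, Function.Injective (fun x : Fin T' × Fin K => A x.1 x.2) →
    (∀ p : ℕ, p.Prime → ∃ n : ℕ, ∀ g i, ¬ (p : ℤ) ∣ a (A g i) * n + b (A g i)) →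
    ∀ᶠ x : ℝ in atTop, ∃ (S : Finset (Fin T')) (c : Fin T' → Fin K) (T : Finset ι),
      5 * T' ≤ 18 * S.card ∧ (∀ g ∈ S, A g (c g) ∈ T) ∧ (∀ i ∈ T, ∃ g k, A g k = i) ∧
      x / Real.log x ^ C ≤ (Set.ncard {n : ℕ | (n : ℝ) ≤ x ∧
        ∀ i, (a i * (n : ℤ) + b i).natAbs.Prime ↔ i ∈ T} : ℝ) := by
  classical
  obtain ⟨K, C, hK, h⟩ := tracec_nat r
  refine ⟨K, C + 1, hK, ?_⟩
  intro ι _ _ a b ha hne T' hT' A hAinj hloc
  obtain ⟨s, hs⟩ : ∃ s : ℕ, s = ∑ i, (b i).natAbs := ⟨_, rfl⟩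
  set A' : ι → ℕ := fun i => (a i).toNat with hA
  set B' : ι → ℕ := fun i => (a i * s + b i).toNat with hB
  have hAi : ∀ i, ((A' i : ℕ) : ℤ) = a i := fun i => Int.toNat_of_nonneg (ha i).le
  have hBi : ∀ i, ((B' i : ℕ) : ℤ) = a i * s + b i := by
    intro i
    apply Int.toNat_of_nonneg
    have h1 : (b i).natAbs ≤ s := by
      rw [hs]
      exact single_le_sum (f := fun i => (b i).natAbs) (fun _ _ => Nat.zero_le _) (mem_univ i)
    have h2 : -(s : ℤ) ≤ b i := by omega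
    have h3 : (s : ℤ) ≤ a i * s := by
      have := ha i
      nlinarith [Int.natCast_nonneg s]
    linarith
  have hval : ∀ (i : ι) (t : ℕ), (a i * ((t + s : ℕ) : ℤ) + b i).natAbs = A' i * t + B' i := by
    intro i t
    have h1 : (a i * ((t + s : ℕ) : ℤ) + b i) = ((A' i * t + B' i : ℕ) : ℤ) := by
      push_cast
      rw [hAi, hBi]
      ring
    rw [h1, Int.natAbs_natCast]
  have h' := h A' B' (fun i => by
      have h1 := hAi i
      have h2 := ha i
      omega)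
    (by
      intro i j hij h
      apply hne i j hij
      have h1 : ((A' i * B' j : ℕ) : ℤ) = ((A' j * B' i : ℕ) : ℤ) := by rw [h]
      push_cast at h1
      rw [hAi, hAi, hBi, hBi] at h1
      linarith) T' hT' A hAinj
    (by
      intro p hp
      obtain ⟨n, hn⟩ := hloc p hp
      refine ⟨n + (p - 1) * s, fun g i hd => hn g i ?_⟩
      have h1 : ((p : ℕ) : ℤ) ∣ ((A' (A g i) * (n + (p - 1) * s) + B' (A g i) : ℕ) : ℤ) :=
        Int.natCast_dvd_natCast.2 hd
      have h2 : ((A' (A g i) * (n + (p - 1) * s) + B' (A g i) : ℕ) : ℤ) =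
          (a (A g i) * n + b (A g i)) + p * (a (A g i) * s) := by
        push_cast [Nat.cast_sub hp.one_lt.le]
        rw [hAi, hBi]
        ring
      rw [h2] at h1
      exact (Int.dvd_add_left (Dvd.intro _ rfl)).1 h1)
  have ht : Tendsto (fun x : ℝ => (x - s) / 1) atTop atTop :=
    (tendsto_atTop_add_const_right _ _ tendsto_id).atTop_div_const (by norm_num)
  filter_upwards [ht.eventually h', log_shift s 1 (Nat.cast_nonneg _) le_rfl C] with x hx hx2
  rw [div_one] at hx hx2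
  obtain ⟨S, c, T, hT1, hT2, hT3, hT4⟩ := hx
  refine ⟨S, c, T, hT1, hT2, hT3, hx2.trans (hT4.trans ?_)⟩
  refine Nat.cast_le.2 ?_
  refine Set.ncard_le_ncard_of_injOn (fun t => t + s) ?_ ?_ ?_
  · rintro t ⟨ht1, ht2⟩
    refine ⟨?_, fun i => ?_⟩
    · push_cast
      linarith
    · rw [hval, ← ht2, mem_tr]
  · intro t _ t' _ htt
    exact Nat.add_right_cancel htt
  · apply (Set.finite_Iic ⌊x⌋₊).subset
    intro n hn
    exact Nat.le_floor hn.1

end Pool.Agent.R493.ST
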