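import Mathlib
import Pool.Agent.H685R2.DIM.Ramsey
/-!
# A set all of whose small subsets have given properties
-/

namespace Pool.Agent.R493.ST

open Finset

/-- the finite Ramsey theorem for hypergraphs -/
theorem ramseyH (u m : ℕ) : ∃ N : ℕ, ∀ V : Finset ℕ, N ≤ V.card → ∀ P : Finset ℕ → Prop,
    ∃ W ⊆ V, W.card = m ∧ ((∀ F ⊆ W, F.card = u → P F) ∨ (∀ F ⊆ W, F.card = u → ¬ P F)) := by
  classical
  obtain ⟨N, hN⟩ := Pool.Agent.H685R2.DIM.ramsey_gen Bool u m
  refine ⟨N, fun V hV P => ?_⟩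
  obtain ⟨T, hT, hTm, k, hk⟩ := hN V (fun l => decide (P l.toFinset)) hV
  refine ⟨T, hT, hTm, ?_⟩
  have key : ∀ F ⊆ T, F.card = u → decide (P F) = k := by
    intro F hF hFu
    have h1 := hk (F.sort (· ≤ ·)) (by rw [Finset.length_sort, hFu])
      (Finset.sortedLT_sort F).pairwise (fun x hx => hF ((Finset.mem_sort _).1 hx))
    rwa [Finset.sort_toFinset] at h1
  cases k with
  | true => exact Or.inl (fun F hF hFu => by simpa using key F hF hFu)
  | false => exact Or.inr (fun F hF hFu => by simpa using key F hF hFu)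

/-- if every large subset of `V` has a subset with the property `P i`, for all `i ∈ I`, then some
large subset of `V` has the properties `P i` for all its subsets -/
theorem hitting {ι : Type*} [DecidableEq ι] (I : Finset ι) (u K : ι → ℕ) (L : ℕ) :
    ∃ N : ℕ, ∀ V : Finset ℕ, N ≤ V.card → ∀ P : ι → Finset ℕ → Prop,
    (∀ i ∈ I, ∀ W ⊆ V, K i ≤ W.card → ∃ F ⊆ W, F.card = u i ∧ P i F) →
    ∃ W ⊆ V, W.card = L ∧ ∀ i ∈ I, ∀ F ⊆ W, F.card = u i → P i F := by
  induction I using Finset.induction with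
  | empty =>
    refine ⟨L, fun V hV P _ => ?_⟩
    obtain ⟨W, hW, hL⟩ := exists_subset_card_eq hV
    exact ⟨W, hW, hL, by simp⟩
  | insert i I hi ih =>
    obtain ⟨N, hN⟩ := ih
    obtain ⟨M, hM⟩ := ramseyH (u i) (max N (K i))
    refine ⟨M, fun V hV P hP => ?_⟩
    obtain ⟨W, hWV, hWc, hW | hW⟩ := hM V hV (P i)
    · obtain ⟨W', hW', hL, h1⟩ := hN W (by rw [hWc]; exact le_max_left _ _) P
        (fun j hj U hU hK => hP j (mem_insert_of_mem hj) U (hU.trans hWV) hK)
      refine ⟨W', hW'.trans hWV, hL, fun j hj F hF hFu => ?_⟩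
      rcases mem_insert.1 hj with rfl | hj
      · exact hW F (hF.trans hW') hFu
      · exact h1 j hj F hF hFu
    · exfalso
      obtain ⟨F, hF, hFu, hPF⟩ := hP i (mem_insert_self _ _) W hWV (by rw [hWc]; exact le_max_right _ _)
      exact hW F hF hFu hPF

end Pool.Agent.R493.ST
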