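import Mathlib
import Pool.Agent.R493.ST.Ram
import Pool.Agent.R493.ST.LH
/-!
# Exact patterns of primes in several families of linear forms at several scales
-/

namespace Pool.Agent.R493.ST

open Finset Filter
open Pool.Agent.Y876.FF (LH trace_int)

/-- the number of the `n ≤ x` for which, among the numbers `(f y).1 * n + (f y).2`, `y ≤ max F + M`,
exactly those with `y ∈ F` are prime -/
noncomputable def goodN (f : ℕ → ℤ × ℤ) (M : ℕ) (F : Finset ℕ) (x : ℝ) : ℕ :=
  {n : ℕ | (n : ℝ) ≤ x ∧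
    ∀ y ≤ F.sup id + M, (((f y).1 * (n : ℤ) + (f y).2).natAbs.Prime ↔ y ∈ F)}.ncard

theorem initSeg {s : ℕ} (hs : 1 ≤ s) : ∀ d : ℕ, ∀ T : Finset ℕ, T.card = s + d →
    ∃ F ⊆ T, F.card = s ∧ ∀ y ≤ F.sup id, (y ∈ T ↔ y ∈ F) := by
  intro d
  induction d with
  | zero => exact fun T hT => ⟨T, Subset.refl _, hT, fun y _ => Iff.rfl⟩
  | succ d ih =>
    intro T hT
    have hne : T.Nonempty := card_pos.1 (by omega)
    obtain ⟨F, hF, hFs, h⟩ := ih (T.erase (T.max' hne)) (by
      rw [card_erase_of_mem (T.max'_mem hne)]; omega)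
    refine ⟨F, hF.trans (erase_subset _ _), hFs, fun y hy => ?_⟩
    have hFne : F.Nonempty := card_pos.1 (by omega)
    obtain ⟨z, hz, hzs⟩ := Finset.exists_mem_eq_sup F hFne id
    have h1 := hF hz
    obtain ⟨h2, h3⟩ := mem_erase.1 h1
    have h4 := T.le_max' z h3
    simp only [id] at hzs
    rw [← h y hy, mem_erase]
    constructor
    · exact fun h5 => ⟨by omega, h5⟩
    · exact fun h5 => h5.2

/-- one family, every scale -/
theorem one_scale (k : ℕ) : ∃ K C : ℕ, ∀ (M : ℕ) (f : ℕ → ℤ × ℤ), (∀ y, 0 < (f y).1) →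
    (∀ y z, y ≠ z → (f y).1 * (f z).2 ≠ (f z).1 * (f y).2) → ∀ V : Finset ℕ,
    (∀ u ∈ V, ∀ v ∈ V, u < v → u + M < v) →
    (∀ p : ℕ, p.Prime → ∃ n : ℕ, ∀ v ∈ V, ¬ (p : ℤ) ∣ (f v).1 * n + (f v).2) →
    ∀ᶠ x : ℝ in atTop, ∀ W ⊆ V, K ≤ W.card → ∀ s, 1 ≤ s → s ≤ k + 1 →
      ∃ F ⊆ W, F.card = s ∧ x / Real.log x ^ C ≤ (goodN f M F x : ℝ) := by
  classical
  obtain ⟨K, C, hK, hLH⟩ := lhAll k
  refine ⟨K, C + 3, fun M f hf hne V hsep hloc => ?_⟩
  have key : ∀ W ∈ V.powerset, ∀ᶠ x : ℝ in atTop, K ≤ W.card → ∀ s, 1 ≤ s → s ≤ k + 1 →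
      ∃ F ⊆ W, F.card = s ∧ x / Real.log x ^ (C + 3) ≤ (goodN f M F x : ℝ) := by
    intro W hW
    have hWV := mem_powerset.1 hW
    by_cases hWK : K ≤ W.card
    · set m : ℕ := V.sup id + M + 1 with hm
      have hVm : ∀ e ∈ V, e + M < m := by
        intro e he
        have h3 : e ≤ V.sup id := Finset.le_sup (f := id) he
        omega
      set S' : Finset (Fin m) := univ.filter (fun i => (i : ℕ) ∈ W) with hS'
      have hcard : S'.card = W.card := by
        apply Finset.card_bij (fun (i : Fin m) _ => (i : ℕ))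
        · intro i hi
          exact (mem_filter.1 hi).2
        · intro i _ j _ h
          exact Fin.ext h
        · intro e he
          exact ⟨⟨e, by have := hVm e (hWV he); omega⟩, mem_filter.2 ⟨mem_univ _, he⟩, rfl⟩
      have hex := trace_int hLH (fun i : Fin m => (f i).1) (fun i : Fin m => (f i).2)
        (fun i => hf i) (fun i j hij => hne i j (fun h => hij (Fin.ext h))) S' (by rw [hcard]; exact hWK)
        (by
          intro p hp
          obtain ⟨n, hn⟩ := hloc p hp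
          exact ⟨n, fun i hi => hn i (hWV (mem_filter.1 hi).2)⟩)
      filter_upwards [hex, eventually_ge_atTop (0 : ℝ)] with x hx hx0 _ s hs1 hsk
      obtain ⟨T, hT1, hT2, hT3⟩ := hx
      have hTc : (T.image (fun i : Fin m => (i : ℕ))).card = T.card :=
        card_image_of_injective _ Fin.val_injective
      obtain ⟨F, hF, hFs, hFT⟩ := initSeg hs1 (T.card - s) (T.image (fun i : Fin m => (i : ℕ)))
        (by rw [hTc]; omega)
      have hTW : T.image (fun i : Fin m => (i : ℕ)) ⊆ W := by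
        intro e he
        obtain ⟨i, hi, rfl⟩ := mem_image.1 he
        exact (mem_filter.1 (hT1 hi)).2
      have hFne : F.Nonempty := card_pos.1 (by omega)
      obtain ⟨z, hz, hzs⟩ := Finset.exists_mem_eq_sup F hFne id
      simp only [id] at hzs
      have hFT' : ∀ y ≤ F.sup id + M, (y ∈ T.image (fun i : Fin m => (i : ℕ)) ↔ y ∈ F) := by
        intro y hy
        by_cases hyF : y ≤ F.sup id
        · exact hFT y hyF
        · constructor
          · intro h
            exfalso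
            have h1 := hsep z (hWV (hTW (hF hz))) y (hWV (hTW h)) (by
              have : F.sup id = z := hzs
              omega)
            have : F.sup id = z := hzs
            omega
          · intro h
            exact absurd (Finset.le_sup (f := id) h) hyF
      refine ⟨F, hF.trans hTW, hFs, hT3.trans ?_⟩
      unfold goodN
      rw [Nat.cast_le]
      apply Set.ncard_le_ncard
      · rintro n ⟨h3, h4⟩
        refine ⟨h3, fun y hy => ?_⟩
        have h5 : y < m := by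
          have h6 := hVm z (hWV (hTW (hF hz)))
          have : F.sup id = z := hzs
          omega
        have h6 := h4 ⟨y, h5⟩
        rw [← hFT' y hy]
        simp only at h6
        rw [h6]
        constructor
        · intro h7
          exact mem_image.2 ⟨_, h7, rfl⟩
        · intro h7
          obtain ⟨i, hi, hij⟩ := mem_image.1 h7
          have : i = ⟨y, h5⟩ := Fin.ext hij
          rwa [← this]
      · apply (Set.finite_Iic ⌊x⌋₊).subset
        rintro n ⟨h3, _⟩
        exact Nat.le_floor h3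
    · exact Filter.Eventually.of_forall (fun x h => absurd h hWK)
  have h1 := (Filter.eventually_all_finset V.powerset).2 key
  filter_upwards [h1] with x hx W hW
  exact hx W (mem_powerset.2 hW)

/-- several families at several scales: a large set all of whose small subsets are exact patterns -/
theorem multi (k : ℕ) : ∃ C : ℕ, ∀ L R : ℕ, ∃ K : ℕ, ∀ (M : ℕ) (β : Type) (J : Finset β)
    (f : β → ℕ → ℤ × ℤ) (φ : β → ℕ → ℕ), (∀ j ∈ J, ∀ y, 0 < (f j y).1) →
    (∀ j ∈ J, ∀ y z, y ≠ z → (f j y).1 * (f j z).2 ≠ (f j z).1 * (f j y).2) → ∀ V : Finset ℕ,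
    K ≤ V.card → (∀ j ∈ J, Set.InjOn (φ j) V) →
    (∀ j ∈ J, ∀ u ∈ V, ∀ v ∈ V, φ j u < φ j v → φ j u + M < φ j v) →
    (∀ j ∈ J, ∀ p : ℕ, p.Prime → ∃ n : ℕ, ∀ v ∈ V, ¬ (p : ℤ) ∣ (f j (φ j v)).1 * n + (f j (φ j v)).2) →
    ∃ x₀ : ℝ, ∀ (j : Fin R → β) (x : Fin R → ℝ), (∀ ρ, j ρ ∈ J ∧ x₀ ≤ x ρ) →
      ∃ W ⊆ V, W.card = L ∧ ∀ ρ, ∀ F ⊆ W, 1 ≤ F.card → F.card ≤ k + 1 →
        x ρ / Real.log (x ρ) ^ C ≤ (goodN (f (j ρ)) M (F.image (φ (j ρ))) (x ρ) : ℝ) := by
  classical
  obtain ⟨K₁, C, h1⟩ := one_scale k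
  refine ⟨C, fun L R => ?_⟩
  obtain ⟨N, hN⟩ := hitting (univ : Finset (Fin R × Fin (k + 1))) (fun i => (i.2 : ℕ) + 1)
    (fun _ => K₁) L
  refine ⟨N, fun M β J f φ hf hne V hV hinj hsep hloc => ?_⟩
  have h2 : ∀ᶠ x : ℝ in atTop, ∀ j ∈ J, ∀ W ⊆ V.image (φ j), K₁ ≤ W.card → ∀ s, 1 ≤ s → s ≤ k + 1 →
      ∃ F ⊆ W, F.card = s ∧ x / Real.log x ^ C ≤ (goodN (f j) M F x : ℝ) := by
    rw [Filter.eventually_all_finset]
    intro j hj
    exact h1 M (f j) (hf j hj) (hne j hj) (V.image (φ j)) (by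
      intro u hu v hv huv
      obtain ⟨u', hu', rfl⟩ := mem_image.1 hu
      obtain ⟨v', hv', rfl⟩ := mem_image.1 hv
      exact hsep j hj u' hu' v' hv' huv) (by
      intro p hp
      obtain ⟨n, hn⟩ := hloc j hj p hp
      refine ⟨n, fun v hv => ?_⟩
      obtain ⟨w, hw, rfl⟩ := mem_image.1 hv
      exact hn w hw)
  obtain ⟨x₀, hx₀⟩ := eventually_atTop.1 h2
  refine ⟨x₀, fun j x hjx => ?_⟩
  obtain ⟨W, hWV, hWL, hW⟩ := hN V hV
    (fun i F => x i.1 / Real.log (x i.1) ^ C ≤ (goodN (f (j i.1)) M (F.image (φ (j i.1))) (x i.1) : ℝ))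
    (by
      intro i _ W hWV hWK
      have hin : Set.InjOn (φ (j i.1)) W := (hinj _ (hjx i.1).1).mono (by exact_mod_cast hWV)
      obtain ⟨F, hF, hFs, hFx⟩ := hx₀ (x i.1) (hjx i.1).2 (j i.1) (hjx i.1).1 (W.image (φ (j i.1)))
        (image_subset_image hWV) (by rw [card_image_of_injOn hin]; exact hWK) ((i.2 : ℕ) + 1)
        (by omega) (by omega)
      have e : (W.filter (fun v => φ (j i.1) v ∈ F)).image (φ (j i.1)) = F := by
        ext y
        simp only [mem_image, mem_filter]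
        constructor
        · rintro ⟨v, ⟨_, h3⟩, rfl⟩
          exact h3
        · intro hy
          obtain ⟨v, hv, rfl⟩ := mem_image.1 (hF hy)
          exact ⟨v, ⟨hv, hy⟩, rfl⟩
      refine ⟨W.filter (fun v => φ (j i.1) v ∈ F), filter_subset _ _, ?_, ?_⟩
      · rw [← hFs, ← card_image_of_injOn (hin.mono (by
          intro v hv
          exact (mem_filter.1 (mem_coe.1 hv)).1)), e]
      · simp only [e]
        exact hFx)
  refine ⟨W, hWV, hWL, fun ρ F hF hF1 hFk => ?_⟩
  exact hW (ρ, ⟨F.card - 1, by omega⟩) (mem_univ _) F hF (by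
    show F.card = F.card - 1 + 1
    omega)

end Pool.Agent.R493.ST
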