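import Mathlib
import Pool.Agent.R493.ST.Exact
/-!
# Patterns of consecutive primes which are common to several scales and several progressions
-/

namespace Pool.Agent.R493.ST

open Finset Filter

/-- The number of the `n ≤ x`, `n ≡ a (mod q)`, for which the primes `m` with
`n - M ≤ m ≤ n + max φ(F) + M` are exactly the numbers `n + φ v`, `v ∈ F`. -/
noncomputable def strN (q a M : ℕ) (φ : ℕ → ℕ) (F : Finset ℕ) (x : ℝ) : ℕ :=
  {n : ℕ | (n : ℝ) ≤ x ∧ n ≡ a [MOD q] ∧ ∀ m : ℕ, n ≤ m + M → m ≤ n + F.sup φ + M →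
    (m.Prime ↔ ∃ v ∈ F, m = n + φ v)}.ncard

/-- a progression which avoids the residue classes of fewer than `p` numbers -/
theorem avoid {p q : ℕ} (hp : p.Prime) (hq : ¬ p ∣ q) (V : Finset ℕ) (b : ℕ → ℕ) (hV : V.card < p) :
    ∃ n : ℕ, ∀ v ∈ V, ¬ p ∣ q * n + b v := by
  by_contra hcon
  push Not at hcon
  choose g hg1 hg2 using hcon
  obtain ⟨n, hn, n', hn', hne, he⟩ := Finset.exists_ne_map_eq_of_card_lt_of_maps_to
    (s := range p) (t := V) (f := g) (by rw [card_range]; exact hV) (fun n _ => hg1 n)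
  have key : ∀ n n' : ℕ, n < n' → n' < p → g n = g n' → False := by
    intro n n' hlt hn' he
    have h1 := hg2 n
    have h2 := hg2 n'
    rw [he] at h1
    have h3 : q * n' + b (g n') = (q * n + b (g n')) + q * (n' - n) := by
      have : n' = n + (n' - n) := by omega
      calc q * n' + b (g n') = q * (n + (n' - n)) + b (g n') := by rw [← this]
        _ = _ := by ring
    rw [h3] at h2
    have h4 := (Nat.dvd_add_right h1).1 h2
    rcases hp.dvd_mul.1 h4 with h5 | h5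
    · exact hq h5
    · have := Nat.le_of_dvd (by omega) h5
      omega
  rw [mem_range] at hn hn'
  rcases lt_or_gt_of_ne hne with h | h
  · exact key n n' h hn' he
  · exact key n' n h hn he.symm

/-- the loss in the count when `x` is divided by a constant -/
theorem div_loss (C : ℕ) {D : ℝ} (hD : 1 ≤ D) : ∀ᶠ x : ℝ in atTop,
    x / Real.log x ^ (C + 1) ≤ (x / D) / Real.log (x / D) ^ C := by
  have hl : ∀ᶠ x : ℝ in atTop, D ≤ Real.log x := Real.tendsto_log_atTop.eventually_ge_atTop _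
  filter_upwards [hl, eventually_ge_atTop (2 * D)] with x h1 h2
  have hx : 0 < x := by linarith
  have h3 : 2 ≤ x / D := by rw [le_div_iff₀ (by linarith)]; exact h2
  have h4 : x / D ≤ x := div_le_self hx.le hD
  have h5 : 0 < Real.log (x / D) := Real.log_pos (by linarith)
  have h6 : Real.log (x / D) ≤ Real.log x := Real.log_le_log (by linarith) h4
  have h7 : 0 < Real.log x := by linarith
  have h8 : Real.log (x / D) ^ C ≤ Real.log x ^ C := pow_le_pow_left₀ h5.le h6 C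
  rw [div_le_div_iff₀ (by positivity) (by positivity)]
  have h9 : x / D * D = x := by field_simp
  calc x * Real.log (x / D) ^ C ≤ x * Real.log x ^ C := mul_le_mul_of_nonneg_left h8 hx.le
    _ = (x / D) * (Real.log x ^ C * D) := by nth_rewrite 1 [← h9]; ring
    _ ≤ (x / D) * (Real.log x ^ C * Real.log x) :=
        mul_le_mul_of_nonneg_left (mul_le_mul_of_nonneg_left h1 (by positivity)) (by linarith)
    _ = (x / D) * Real.log x ^ (C + 1) := by rw [pow_succ]

theorem strings (k : ℕ) : ∃ B : ℕ, ∀ L R M : ℕ, ∃ K : ℕ, ∀ V : Finset ℕ, K ≤ V.card →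
    ∀ φ : Fin R → ℕ → ℕ, (∀ ρ, Set.InjOn (φ ρ) V) → ∀ Q : ℕ, ∃ x₀ : ℝ,
    ∀ (q a : Fin R → ℕ) (x : Fin R → ℝ),
      (∀ ρ, 1 ≤ q ρ ∧ q ρ ≤ Q ∧ (∀ v ∈ V, (a ρ + φ ρ v).Coprime (q ρ)) ∧ x₀ ≤ x ρ) →
      ∃ W ⊆ V, W.card = L ∧ ∀ ρ, ∀ F ⊆ W, 1 ≤ F.card → F.card ≤ k + 1 →
        x ρ / Real.log (x ρ) ^ B ≤ (strN (q ρ) (a ρ) M (φ ρ) F (x ρ) : ℝ) := by
  classical
  obtain ⟨C, h⟩ := multi k
  refine ⟨C + 1, fun L R M => ?_⟩
  obtain ⟨N, hN⟩ := h L R
  set P : ℕ := (N + M + 1).factorial with hP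
  have hP1 : N + M + 1 ≤ P := Nat.self_le_factorial _
  have hP0 : 0 < P := by omega
  refine ⟨P ^ R * N, fun V hV φ hinj Q => ?_⟩
  -- a subset in one residue class
  obtain ⟨c, -, hc⟩ := Finset.exists_le_card_fiber_of_mul_le_card_of_maps_to (s := V)
    (t := (univ : Finset (Fin R → Fin P))) (n := N)
    (f := fun v ρ => ⟨φ ρ v % P, Nat.mod_lt _ hP0⟩) (fun _ _ => mem_univ _)
    ⟨fun _ => ⟨0, hP0⟩, mem_univ _⟩ (by
      rw [card_univ, Fintype.card_fun, Fintype.card_fin, Fintype.card_fin]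
      exact hV)
  obtain ⟨V₁, hV₁, hV₁N⟩ := exists_subset_card_eq hc
  have hV₁V : V₁ ⊆ V := hV₁.trans (filter_subset _ _)
  have hmod : ∀ ρ, ∀ u ∈ V₁, ∀ v ∈ V₁, φ ρ u % P = φ ρ v % P := by
    intro ρ u hu v hv
    have h1 := (mem_filter.1 (hV₁ hu)).2
    have h2 := (mem_filter.1 (hV₁ hv)).2
    have h3 := congrFun (h1.trans h2.symm) ρ
    simpa using h3
  -- the families
  set J : Finset (Fin R × ℕ × ℕ) := ((univ : Finset (Fin R)) ×ˢ ((Icc 1 Q) ×ˢ (range Q))).filter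
    (fun j => ∀ v ∈ V₁, (j.2.2 + φ j.1 v).Coprime j.2.1) with hJ
  have hJq : ∀ j ∈ J, 1 ≤ j.2.1 := by
    intro j hj
    have h1 := (mem_filter.1 hj).1
    rw [mem_product, mem_product, mem_Icc] at h1
    exact h1.2.1.1
  obtain ⟨x₀, hx₀⟩ := hN M (Fin R × ℕ × ℕ) J
    (fun j y => ((j.2.1 : ℤ), ((j.2.2 + (j.2.1 - 1) * M + y : ℕ) : ℤ)))
    (fun j v => φ j.1 v + M)
    (by
      intro j hj y
      have := hJq j hj
      show (0 : ℤ) < (j.2.1 : ℤ)
      exact_mod_cast this)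
    (by
      intro j hj y z hyz he
      have h1 := hJq j hj
      simp only at he
      have h2 : ((j.2.1 : ℕ) : ℤ) ≠ 0 := by exact_mod_cast (by omega : j.2.1 ≠ 0)
      have h3 := mul_left_cancel₀ h2 he
      rw [Nat.cast_inj] at h3
      omega)
    V₁ (by rw [hV₁N])
    (by
      intro j hj u hu v hv huv
      exact hinj j.1 (by exact_mod_cast hV₁V hu) (by exact_mod_cast hV₁V hv)
        (Nat.add_right_cancel huv))
    (by
      intro j hj u hu v hv huv
      have h1 := hmod j.1 u hu v hv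
      have h2 : P ∣ φ j.1 v - φ j.1 u := (Nat.modEq_iff_dvd' (by omega)).1 h1
      have h3 := Nat.le_of_dvd (by omega) h2
      omega)
    (by
      intro j hj p hp
      have h1 := hJq j hj
      have hcop := (mem_filter.1 hj).2
      suffices hs : ∃ n : ℕ, ∀ v ∈ V₁, ¬ p ∣ j.2.1 * n + (j.2.2 + (j.2.1 - 1) * M + (φ j.1 v + M)) by
        obtain ⟨n, hn⟩ := hs
        refine ⟨n, fun v hv hd => hn v hv ?_⟩
        simp only at hd
        exact_mod_cast hd
      have e : ∀ v, j.2.2 + (j.2.1 - 1) * M + (φ j.1 v + M) = j.2.1 * M + (j.2.2 + φ j.1 v) := by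
        intro v
        obtain ⟨r, hr⟩ := Nat.exists_eq_add_of_le h1
        rw [hr]
        have : 1 + r - 1 = r := by omega
        rw [this]
        ring
      by_cases hpq : p ∣ j.2.1
      · refine ⟨0, fun v hv hd => ?_⟩
        rw [e, mul_zero, zero_add] at hd
        have h2 := (Nat.dvd_add_right (hpq.mul_right M)).1 hd
        have h3 := Nat.dvd_gcd h2 hpq
        rw [hcop v hv] at h3
        exact hp.one_lt.ne' (Nat.dvd_one.1 h3)
      · by_cases hpN : p ≤ N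
        · rcases V₁.eq_empty_or_nonempty with h0 | ⟨v₀, hv₀⟩
          · exact ⟨0, fun v hv => by rw [h0] at hv; exact absurd hv (notMem_empty _)⟩
          · have hpP : p ∣ P := (Nat.Prime.dvd_factorial hp).2 (by omega)
            have h2 : ∀ v ∈ V₁, φ j.1 v ≡ φ j.1 v₀ [MOD p] := fun v hv =>
              Nat.ModEq.of_dvd hpP (hmod j.1 v hv v₀ hv₀)
            have h3 : ∀ n, ∀ v ∈ V₁, p ∣ j.2.1 * n + (j.2.2 + (j.2.1 - 1) * M + (φ j.1 v + M)) →
                p ∣ j.2.1 * n + (j.2.2 + (j.2.1 - 1) * M + (φ j.1 v₀ + M)) := by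
              intro n v hv hd
              have h4 : j.2.1 * n + (j.2.2 + (j.2.1 - 1) * M + (φ j.1 v + M)) ≡
                  j.2.1 * n + (j.2.2 + (j.2.1 - 1) * M + (φ j.1 v₀ + M)) [MOD p] :=
                Nat.ModEq.add_left _ (Nat.ModEq.add_left _ (Nat.ModEq.add_right _ (h2 v hv)))
              exact (Nat.modEq_zero_iff_dvd).1 (h4.symm.trans ((Nat.modEq_zero_iff_dvd).2 hd))
            by_cases h5 : p ∣ j.2.1 * 0 + (j.2.2 + (j.2.1 - 1) * M + (φ j.1 v₀ + M))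
            · refine ⟨1, fun v hv hd => ?_⟩
              have h6 := h3 1 v hv hd
              rw [mul_zero, zero_add] at h5
              exact hpq (by
                have h7 := (Nat.dvd_add_left h5).1 h6
                rwa [mul_one] at h7)
            · exact ⟨0, fun v hv hd => h5 (h3 0 v hv hd)⟩
        · exact avoid hp hpq V₁ _ (by omega))
  set D : ℝ := 2 * ((Q : ℝ) + 1) with hD
  have hQ0 : (0 : ℝ) ≤ Q := Nat.cast_nonneg _
  have hD1 : 1 ≤ D := by linarith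
  obtain ⟨x₁, hx₁⟩ := eventually_atTop.1 (div_loss C hD1)
  refine ⟨max (max x₁ (D * x₀)) (max 1 (2 * (Q * (M + 1) : ℝ))), fun q a x hqa => ?_⟩
  have hbig : ∀ ρ, x₁ ≤ x ρ ∧ x₀ ≤ x ρ / D ∧ 1 ≤ x ρ ∧ 2 * (Q * (M + 1) : ℝ) ≤ x ρ := by
    intro ρ
    have h1 := (hqa ρ).2.2.2
    refine ⟨?_, ?_, ?_, ?_⟩
    · exact (le_max_left _ _).trans ((le_max_left _ _).trans h1)
    · rw [le_div_iff₀ (by linarith), mul_comm]
      exact (le_max_right _ _).trans ((le_max_left _ _).trans h1)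
    · exact (le_max_left _ _).trans ((le_max_right _ _).trans h1)
    · exact (le_max_right _ _).trans ((le_max_right _ _).trans h1)
  obtain ⟨W, hW, hWL, hWF⟩ := hx₀ (fun ρ => (ρ, q ρ, a ρ % q ρ)) (fun ρ => x ρ / D) (by
    intro ρ
    refine ⟨?_, (hbig ρ).2.1⟩
    rw [hJ, mem_filter, mem_product, mem_product, mem_Icc, mem_range]
    have h1 := hqa ρ
    have h2 : a ρ % q ρ < q ρ := Nat.mod_lt _ h1.1
    refine ⟨⟨mem_univ _, ⟨h1.1, h1.2.1⟩, by show a ρ % q ρ < Q; omega⟩, fun v hv => ?_⟩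
    have h3 := h1.2.2.1 v (hV₁V hv)
    show (a ρ % q ρ + φ ρ v).Coprime (q ρ)
    have h4 : a ρ % q ρ + φ ρ v ≡ a ρ + φ ρ v [MOD q ρ] := Nat.ModEq.add_right _ (Nat.mod_modEq _ _)
    unfold Nat.Coprime at h3 ⊢
    rw [h4.gcd_eq]
    exact h3)
  refine ⟨W, hW.trans hV₁V, hWL, fun ρ F hF hF1 hFk => ?_⟩
  have h1 := hWF ρ F hF hF1 hFk
  refine (hx₁ (x ρ) (hbig ρ).1).trans (h1.trans (Nat.cast_le.2 ?_))
  obtain ⟨hq1, hqQ, -, -⟩ := hqa ρ
  have hFne : F.Nonempty := card_pos.1 (by omega)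
  unfold goodN strN
  refine Set.ncard_le_ncard_of_injOn (fun t => q ρ * t + a ρ % q ρ + q ρ * M) ?_ ?_ ?_
  · rintro t ⟨ht1, ht2⟩
    simp only at ht2
    refine ⟨?_, ?_, ?_⟩
    · have h2 : (a ρ % q ρ : ℕ) ≤ Q := (Nat.mod_lt _ hq1).le.trans hqQ
      have h3 : ((a ρ % q ρ : ℕ) : ℝ) ≤ Q := by exact_mod_cast h2
      have h4 : (q ρ : ℝ) ≤ Q := by exact_mod_cast hqQ
      have h5 : (q ρ : ℝ) * t ≤ Q * (x ρ / D) :=
        mul_le_mul h4 ht1 (Nat.cast_nonneg _) hQ0
      have h6 : Q * (x ρ / D) ≤ x ρ / 2 := by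
        rw [hD]
        have hx0 : 0 ≤ x ρ := by linarith [(hbig ρ).2.2.1]
        rw [← mul_div_assoc, div_le_div_iff₀ (by positivity) (by norm_num)]
        nlinarith
      have h7 : (q ρ : ℝ) * M ≤ Q * M := mul_le_mul_of_nonneg_right h4 (Nat.cast_nonneg _)
      have h8 := (hbig ρ).2.2.2
      push_cast
      have h9 : ((a ρ % q ρ : ℕ) : ℝ) = ((a ρ : ℕ) % (q ρ) : ℕ) := rfl
      nlinarith
    · show q ρ * t + a ρ % q ρ + q ρ * M ≡ a ρ [MOD q ρ]
      have h2 : q ρ * t + a ρ % q ρ + q ρ * M = a ρ % q ρ + q ρ * (t + M) := by ring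
      rw [h2]
      have h3 : a ρ % q ρ + q ρ * (t + M) ≡ a ρ % q ρ + 0 [MOD q ρ] :=
        Nat.ModEq.add_left _ ((Nat.modEq_zero_iff_dvd).2 (dvd_mul_right _ _))
      rw [add_zero] at h3
      exact h3.trans (Nat.mod_modEq _ _)
    · intro m hm1 hm2
      obtain ⟨r, hr⟩ := Nat.exists_eq_add_of_le hq1
      have hr' : q ρ - 1 = r := by omega
      have hqM : q ρ * M = r * M + M := by rw [hr]; ring
      set b : ℕ := q ρ * t + (a ρ % q ρ + r * M) with hb
      have hbm : b ≤ m := by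
        rw [hb]
        have : q ρ * t + a ρ % q ρ + q ρ * M ≤ m + M := hm1
        omega
      obtain ⟨y, rfl⟩ := Nat.exists_eq_add_of_le hbm
      obtain ⟨v₀, hv₀, hv₀s⟩ := Finset.exists_mem_eq_sup F hFne (φ ρ)
      have hsup : F.sup (φ ρ) + M ≤ (F.image (fun v => φ ρ v + M)).sup id := by
        rw [hv₀s]
        exact Finset.le_sup (f := id) (mem_image_of_mem (fun v => φ ρ v + M) hv₀)
      have hy := ht2 y (by
        have : b + y ≤ q ρ * t + a ρ % q ρ + q ρ * M + F.sup (φ ρ) + M := hm2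
        omega)
      have e : ((q ρ : ℤ) * (t : ℤ) + ((a ρ % q ρ + (q ρ - 1) * M + y : ℕ) : ℤ)).natAbs = b + y := by
        rw [hr']
        have : (q ρ : ℤ) * (t : ℤ) + ((a ρ % q ρ + r * M + y : ℕ) : ℤ) = ((b + y : ℕ) : ℤ) := by
          rw [hb]; push_cast; ring
        rw [this, Int.natAbs_natCast]
      rw [e] at hy
      rw [hy]
      constructor
      · intro h3
        obtain ⟨v, hv, hvy⟩ := mem_image.1 h3
        refine ⟨v, hv, ?_⟩
        show b + y = q ρ * t + a ρ % q ρ + q ρ * M + φ ρ v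
        omega
      · rintro ⟨v, hv, hvy⟩
        have h4 : b + y = q ρ * t + a ρ % q ρ + q ρ * M + φ ρ v := hvy
        exact mem_image.2 ⟨v, hv, by
          show φ ρ v + M = y
          omega⟩
  · intro t _ t' _ htt
    have h2 : q ρ * t + a ρ % q ρ + q ρ * M = q ρ * t' + a ρ % q ρ + q ρ * M := htt
    have h3 : q ρ * t = q ρ * t' := by omega
    exact Nat.eq_of_mul_eq_mul_left hq1 h3
  · apply (Set.finite_Iic ⌊x ρ⌋₊).subset
    rintro n ⟨h3, _⟩
    exact Nat.le_floor h3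

end Pool.Agent.R493.ST
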