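import Mathlib

set_option autoImplicit false
set_option linter.all false
set_option linter.unusedSectionVars false
set_option linter.style.haveILetI false

namespace Pool.Agent.R493.ST

variable {Γ : Type*} [Group Γ]

/-- `f` is invariant under conjugation by `U` -/
def Inv (U : Subgroup Γ) (f : Γ → ℂ) : Prop := ∀ u ∈ U, ∀ g, f (u⁻¹ * g * u) = f g

/-- induction of a `U`-invariant function from `U` to the whole group -/
noncomputable def Ind (U : Subgroup Γ) (f : Γ → ℂ) : Γ → ℂ :=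
  fun g => ∑ᶠ q : Γ ⧸ U, f (q.out⁻¹ * g * q.out)

theorem Ind_trans {U V : Subgroup Γ} (hU : Finite (Γ ⧸ U)) (hVU : V ≤ U) (T : Finset Γ)
    (hT : ∀ t ∈ T, t ∈ U) (hT' : ∀ u ∈ U, ∃! t, t ∈ T ∧ t⁻¹ * u ∈ V) {f : Γ → ℂ}
    (hf : Inv V f) : Ind V f = Ind U (fun g => ∑ t ∈ T, f (t⁻¹ * g * t)) := by
  classical
  funext g
  unfold Ind
  have key : ∀ x y : Γ, x⁻¹ * y ∈ V → f (y⁻¹ * g * y) = f (x⁻¹ * g * x) := by
    intro x y hxy
    have := hf (x⁻¹ * y) hxy (x⁻¹ * g * x)
    rw [← this]; congr 1; group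
  let e : (Γ ⧸ U) × T → Γ ⧸ V := fun p => (QuotientGroup.mk (p.1.out * p.2.1) : Γ ⧸ V)
  have he : Function.Bijective e := by
    constructor
    · rintro ⟨p, t⟩ ⟨p', t'⟩ h
      simp only [e] at h
      rw [QuotientGroup.eq] at h
      have h1 : (p.out * t.1)⁻¹ * (p'.out * t'.1) ∈ U := hVU h
      have h2 : p.out⁻¹ * p'.out ∈ U := by
        have := U.mul_mem (U.mul_mem (hT _ t.2) h1) (U.inv_mem (hT _ t'.2))
        have e1 : t.1 * ((p.out * t.1)⁻¹ * (p'.out * t'.1)) * t'.1⁻¹ = p.out⁻¹ * p'.out := by group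
        rwa [e1] at this
      have h3 : p = p' := by
        rw [← QuotientGroup.out_eq' p, ← QuotientGroup.out_eq' p', QuotientGroup.eq]; exact h2
      subst h3
      have h4 : t.1⁻¹ * t'.1 ∈ V := by
        have e1 : (p.out * t.1)⁻¹ * (p.out * t'.1) = t.1⁻¹ * t'.1 := by group
        rwa [e1] at h
      obtain ⟨x, -, hx2⟩ := hT' t'.1 (hT _ t'.2)
      have h5 := hx2 t.1 ⟨t.2, h4⟩
      have h6 := hx2 t'.1 ⟨t'.2, by rw [inv_mul_cancel]; exact V.one_mem⟩
      have : t = t' := Subtype.ext (h5.trans h6.symm)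
      rw [this]
    · intro q
      let p : Γ ⧸ U := QuotientGroup.mk q.out
      have h1 : p.out⁻¹ * q.out ∈ U := by
        rw [← QuotientGroup.eq, QuotientGroup.out_eq']
      obtain ⟨t, ⟨ht, ht2⟩, -⟩ := hT' _ h1
      refine ⟨(p, ⟨t, ht⟩), ?_⟩
      simp only [e]
      rw [← QuotientGroup.out_eq' q, QuotientGroup.eq]
      have e1 : (p.out * t)⁻¹ * q.out = t⁻¹ * (p.out⁻¹ * q.out) := by group
      have e2 : (⟦q.out⟧ : Γ ⧸ V).out = q.out := by
        have : (⟦q.out⟧ : Γ ⧸ V) = q := QuotientGroup.out_eq' q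
        rw [this]
      first
        | (rw [e1]; exact ht2)
        | (simp only [QuotientGroup.out_eq'] at *; rw [e1]; exact ht2)
  have hfin : Finite ((Γ ⧸ U) × T) := inferInstance
  have hV : Finite (Γ ⧸ V) := Finite.of_surjective e he.2
  haveI := Fintype.ofFinite (Γ ⧸ U)
  haveI := Fintype.ofFinite (Γ ⧸ V)
  rw [finsum_eq_sum_of_fintype, finsum_eq_sum_of_fintype]
  rw [← (Equiv.ofBijective e he).sum_comp (fun q => f (q.out⁻¹ * g * q.out)),
    Fintype.sum_prod_type]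
  refine Finset.sum_congr rfl fun p _ => ?_
  show _ = ∑ t ∈ T, f (t⁻¹ * (p.out⁻¹ * g * p.out) * t)
  rw [← Finset.sum_coe_sort T (fun t => f (t⁻¹ * (p.out⁻¹ * g * p.out) * t))]
  refine Finset.sum_congr rfl fun t _ => ?_
  have h1 : f ((p.out * t.1)⁻¹ * g * (p.out * t.1)) = f (t.1⁻¹ * (p.out⁻¹ * g * p.out) * t.1) := by
    congr 1; group
  rw [← h1]
  have h2 : (p.out * t.1)⁻¹ * ((Equiv.ofBijective e he) (p, t)).out ∈ V := by
    rw [← QuotientGroup.eq, QuotientGroup.out_eq']; rfl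
  exact key _ _ h2

theorem Ind_add {U : Subgroup Γ} (hU : Finite (Γ ⧸ U)) (f g : Γ → ℂ) :
    Ind U (f + g) = Ind U f + Ind U g := by
  classical
  haveI := Fintype.ofFinite (Γ ⧸ U)
  funext x
  simp only [Ind, finsum_eq_sum_of_fintype, Pi.add_apply, Finset.sum_add_distrib]

theorem Ind_zsmul {U : Subgroup Γ} (hU : Finite (Γ ⧸ U)) (n : ℤ) (f : Γ → ℂ) :
    Ind U (n • f) = n • Ind U f := by
  classical
  haveI := Fintype.ofFinite (Γ ⧸ U)
  funext x
  simp only [Ind, finsum_eq_sum_of_fintype, Pi.smul_apply, Finset.smul_sum]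

theorem Ind_sub {U : Subgroup Γ} (hU : Finite (Γ ⧸ U)) (f g : Γ → ℂ) :
    Ind U (f - g) = Ind U f - Ind U g := by
  classical
  haveI := Fintype.ofFinite (Γ ⧸ U)
  funext x
  simp only [Ind, finsum_eq_sum_of_fintype, Pi.sub_apply, Finset.sum_sub_distrib]

theorem Ind_zero (U : Subgroup Γ) : Ind U (0 : Γ → ℂ) = 0 := by
  funext x; simp [Ind]

variable [TopologicalSpace Γ]

/-- `l` is a continuous character of `U` with values in the `N`-th roots of unity,
extended by `0` outside `U` -/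
structure IsChar (N : ℕ) (U : Subgroup Γ) (l : Γ → ℂ) : Prop where
  zero : ∀ g, g ∉ U → l g = 0
  one : l 1 = 1
  mul : ∀ g ∈ U, ∀ h ∈ U, l (g * h) = l g * l h
  pow : ∀ g ∈ U, l g ^ N = 1
  cont : ∃ W : Subgroup Γ, IsOpen (W : Set Γ) ∧ W ≤ U ∧ ∀ g ∈ W, l g = 1

namespace IsChar
variable {N : ℕ} {U V : Subgroup Γ} {l m : Γ → ℂ}

theorem ne (h : IsChar N U l) {g : Γ} (hg : g ∈ U) : l g ≠ 0 := by
  intro h0
  have := h.mul g hg g⁻¹ (U.inv_mem hg)
  rw [mul_inv_cancel, h.one, h0, zero_mul] at this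
  exact one_ne_zero this

theorem inv' (h : IsChar N U l) {g : Γ} (hg : g ∈ U) : l g⁻¹ = (l g)⁻¹ := by
  have := h.mul g hg g⁻¹ (U.inv_mem hg)
  rw [mul_inv_cancel, h.one] at this
  exact eq_inv_of_mul_eq_one_right this.symm

theorem inv (h : IsChar N U l) : Inv U l := by
  intro u hu g
  by_cases hg : g ∈ U
  · rw [h.mul _ (U.mul_mem (U.inv_mem hu) hg) _ hu, h.mul _ (U.inv_mem hu) _ hg, h.inv' hu]
    have := h.ne hu
    field_simp
  · rw [h.zero g hg, h.zero]
    intro h2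
    apply hg
    have := U.mul_mem (U.mul_mem hu h2) (U.inv_mem hu)
    have e : u * (u⁻¹ * g * u) * u⁻¹ = g := by group
    rwa [e] at this

theorem mul' (h : IsChar N U l) (h' : IsChar N U m) : IsChar N U (l * m) where
  zero g hg := by simp [h.zero g hg]
  one := by simp [h.one, h'.one]
  mul g hg k hk := by simp only [Pi.mul_apply, h.mul g hg k hk, h'.mul g hg k hk]; ring
  pow g hg := by simp only [Pi.mul_apply, mul_pow, h.pow g hg, h'.pow g hg, mul_one]
  cont := by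
    obtain ⟨W, h1, h2, h3⟩ := h.cont
    obtain ⟨W', h1', h2', h3'⟩ := h'.cont
    refine ⟨W ⊓ W', h1.inter h1', inf_le_left.trans h2, fun g hg => ?_⟩
    simp [h3 g hg.1, h3' g hg.2]

theorem mono {M : ℕ} (h : IsChar N U l) (hM : N ∣ M) : IsChar M U l where
  zero := h.zero
  one := h.one
  mul := h.mul
  pow g hg := by
    obtain ⟨k, rfl⟩ := hM
    rw [pow_mul, h.pow g hg, one_pow]
  cont := h.cont

end IsChar

open Classical in
/-- restriction to `V` (extension by zero) -/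
noncomputable def res (V : Subgroup Γ) (f : Γ → ℂ) : Γ → ℂ := fun g => if g ∈ V then f g else 0

theorem res_mem {V : Subgroup Γ} {f : Γ → ℂ} {g : Γ} (h : g ∈ V) : res V f g = f g := by
  simp [res, h]

theorem res_not {V : Subgroup Γ} {f : Γ → ℂ} {g : Γ} (h : g ∉ V) : res V f g = 0 := by
  simp [res, h]

theorem IsChar.res {N : ℕ} {U V : Subgroup Γ} {l : Γ → ℂ} (h : IsChar N U l) (hVU : V ≤ U)
    (hV : IsOpen (V : Set Γ)) : IsChar N V (res V l) where
  zero g hg := res_not hg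
  one := by rw [res_mem V.one_mem, h.one]
  mul g hg k hk := by
    rw [res_mem hg, res_mem hk, res_mem (V.mul_mem hg hk), h.mul g (hVU hg) k (hVU hk)]
  pow g hg := by rw [res_mem hg, h.pow g (hVU hg)]
  cont := by
    obtain ⟨W, h1, h2, h3⟩ := h.cont
    exact ⟨W ⊓ V, h1.inter hV, inf_le_right, fun g hg => by rw [res_mem hg.2, h3 g hg.1]⟩

theorem isChar_one {N : ℕ} {U : Subgroup Γ} (hU : IsOpen (U : Set Γ)) :
    IsChar N U (res U 1) where
  zero g hg := res_not hg
  one := by rw [res_mem U.one_mem]; rfl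
  mul g hg k hk := by rw [res_mem hg, res_mem hk, res_mem (U.mul_mem hg hk)]; simp
  pow g hg := by rw [res_mem hg]; simp
  cont := ⟨U, hU, le_rfl, fun g hg => by rw [res_mem hg]; rfl⟩

/-- the virtual characters induced from open subgroups not meeting `X` -/
def I (N : ℕ) (X : Set Γ) : AddSubgroup (Γ → ℂ) :=
  AddSubgroup.closure {h | ∃ (W : Subgroup Γ) (l : Γ → ℂ), IsOpen (W : Set Γ) ∧
    (∀ x ∈ X, x ∉ W) ∧ IsChar N W l ∧ h = Ind W l}

/-- `f`, as a function on `U`, lies in the ideal generated by induced characters -/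
def P (N : ℕ) (X : Set Γ) (U : Subgroup Γ) (f : Γ → ℂ) : Prop :=
  ∀ l, IsChar N U l → Ind U (l * f) ∈ I N X

variable [IsTopologicalGroup Γ] [CompactSpace Γ]

theorem fin {U : Subgroup Γ} (hU : IsOpen (U : Set Γ)) : Finite (Γ ⧸ U) :=
  U.quotient_finite_of_isOpen hU

section P
variable {N : ℕ} {X : Set Γ} {U V : Subgroup Γ} {f g : Γ → ℂ}

omit [IsTopologicalGroup Γ] [CompactSpace Γ] in
theorem P.congr (h : P N X U f) (hfg : ∀ x ∈ U, f x = g x) : P N X U g := by
  intro l hl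
  have : l * g = l * f := by
    funext x
    by_cases hx : x ∈ U
    · simp [hfg x hx]
    · simp [hl.zero x hx]
  rw [this]; exact h l hl

theorem P.add (hU : IsOpen (U : Set Γ)) (h : P N X U f) (h' : P N X U g) : P N X U (f + g) := by
  intro l hl
  rw [mul_add, Ind_add (fin hU)]
  exact add_mem (h l hl) (h' l hl)

theorem P.sub (hU : IsOpen (U : Set Γ)) (h : P N X U f) (h' : P N X U g) : P N X U (f - g) := by
  intro l hl
  rw [mul_sub, Ind_sub (fin hU)]
  exact sub_mem (h l hl) (h' l hl)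

omit [IsTopologicalGroup Γ] [CompactSpace Γ] in
theorem P.zero : P N X U 0 := by
  intro l hl
  rw [mul_zero, Ind_zero]; exact zero_mem _

theorem P.zsmul (hU : IsOpen (U : Set Γ)) (n : ℤ) (h : P N X U f) : P N X U (n • f) := by
  intro l hl
  have : l * (n • f) = n • (l * f) := mul_smul_comm n l f
  rw [this, Ind_zsmul (fin hU)]
  exact zsmul_mem (h l hl) n

omit [IsTopologicalGroup Γ] [CompactSpace Γ] in
theorem P.char {m : Γ → ℂ} (hm : IsChar N U m) (h : P N X U f) : P N X U (m * f) := by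
  intro l hl
  rw [← mul_assoc]
  exact h _ (hl.mul' hm)

theorem P.sum (hU : IsOpen (U : Set Γ)) {ι : Type*} (s : Finset ι) (F : ι → Γ → ℂ)
    (h : ∀ i ∈ s, P N X U (F i)) : P N X U (∑ i ∈ s, F i) := by
  classical
  induction s using Finset.induction_on with
  | empty => simpa using P.zero
  | insert a s ha ih =>
    rw [Finset.sum_insert ha]
    exact (h a (Finset.mem_insert_self _ _)).add hU
      (ih fun i hi => h i (Finset.mem_insert_of_mem hi))

omit [IsTopologicalGroup Γ] [CompactSpace Γ] in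
/-- characters of a subgroup not meeting `X` -/
theorem P.cpx (hU : IsOpen (U : Set Γ)) (hX : ∀ x ∈ X, x ∉ U) {m : Γ → ℂ} (hm : IsChar N U m) :
    P N X U m := by
  intro l hl
  exact AddSubgroup.subset_closure ⟨U, l * m, hU, hX, hl.mul' hm, rfl⟩

omit [IsTopologicalGroup Γ] [CompactSpace Γ] in
theorem P.cpx1 (hU : IsOpen (U : Set Γ)) (hX : ∀ x ∈ X, x ∉ U) : P N X U 1 :=
  (P.cpx hU hX (isChar_one hU)).congr fun x hx => res_mem hx

/-- relative induction preserves the ideal -/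
theorem P.ind (hU : IsOpen (U : Set Γ)) (hV : IsOpen (V : Set Γ)) (hVU : V ≤ U) (T : Finset Γ)
    (hT : ∀ t ∈ T, t ∈ U) (hT' : ∀ u ∈ U, ∃! t, t ∈ T ∧ t⁻¹ * u ∈ V)
    (hf0 : ∀ g, g ∉ V → f g = 0) (hf : Inv V f) (h : P N X V f) :
    P N X U (fun g => ∑ t ∈ T, f (t⁻¹ * g * t)) := by
  intro l hl
  have h1 := h _ (hl.res hVU hV)
  have e1 : res V l * f = l * f := by
    funext x
    by_cases hx : x ∈ V
    · simp [res_mem hx]
    · simp [hf0 x hx]
  rw [e1] at h1
  have hinv : Inv V (l * f) := by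
    intro v hv x
    simp only [Pi.mul_apply, hf v hv x, hl.inv v (hVU hv) x]
  rw [Ind_trans (fin hU) hVU T hT hT' hinv] at h1
  convert h1 using 2
  funext x
  simp only [Pi.mul_apply, Finset.mul_sum]
  refine Finset.sum_congr rfl fun t ht => ?_
  rw [hl.inv t (hT t ht) x]

end P

end Pool.Agent.R493.ST
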