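import Pool.Agent.R493.ST.A

set_option autoImplicit false
set_option linter.all false

namespace Pool.Agent.R493.ST

variable {Γ : Type*} [Group Γ] [TopologicalSpace Γ]

/-- the properties of the set of complex conjugations which we use -/
structure Data (X : Set Γ) : Prop where
  sq : ∀ x ∈ X, x * x = 1
  conj : ∀ x ∈ X, ∀ g : Γ, g⁻¹ * x * g ∈ X
  cen : ∀ x ∈ X, ∀ g : Γ, g * x = x * g → g = 1 ∨ g = x
  sign : ∀ U : Subgroup Γ, IsOpen (U : Set Γ) → ∀ s : Γ → ℂ,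
    (∀ x ∈ X, x ∈ U → s x = 1 ∨ s x = -1) →
    (∀ x ∈ X, x ∈ U → ∀ u ∈ U, s (u⁻¹ * x * u) = s x) →
    ∃ ξ : Γ → ℂ, IsChar 2 U ξ ∧ ∀ x ∈ X, x ∈ U → ξ x = s x

/-- kernel of a character -/
def IsChar.ker {N : ℕ} {U : Subgroup Γ} {l : Γ → ℂ} (h : IsChar N U l) : Subgroup Γ where
  carrier := {g | g ∈ U ∧ l g = 1}
  one_mem' := ⟨U.one_mem, h.one⟩
  mul_mem' := by
    rintro a b ⟨ha, ha'⟩ ⟨hb, hb'⟩
    exact ⟨U.mul_mem ha hb, by rw [h.mul a ha b hb, ha', hb', one_mul]⟩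
  inv_mem' := by
    rintro a ⟨ha, ha'⟩
    exact ⟨U.inv_mem ha, by rw [h.inv' ha, ha', inv_one]⟩

theorem IsChar.mem_ker {N : ℕ} {U : Subgroup Γ} {l : Γ → ℂ} (h : IsChar N U l) {g : Γ} :
    g ∈ h.ker ↔ g ∈ U ∧ l g = 1 := Iff.rfl

theorem IsChar.ker_le {N : ℕ} {U : Subgroup Γ} {l : Γ → ℂ} (h : IsChar N U l) : h.ker ≤ U :=
  fun _ hg => hg.1

theorem IsChar.ker_open [IsTopologicalGroup Γ] {N : ℕ} {U : Subgroup Γ} {l : Γ → ℂ}
    (h : IsChar N U l) : IsOpen (h.ker : Set Γ) := by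
  obtain ⟨W, h1, h2, h3⟩ := h.cont
  exact Subgroup.isOpen_mono (H₁ := W) (fun g hg => ⟨h2 hg, h3 g hg⟩) h1

theorem IsChar.quad {U : Subgroup Γ} {l : Γ → ℂ} (h : IsChar 2 U l) {g : Γ} (hg : g ∈ U) :
    l g = 1 ∨ l g = -1 := by
  have := h.pow g hg
  rw [sq] at this
  exact mul_self_eq_one_iff.mp this

theorem IsChar.mul_self {U : Subgroup Γ} {l : Γ → ℂ} (h : IsChar 2 U l) {g : Γ} (hg : g ∈ U) :
    l g * l g = 1 := by
  rw [← sq]; exact h.pow g hg

theorem IsChar.inv2 {U : Subgroup Γ} {l : Γ → ℂ} (h : IsChar 2 U l) {g : Γ} (hg : g ∈ U) :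
    l g⁻¹ = l g := by
  rw [h.inv' hg]
  exact inv_eq_of_mul_eq_one_left (h.mul_self hg)

/-- transversal of the kernel of a quadratic character -/
theorem trans2 {U : Subgroup Γ} {η : Γ → ℂ} (hη : IsChar 2 U η) {s : Γ} (hs : s ∈ U)
    (hs1 : η s = -1) [DecidableEq Γ] :
    ∀ u ∈ U, ∃! t, t ∈ ({1, s} : Finset Γ) ∧ t⁻¹ * u ∈ hη.ker := by
  intro u hu
  have hne : (1 : ℂ) ≠ -1 := by norm_num
  rcases hη.quad hu with h | h
  · refine ⟨1, ⟨by simp, by simpa [hη.mem_ker] using ⟨hu, h⟩⟩, ?_⟩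
    rintro t ⟨ht, ht2⟩
    simp only [Finset.mem_insert, Finset.mem_singleton] at ht
    rcases ht with rfl | rfl
    · rfl
    · exfalso
      have h3 := ht2.2
      rw [hη.mul _ (U.inv_mem hs) _ hu, hη.inv2 hs, hs1, h] at h3
      norm_num at h3
  · refine ⟨s, ⟨by simp, U.mul_mem (U.inv_mem hs) hu, ?_⟩, ?_⟩
    · rw [hη.mul _ (U.inv_mem hs) _ hu, hη.inv2 hs, hs1, h]; norm_num
    · rintro t ⟨ht, ht2⟩
      simp only [Finset.mem_insert, Finset.mem_singleton] at ht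
      rcases ht with rfl | rfl
      · exfalso
        have h3 := ht2.2
        simp only [inv_one, one_mul, h] at h3
        norm_num at h3
      · rfl

variable [IsTopologicalGroup Γ] [CompactSpace Γ]

theorem P.ind2 {N : ℕ} {X : Set Γ} {U : Subgroup Γ} (hU : IsOpen (U : Set Γ)) {η : Γ → ℂ}
    (hη : IsChar 2 U η) {s : Γ} (hs : s ∈ U) (hs1 : η s = -1) {f : Γ → ℂ}
    (hf0 : ∀ g, g ∉ hη.ker → f g = 0) (hf : Inv hη.ker f) (h : P N X hη.ker f) :
    P N X U (fun g => f g + f (s⁻¹ * g * s)) := by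
  classical
  have h1 := h.ind hU hη.ker_open hη.ker_le {1, s}
    (by intro t ht; simp only [Finset.mem_insert, Finset.mem_singleton] at ht
        rcases ht with rfl | rfl
        · exact U.one_mem
        · exact hs) (trans2 hη hs hs1) hf0 hf
  have hne : (1 : Γ) ≠ s := by
    rintro rfl; rw [hη.one] at hs1; norm_num at hs1
  have : (fun g => ∑ t ∈ ({1, s} : Finset Γ), f (t⁻¹ * g * t)) =
      fun g => f g + f (s⁻¹ * g * s) := by
    funext g
    rw [Finset.sum_pair hne]; simp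
  rwa [this] at h1

theorem res_one_conj {U : Subgroup Γ} {η : Γ → ℂ} (hη : IsChar 2 U η) {s : Γ} (hs : s ∈ U)
    {g : Γ} (hg : g ∈ U) :
    res hη.ker 1 g + res hη.ker 1 (s⁻¹ * g * s) = 1 + η g := by
  rcases hη.quad hg with h | h
  · have h1 : g ∈ hη.ker := ⟨hg, h⟩
    have h2 : s⁻¹ * g * s ∈ hη.ker :=
      ⟨U.mul_mem (U.mul_mem (U.inv_mem hs) hg) hs, by rw [hη.inv s hs g, h]⟩
    rw [res_mem h1, res_mem h2, h]; simp
  · have h1 : g ∉ hη.ker := fun h' => by rw [h'.2] at h; norm_num at h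
    have h2 : s⁻¹ * g * s ∉ hη.ker := fun h' => by
      have := h'.2; rw [hη.inv s hs g, h] at this; norm_num at this
    rw [res_not h1, res_not h2, h]; simp

theorem inv_res {V : Subgroup Γ} {f : Γ → ℂ} (hf : Inv V f) : Inv V (res V f) := by
  intro v hv g
  by_cases hg : g ∈ V
  · rw [res_mem hg, res_mem (V.mul_mem (V.mul_mem (V.inv_mem hv) hg) hv), hf v hv g]
  · rw [res_not hg, res_not]
    intro h
    apply hg
    have := V.mul_mem (V.mul_mem hv h) (V.inv_mem hv)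
    have e : v * (v⁻¹ * g * v) * v⁻¹ = g := by group
    rwa [e] at this

theorem inv_one (V : Subgroup Γ) : Inv V (1 : Γ → ℂ) := fun _ _ _ => rfl

section
variable {N : ℕ} {X : Set Γ} {U : Subgroup Γ}

/-- a totally odd quadratic character is `≡ -1` -/
theorem P_one_add (hN : 2 ∣ N) (hU : IsOpen (U : Set Γ)) {ξ : Γ → ℂ} (hξ : IsChar 2 U ξ)
    (h : ∀ x ∈ X, x ∈ U → ξ x = -1) : P N X U (1 + ξ) := by
  by_cases h0 : ∀ x ∈ X, x ∉ U
  · exact (P.cpx1 hU h0).add hU (P.cpx hU h0 (hξ.mono hN))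
  · push Not at h0
    obtain ⟨x, hx, hxU⟩ := h0
    have hV : ∀ y ∈ X, y ∉ hξ.ker := by
      intro y hy hy'
      have := h y hy hy'.1
      rw [hy'.2] at this; norm_num at this
    have h1 : P N X hξ.ker (res hξ.ker 1) := P.cpx hξ.ker_open hV (isChar_one hξ.ker_open)
    refine (P.ind2 hU hξ hxU (h x hx hxU) (fun g hg => res_not hg) (inv_res (inv_one _)) h1).congr
      fun g hg => ?_
    rw [res_one_conj hξ hxU hg]; simp

/-- quadratic characters are determined by their signs -/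
theorem P_sub (hN : 2 ∣ N) (D : Data X) (hU : IsOpen (U : Set Γ)) {α β : Γ → ℂ}
    (hα : IsChar 2 U α) (hβ : IsChar 2 U β) (h : ∀ x ∈ X, x ∈ U → α x = β x) :
    P N X U (α - β) := by
  obtain ⟨ε, hε, hε1⟩ := D.sign U hU (fun _ => -1) (fun _ _ _ => Or.inr rfl)
    (fun _ _ _ _ _ => rfl)
  have h1 := P_one_add (N := N) (X := X) hN hU hε hε1
  have h2 := P_one_add (N := N) (X := X) hN hU (hε.mul' (hα.mul' hβ)) (by
    intro x hx hxU
    simp only [Pi.mul_apply]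
    rw [hε1 x hx hxU, h x hx hxU, hβ.mul_self hxU, mul_one])
  refine ((h1.char (hα.mono hN)).sub hU (h2.char (hβ.mono hN))).congr fun g hg => ?_
  simp only [Pi.sub_apply, Pi.mul_apply, Pi.add_apply, Pi.one_apply]
  have := hβ.mul_self hg
  linear_combination (-(ε g * α g)) * this

end

end Pool.Agent.R493.ST
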