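import Pool.Agent.R493.ST.B

set_option autoImplicit false
set_option linter.all false

namespace Pool.Agent.R493.ST

variable {Γ : Type*} [Group Γ] [TopologicalSpace Γ] [IsTopologicalGroup Γ]

section D4
variable {U : Subgroup Γ} {η ξ : Γ → ℂ} (hη : IsChar 2 U η) (hξ : IsChar 2 hη.ker ξ)
  {s : Γ} (hs : s ∈ U) (hs1 : η s = -1)

include hη in
theorem notker {g : Γ} (hg : g ∈ U) (h : g ∉ hη.ker) : η g = -1 := by
  rcases hη.quad hg with h1 | h1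
  · exact absurd ⟨hg, h1⟩ h
  · exact h1

include hη in
theorem ker_mul {g k : Γ} (hg : g ∈ U) (h : g ∉ hη.ker) (hk : k ∈ U) (h' : k ∉ hη.ker) :
    g * k ∈ hη.ker :=
  ⟨U.mul_mem hg hk, by rw [hη.mul _ hg _ hk, notker hη hg h, notker hη hk h']; norm_num⟩

include hη in
theorem ker_conj {g k : Γ} (hk : k ∈ U) (h : g ∈ hη.ker) : k⁻¹ * g * k ∈ hη.ker :=
  ⟨U.mul_mem (U.mul_mem (U.inv_mem hk) h.1) hk, by rw [hη.inv k hk g, h.2]⟩

include hξ hs hs1 in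
/-- conjugation by any element outside the kernel is the same -/
theorem conj_same {g k : Γ} (hg : g ∈ hη.ker) (hk : k ∈ U) (hk' : k ∉ hη.ker) :
    ξ (k⁻¹ * g * k) = ξ (s⁻¹ * g * s) := by
  have hs' : s ∉ hη.ker := fun h => by have := h.2; rw [hs1] at this; norm_num at this
  have h1 : s⁻¹ * k ∈ hη.ker := by
    refine ker_mul hη (U.inv_mem hs) (fun h => hs' ?_) hk hk'
    have := hη.ker.inv_mem h
    rwa [inv_inv] at this
  have := hξ.inv (s⁻¹ * k) h1 (s⁻¹ * g * s)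
  rw [← this]
  congr 1; group

open Classical in
/-- the transfer of `ξ` -/
noncomputable def nu (s : Γ) (g : Γ) : ℂ :=
  if g ∈ hη.ker then ξ g * ξ (s⁻¹ * g * s) else if g ∈ U then ξ (g * g) else 0

omit [IsTopologicalGroup Γ] in
theorem nu_mem {g : Γ} (hg : g ∈ hη.ker) : nu hη (ξ := ξ) s g = ξ g * ξ (s⁻¹ * g * s) := by
  simp [nu, hg]

omit [IsTopologicalGroup Γ] in
theorem nu_not {g : Γ} (hg : g ∈ U) (hg' : g ∉ hη.ker) : nu hη (ξ := ξ) s g = ξ (g * g) := by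
  simp [nu, hg, hg']

include hξ hs hs1 in
theorem nu_char : IsChar 2 U (nu hη (ξ := ξ) s) := by
  have hs' : s ∉ hη.ker := fun h => by have := h.2; rw [hs1] at this; norm_num at this
  have cs : ∀ g ∈ hη.ker, ∀ k ∈ U, k ∉ hη.ker → ξ (k⁻¹ * g * k) = ξ (s⁻¹ * g * s) :=
    fun g hg k hk hk' => conj_same hη hξ hs hs1 hg hk hk'
  have cs' : ∀ g ∈ hη.ker, ∀ k ∈ U, k ∉ hη.ker → ξ (k * g * k⁻¹) = ξ (s⁻¹ * g * s) := by
    intro g hg k hk hk'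
    have h1 : k⁻¹ ∉ hη.ker := fun h => hk' (by have := hη.ker.inv_mem h; rwa [inv_inv] at this)
    have := cs g hg k⁻¹ (U.inv_mem hk) h1
    rwa [inv_inv] at this
  have sk : ∀ g ∈ hη.ker, s⁻¹ * g * s ∈ hη.ker := fun g hg => ker_conj hη hs hg
  refine ⟨?_, ?_, ?_, ?_, ?_⟩
  · intro g hg
    have h1 : g ∉ hη.ker := fun h => hg h.1
    simp [nu, hg, h1]
  · rw [nu_mem hη hη.ker.one_mem]
    simp [hξ.one]
  · intro g hg k hk
    by_cases h1 : g ∈ hη.ker <;> by_cases h2 : k ∈ hη.ker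
    · rw [nu_mem hη h1, nu_mem hη h2, nu_mem hη (hη.ker.mul_mem h1 h2), hξ.mul _ h1 _ h2]
      have e : s⁻¹ * (g * k) * s = (s⁻¹ * g * s) * (s⁻¹ * k * s) := by group
      rw [e, hξ.mul _ (sk g h1) _ (sk k h2)]; ring
    · have h3 : g * k ∉ hη.ker := fun h => h2 (by
        have := hη.ker.mul_mem (hη.ker.inv_mem h1) h
        rwa [inv_mul_cancel_left] at this)
      rw [nu_mem hη h1, nu_not hη hk h2, nu_not hη (U.mul_mem hg hk) h3]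
      have e : g * k * (g * k) = g * (k * g * k⁻¹) * (k * k) := by group
      have h4 : k * g * k⁻¹ ∈ hη.ker := by
        have := ker_conj hη (U.inv_mem hk) h1
        rwa [inv_inv] at this
      have h5 : k * k ∈ hη.ker := ker_mul hη hk h2 hk h2
      rw [e, hξ.mul _ (hη.ker.mul_mem h1 h4) _ h5, hξ.mul _ h1 _ h4, cs' g h1 k hk h2]
    · have h3 : g * k ∉ hη.ker := fun h => h1 (by
        have := hη.ker.mul_mem h (hη.ker.inv_mem h2)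
        rwa [mul_inv_cancel_right] at this)
      rw [nu_not hη hg h1, nu_mem hη h2, nu_not hη (U.mul_mem hg hk) h3]
      have e : g * k * (g * k) = (g * g) * (g⁻¹ * k * g) * k := by group
      have h4 : g⁻¹ * k * g ∈ hη.ker := ker_conj hη hg h2
      have h5 : g * g ∈ hη.ker := ker_mul hη hg h1 hg h1
      rw [e, hξ.mul _ (hη.ker.mul_mem h5 h4) _ h2, hξ.mul _ h5 _ h4, cs k h2 g hg h1]; ring
    · have h3 : g * k ∈ hη.ker := ker_mul hη hg h1 hk h2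
      rw [nu_not hη hg h1, nu_not hη hk h2, nu_mem hη h3]
      have h5 : g * g ∈ hη.ker := ker_mul hη hg h1 hg h1
      have h6 : k * k ∈ hη.ker := ker_mul hη hk h2 hk h2
      have h4 : g * (g * k) * g⁻¹ ∈ hη.ker := by
        have := ker_conj hη (U.inv_mem hg) h3
        rwa [inv_inv] at this
      rw [← hξ.mul _ h5 _ h6]
      have e : g * g * (k * k) = (g * (g * k) * g⁻¹) * (g * k) := by group
      rw [e, hξ.mul _ h4 _ h3, cs' _ h3 g hg h1]; ring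
  · intro g hg
    by_cases h1 : g ∈ hη.ker
    · rw [nu_mem hη h1, mul_pow, hξ.pow _ h1, hξ.pow _ (sk g h1), one_mul]
    · rw [nu_not hη hg h1, hξ.pow _ (ker_mul hη hg h1 hg h1)]
  · obtain ⟨W, h1, h2, h3⟩ := hξ.cont
    let W' : Subgroup Γ := W.comap (MulAut.conj s⁻¹).toMonoidHom
    have hW' : IsOpen (W' : Set Γ) := by
      have hc : Continuous fun x : Γ => s⁻¹ * x * s := by fun_prop
      have := h1.preimage hc
      convert this using 1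
      ext x
      simp [W']
    refine ⟨W ⊓ W', h1.inter hW', fun g hg => (h2 hg.1).1, fun g hg => ?_⟩
    have h4 : s⁻¹ * g * s ∈ W := by
      have := hg.2
      simpa [W'] using this
    rw [nu_mem hη (h2 hg.1), h3 g hg.1, h3 _ h4, one_mul]

end D4

section D4b
variable {U : Subgroup Γ} {η ξ : Γ → ℂ} (hη : IsChar 2 U η) (hξ : IsChar 2 hη.ker ξ)
  {s : Γ} (hs : s ∈ U) (hs1 : η s = -1)

include hη hξ hs hs1 in
/-- the dihedral relation -/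
theorem dihedral (x₀ : Γ) (hx₀ : x₀ ∈ hη.ker) (hx : nu hη (ξ := ξ) s x₀ = -1) :
    ∃ ξ' : Γ → ℂ, IsChar 2 (nu_char hη hξ hs hs1).ker ξ' ∧
      (∀ g ∈ (nu_char hη hξ hs hs1).ker, g ∈ hη.ker → ξ' g = ξ g) ∧
      (∀ g ∈ U, ξ g + ξ (s⁻¹ * g * s) = ξ' g + ξ' (x₀⁻¹ * g * x₀)) := by
  classical
  set hν := nu_char hη hξ hs hs1 with hνdef
  set ν := nu hη (ξ := ξ) s with hνd
  have hs' : s ∉ hη.ker := fun h => by have := h.2; rw [hs1] at this; norm_num at this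
  have cs : ∀ g ∈ hη.ker, ∀ k ∈ U, k ∉ hη.ker → ξ (k⁻¹ * g * k) = ξ (s⁻¹ * g * s) :=
    fun g hg k hk hk' => conj_same hη hξ hs hs1 hg hk hk'
  have sk : ∀ g ∈ hη.ker, s⁻¹ * g * s ∈ hη.ker := fun g hg => ker_conj hη hs hg
  -- the element `g₀`
  obtain ⟨g₀, hg₀U, hg₀η, hg₀ν⟩ : ∃ g₀ ∈ U, g₀ ∉ hη.ker ∧ ν g₀ = 1 := by
    rcases hν.quad hs with h | h
    · exact ⟨s, hs, hs', h⟩
    · refine ⟨s * x₀, U.mul_mem hs hx₀.1, fun h' => hs' ?_, ?_⟩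
      · have := hη.ker.mul_mem h' (hη.ker.inv_mem hx₀)
        rwa [mul_inv_cancel_right] at this
      · rw [hν.mul _ hs _ hx₀.1, h, hx]; norm_num
  have hD : ∀ g ∈ hη.ker, ν g = 1 → ξ (s⁻¹ * g * s) = ξ g := by
    intro g hg h
    rw [hνd, nu_mem hη hg] at h
    have h2 := hξ.mul_self hg
    have h3 := hξ.ne hg
    have : ξ g * ξ (s⁻¹ * g * s) = ξ g * ξ g := by rw [h, h2]
    exact mul_left_cancel₀ h3 this
  have hD' : ∀ g ∈ hη.ker, ν g = 1 → ∀ k ∈ U, k ∉ hη.ker → ξ (k⁻¹ * g * k) = ξ g := by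
    intro g hg h k hk hk'
    rw [cs g hg k hk hk', hD g hg h]
  have mem0 : ∀ g ∈ U, g ∉ hη.ker → ν g = 1 → g₀⁻¹ * g ∈ hη.ker ∧ ν (g₀⁻¹ * g) = 1 := by
    intro g hg hg' h
    have h1 : g₀⁻¹ ∉ hη.ker := fun h => hg₀η (by
      have := hη.ker.inv_mem h; rwa [inv_inv] at this)
    exact ⟨ker_mul hη (U.inv_mem hg₀U) h1 hg hg', by
      rw [hν.mul _ (U.inv_mem hg₀U) _ hg, hν.inv2 hg₀U, hg₀ν, h, one_mul]⟩
  let ξ' : Γ → ℂ := fun g => if g ∈ hν.ker then (if g ∈ hη.ker then ξ g else ξ (g₀⁻¹ * g)) else 0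
  have e1 : ∀ g, g ∈ hν.ker → g ∈ hη.ker → ξ' g = ξ g := by
    intro g h1 h2; simp [ξ', h1, h2]
  have e2 : ∀ g, g ∈ hν.ker → g ∉ hη.ker → ξ' g = ξ (g₀⁻¹ * g) := by
    intro g h1 h2; simp [ξ', h1, h2]
  have e3 : ∀ g, g ∉ hν.ker → ξ' g = 0 := by
    intro g h1; simp [ξ', h1]
  have hgg : g₀ * g₀ ∈ hη.ker := ker_mul hη hg₀U hg₀η hg₀U hg₀η
  have hgg1 : ξ (g₀ * g₀) = 1 := by
    have := hg₀ν
    rwa [hνd, nu_not hη hg₀U hg₀η] at this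
  refine ⟨ξ', ⟨e3, ?_, ?_, ?_, ?_⟩, fun g h1 h2 => e1 g h1 h2, ?_⟩
  · rw [e1 1 hν.ker.one_mem hη.ker.one_mem, hξ.one]
  · intro g hg k hk
    by_cases h1 : g ∈ hη.ker <;> by_cases h2 : k ∈ hη.ker
    · rw [e1 _ hg h1, e1 _ hk h2, e1 _ (hν.ker.mul_mem hg hk) (hη.ker.mul_mem h1 h2),
        hξ.mul _ h1 _ h2]
    · have h3 : g * k ∉ hη.ker := fun h => h2 (by
        have := hη.ker.mul_mem (hη.ker.inv_mem h1) h
        rwa [inv_mul_cancel_left] at this)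
      rw [e1 _ hg h1, e2 _ hk h2, e2 _ (hν.ker.mul_mem hg hk) h3]
      have e : g₀⁻¹ * (g * k) = (g₀⁻¹ * g * g₀) * (g₀⁻¹ * k) := by group
      rw [e, hξ.mul _ (ker_conj hη hg₀U h1) _ (mem0 k hk.1 h2 hk.2).1, hD' g h1 hg.2 g₀ hg₀U hg₀η]
    · have h3 : g * k ∉ hη.ker := fun h => h1 (by
        have := hη.ker.mul_mem h (hη.ker.inv_mem h2)
        rwa [mul_inv_cancel_right] at this)
      rw [e2 _ hg h1, e1 _ hk h2, e2 _ (hν.ker.mul_mem hg hk) h3, ← mul_assoc,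
        hξ.mul _ (mem0 g hg.1 h1 hg.2).1 _ h2]
    · have h3 : g * k ∈ hη.ker := ker_mul hη hg.1 h1 hk.1 h2
      rw [e2 _ hg h1, e2 _ hk h2, e1 _ (hν.ker.mul_mem hg hk) h3]
      obtain ⟨a1, a2⟩ := mem0 g hg.1 h1 hg.2
      obtain ⟨b1, b2⟩ := mem0 k hk.1 h2 hk.2
      have e : g * k = (g₀ * g₀) * (g₀⁻¹ * (g₀⁻¹ * g) * g₀) * (g₀⁻¹ * k) := by group
      rw [e, hξ.mul _ (hη.ker.mul_mem hgg (ker_conj hη hg₀U a1)) _ b1,
        hξ.mul _ hgg _ (ker_conj hη hg₀U a1), hgg1, hD' _ a1 a2 g₀ hg₀U hg₀η, one_mul]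
  · intro g hg
    by_cases h1 : g ∈ hη.ker
    · rw [e1 _ hg h1, hξ.pow _ h1]
    · rw [e2 _ hg h1, hξ.pow _ (mem0 g hg.1 h1 hg.2).1]
  · obtain ⟨W, h1, h2, h3⟩ := hξ.cont
    obtain ⟨W', h1', h2', h3'⟩ := hν.cont
    refine ⟨W ⊓ W', h1.inter h1', fun g hg => ⟨h2' hg.2, h3' g hg.2⟩, fun g hg => ?_⟩
    rw [e1 g ⟨h2' hg.2, h3' g hg.2⟩ (h2 hg.1), h3 g hg.1]
  · intro g hg
    have hx₀inv : x₀⁻¹ ∈ hη.ker := hη.ker.inv_mem hx₀
    have hcU : x₀⁻¹ * g * x₀ ∈ U := U.mul_mem (U.mul_mem (U.inv_mem hx₀.1) hg) hx₀.1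
    have hνc : ν (x₀⁻¹ * g * x₀) = ν g := hν.inv x₀ hx₀.1 g
    by_cases h1 : g ∈ hη.ker
    · have h1c : x₀⁻¹ * g * x₀ ∈ hη.ker := ker_conj hη hx₀.1 h1
      by_cases h2 : g ∈ hν.ker
      · have h2c : x₀⁻¹ * g * x₀ ∈ hν.ker := ⟨hcU, by rw [hνc, h2.2]⟩
        rw [e1 _ h2 h1, e1 _ h2c h1c, hξ.inv x₀ hx₀ g, hD g h1 h2.2]
      · have h2c : x₀⁻¹ * g * x₀ ∉ hν.ker := fun h => h2 ⟨hg, by rw [← hνc, h.2]⟩
        rw [e3 _ h2, e3 _ h2c]
        have h4 : ν g = -1 := notker hν hg h2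
        rw [hνd, nu_mem hη h1] at h4
        rcases hξ.quad h1 with h5 | h5
        · rw [h5] at h4 ⊢; rw [one_mul] at h4; rw [h4]; norm_num
        · rw [h5] at h4 ⊢
          have : ξ (s⁻¹ * g * s) = 1 := by linear_combination -h4
          rw [this]; norm_num
    · have h1c : x₀⁻¹ * g * x₀ ∉ hη.ker := by
        intro h
        apply h1
        have := hη.ker.mul_mem (hη.ker.mul_mem hx₀ h) hx₀inv
        have e : x₀ * (x₀⁻¹ * g * x₀) * x₀⁻¹ = g := by group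
        rwa [e] at this
      have h1s : s⁻¹ * g * s ∉ hη.ker := by
        intro h
        apply h1
        have := ker_conj hη (U.inv_mem hs) h
        have e : s⁻¹⁻¹ * (s⁻¹ * g * s) * s⁻¹ = g := by group
        rwa [e] at this
      rw [hξ.zero g h1, hξ.zero _ h1s]
      by_cases h2 : g ∈ hν.ker
      · have h2c : x₀⁻¹ * g * x₀ ∈ hν.ker := ⟨hcU, by rw [hνc, h2.2]⟩
        rw [e2 _ h2 h1, e2 _ h2c h1c]
        obtain ⟨a1, a2⟩ := mem0 g hg h1 h2.2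
        have e : g₀⁻¹ * (x₀⁻¹ * g * x₀) = (g₀⁻¹ * x₀⁻¹ * g₀) * (g₀⁻¹ * g) * x₀ := by group
        have h5 : g₀⁻¹ * x₀⁻¹ * g₀ ∈ hη.ker := ker_conj hη hg₀U hx₀inv
        rw [e, hξ.mul _ (hη.ker.mul_mem h5 a1) _ hx₀, hξ.mul _ h5 _ a1,
          cs _ hx₀inv g₀ hg₀U hg₀η]
        have h6 : ξ (s⁻¹ * x₀⁻¹ * s) = ξ (s⁻¹ * x₀ * s) := by
          have : s⁻¹ * x₀⁻¹ * s = (s⁻¹ * x₀ * s)⁻¹ := by group
          rw [this, hξ.inv2 (sk x₀ hx₀)]
        have h7 : ξ x₀ * ξ (s⁻¹ * x₀ * s) = -1 := by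
          have := hx
          rwa [hνd, nu_mem hη hx₀] at this
        rw [h6]
        linear_combination (-(ξ (g₀⁻¹ * g))) * h7
      · have h2c : x₀⁻¹ * g * x₀ ∉ hν.ker := fun h => h2 ⟨hg, by rw [← hνc, h.2]⟩
        rw [e3 _ h2, e3 _ h2c]

end D4b

end Pool.Agent.R493.ST
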