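import Pool.Agent.R493.ST.C

set_option autoImplicit false
set_option linter.all false

namespace Pool.Agent.R493.ST

variable {Γ : Type*} [Group Γ]

/-- conjugacy under `U` -/
def cset (U : Subgroup Γ) : Setoid Γ where
  r x y := ∃ u ∈ U, u⁻¹ * x * u = y
  iseqv := by
    refine ⟨fun x => ⟨1, U.one_mem, by simp⟩, ?_, ?_⟩
    · rintro x y ⟨u, hu, rfl⟩
      exact ⟨u⁻¹, U.inv_mem hu, by group⟩
    · rintro x y z ⟨u, hu, rfl⟩ ⟨v, hv, rfl⟩
      exact ⟨u * v, U.mul_mem hu hv, by group⟩

/-- a representative of the `U`-conjugacy class -/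
noncomputable def rep (U : Subgroup Γ) (x : Γ) : Γ := (Quotient.mk (cset U) x).out

theorem rep_spec (U : Subgroup Γ) (x : Γ) : ∃ u ∈ U, u⁻¹ * rep U x * u = x := by
  have : Quotient.mk (cset U) (rep U x) = Quotient.mk (cset U) x := Quotient.out_eq _
  exact Quotient.exact this

theorem rep_conj (U : Subgroup Γ) {u : Γ} (hu : u ∈ U) (x : Γ) : rep U (u⁻¹ * x * u) = rep U x := by
  have : Quotient.mk (cset U) x = Quotient.mk (cset U) (u⁻¹ * x * u) :=
    Quotient.sound ⟨u, hu, rfl⟩
  unfold rep
  rw [this]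

variable [TopologicalSpace Γ] [IsTopologicalGroup Γ] [CompactSpace Γ]

section
variable {N : ℕ} {X : Set Γ} {U : Subgroup Γ}

/-- base case: `Ind ξ ≡ 1 + α` -/
theorem baseT (hN : 2 ∣ N) (D : Data X) (hU : IsOpen (U : Set Γ)) {η α : Γ → ℂ}
    (hη : IsChar 2 U η) (hα : IsChar 2 U α) {s : Γ} (hs : s ∈ U) (hs1 : η s = -1)
    (hηX : ∀ x ∈ X, x ∈ U → η x = 1) :
    ∃ ξ : Γ → ℂ, IsChar 2 hη.ker ξ ∧
      P N X U (fun g => ξ g + ξ (s⁻¹ * g * s) - (1 + α g)) := by
  classical
  have hs' : s ∉ hη.ker := fun h => by have := h.2; rw [hs1] at this; norm_num at this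
  by_cases h0 : ∀ x ∈ X, x ∈ U → α x = 1
  · refine ⟨res hη.ker 1, isChar_one hη.ker_open, ?_⟩
    refine (P_sub hN D hU hη hα fun x hx hxU => by rw [hηX x hx hxU, h0 x hx hxU]).congr
      fun g hg => ?_
    rw [res_one_conj hη hs hg]
    simp only [Pi.sub_apply]; ring
  · push Not at h0
    obtain ⟨x₀, hx₀, hx₀U, hx₀α⟩ := h0
    have hx₀α : α x₀ = -1 := (hα.quad hx₀U).resolve_left hx₀α
    have hXV : ∀ x ∈ X, x ∈ U → x ∈ hη.ker := fun x hx hxU => ⟨hxU, hηX x hx hxU⟩
    let sg : Γ → ℂ := fun x =>
      if α x = 1 then 1 else (if ∃ v ∈ hη.ker, v⁻¹ * rep U x * v = x then 1 else -1)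
    obtain ⟨ξ, hξ, hξ1⟩ := D.sign hη.ker hη.ker_open sg (by
        intro x hx hxV
        simp only [sg]
        split_ifs <;> simp) (by
        intro x hx hxV u hu
        simp only [sg]
        rw [hα.inv u hu.1 x, rep_conj U hu.1]
        have : (∃ v ∈ hη.ker, v⁻¹ * rep U x * v = u⁻¹ * x * u) ↔
            (∃ v ∈ hη.ker, v⁻¹ * rep U x * v = x) := by
          constructor
          · rintro ⟨v, hv, h⟩
            refine ⟨v * u⁻¹, hη.ker.mul_mem hv (hη.ker.inv_mem hu), ?_⟩
            have : (v * u⁻¹)⁻¹ * rep U x * (v * u⁻¹) = u * (v⁻¹ * rep U x * v) * u⁻¹ := by group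
            rw [this, h]; group
          · rintro ⟨v, hv, h⟩
            refine ⟨v * u, hη.ker.mul_mem hv hu, ?_⟩
            have : (v * u)⁻¹ * rep U x * (v * u) = u⁻¹ * (v⁻¹ * rep U x * v) * u := by group
            rw [this, h]
        simp only [this])
    -- the product of the signs
    have hprod : ∀ x ∈ X, x ∈ U → ξ x * ξ (s⁻¹ * x * s) = α x := by
      intro x hx hxU
      have hxV := hXV x hx hxU
      have hsx : s⁻¹ * x * s ∈ X := D.conj x hx s
      have hsxU : s⁻¹ * x * s ∈ U := U.mul_mem (U.mul_mem (U.inv_mem hs) hxU) hs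
      have hsxV := hXV _ hsx hsxU
      rw [hξ1 x hx hxV, hξ1 _ hsx hsxV]
      simp only [sg]
      rw [hα.inv s hs x, rep_conj U hs]
      rcases hα.quad hxU with h | h
      · simp [h]
      · have hne : α x ≠ 1 := by rw [h]; norm_num
        rw [if_neg hne, if_neg hne, h]
        obtain ⟨u, hu, hux⟩ := rep_spec U x
        have hrX : rep U x ∈ X := by
          have := D.conj x hx u⁻¹
          rw [← hux] at this
          have e : u⁻¹⁻¹ * (u⁻¹ * rep U x * u) * u⁻¹ = rep U x := by group
          rwa [e] at this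
        have hrU : rep U x ∈ U := by
          have := U.mul_mem (U.mul_mem hu hxU) (U.inv_mem hu)
          rw [← hux] at this
          have e : u * (u⁻¹ * rep U x * u) * u⁻¹ = rep U x := by group
          rwa [e] at this
        have hrV := hXV _ hrX hrU
        by_cases huV : u ∈ hη.ker
        · have hA : ∃ v ∈ hη.ker, v⁻¹ * rep U x * v = x := ⟨u, huV, hux⟩
          have hB : ¬ ∃ v ∈ hη.ker, v⁻¹ * rep U x * v = s⁻¹ * x * s := by
            rintro ⟨v, hv, h2⟩
            have hc : (u * s * v⁻¹) * rep U x = rep U x * (u * s * v⁻¹) := by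
              have h3 : rep U x = v * (s⁻¹ * x * s) * v⁻¹ := by
                have : v * (v⁻¹ * rep U x * v) * v⁻¹ = rep U x := by group
                rw [h2] at this; exact this.symm
              have h4 : rep U x = u * x * u⁻¹ := by
                have : u * (u⁻¹ * rep U x * u) * u⁻¹ = rep U x := by group
                rw [hux] at this; exact this.symm
              calc (u * s * v⁻¹) * rep U x = (u * s * v⁻¹) * (v * (s⁻¹ * x * s) * v⁻¹) := by rw [← h3]
                _ = (u * x * u⁻¹) * (u * s * v⁻¹) := by group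
                _ = _ := by rw [← h4]
            have hn : u * s * v⁻¹ ∉ hη.ker := by
              intro h5
              apply hs'
              have := hη.ker.mul_mem (hη.ker.mul_mem (hη.ker.inv_mem huV) h5) hv
              have e : u⁻¹ * (u * s * v⁻¹) * v = s := by group
              rwa [e] at this
            rcases D.cen _ hrX _ hc with h5 | h5
            · exact hn (by rw [h5]; exact hη.ker.one_mem)
            · exact hn (by rw [h5]; exact hrV)
          rw [if_pos hA, if_neg hB]; norm_num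
        · have husV : u * s ∈ hη.ker := ker_mul hη hu huV hs hs'
          have hB : ∃ v ∈ hη.ker, v⁻¹ * rep U x * v = s⁻¹ * x * s :=
            ⟨u * s, husV, by
              have : (u * s)⁻¹ * rep U x * (u * s) = s⁻¹ * (u⁻¹ * rep U x * u) * s := by group
              rw [this, hux]⟩
          have hA : ¬ ∃ v ∈ hη.ker, v⁻¹ * rep U x * v = x := by
            rintro ⟨v, hv, h2⟩
            have hc : (u * v⁻¹) * rep U x = rep U x * (u * v⁻¹) := by
              have h3 : rep U x = v * x * v⁻¹ := by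
                have : v * (v⁻¹ * rep U x * v) * v⁻¹ = rep U x := by group
                rw [h2] at this; exact this.symm
              have h4 : rep U x = u * x * u⁻¹ := by
                have : u * (u⁻¹ * rep U x * u) * u⁻¹ = rep U x := by group
                rw [hux] at this; exact this.symm
              calc (u * v⁻¹) * rep U x = (u * v⁻¹) * (v * x * v⁻¹) := by rw [← h3]
                _ = (u * x * u⁻¹) * (u * v⁻¹) := by group
                _ = _ := by rw [← h4]
            have hn : u * v⁻¹ ∉ hη.ker := by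
              intro h5
              apply huV
              have := hη.ker.mul_mem h5 hv
              have e : u * v⁻¹ * v = u := by group
              rwa [e] at this
            rcases D.cen _ hrX _ hc with h5 | h5
            · exact hn (by rw [h5]; exact hη.ker.one_mem)
            · exact hn (by rw [h5]; exact hrV)
          rw [if_neg hA, if_pos hB]; norm_num
    have hx₀V := hXV x₀ hx₀ hx₀U
    have hx₀ν : nu hη (ξ := ξ) s x₀ = -1 := by
      rw [nu_mem hη hx₀V, hprod x₀ hx₀ hx₀U, hx₀α]
    obtain ⟨ξ', hξ', h1, h2⟩ := dihedral hη hξ hs hs1 x₀ hx₀V hx₀ν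
    refine ⟨ξ, hξ, ?_⟩
    set hν := nu_char hη hξ hs hs1
    have hνX : ∀ x ∈ X, x ∈ U → nu hη (ξ := ξ) s x = α x := by
      intro x hx hxU
      rw [nu_mem hη (hXV x hx hxU), hprod x hx hxU]
    have h3 : P N X hν.ker (ξ' - res hν.ker 1) := by
      refine P_sub hN D hν.ker_open hξ' (isChar_one hν.ker_open) ?_
      intro x hx hxν
      have hxV := hXV x hx hxν.1
      have : α x = 1 := by rw [← hνX x hx hxν.1]; exact hxν.2
      rw [h1 x hxν hxV, res_mem hxν, hξ1 x hx hxV]
      simp [sg, this]
    have h4 := P.ind2 hU hν hx₀U hx₀ν (f := ξ' - res hν.ker 1)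
      (fun g hg => by simp [hξ'.zero g hg, res_not hg])
      (by
        intro v hv g
        simp only [Pi.sub_apply]
        rw [hξ'.inv v hv g, inv_res (inv_one _) v hv g]) h3
    have h5 := P_sub hN D hU hν hα hνX
    refine (h4.add hU h5).congr fun g hg => ?_
    simp only [Pi.sub_apply, Pi.add_apply]
    rw [h2 g hg]
    have h6 := res_one_conj hν hx₀U hg
    linear_combination (-1 : ℂ) * h6

/-- `(ψ - 1)(1 + α) ≡ 0` for a totally even character `ψ` of `2`-power order -/
theorem twoPower (hN : 2 ∣ N) (D : Data X) (k : ℕ) :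
    ∀ {U : Subgroup Γ} (hU : IsOpen (U : Set Γ)) {ψ α : Γ → ℂ} (hψ : IsChar N U ψ)
      (hψk : ∀ g ∈ U, ψ g ^ (2 ^ k) = 1) (hψX : ∀ x ∈ X, x ∈ U → ψ x = 1) (hα : IsChar 2 U α),
      P N X U ((ψ - 1) * (1 + α)) := by
  classical
  induction k with
  | zero =>
    intro U hU ψ α hψ hψk hψX hα
    refine P.zero.congr fun g hg => ?_
    have := hψk g hg
    simp only [pow_zero, pow_one] at this
    simp [this]
  | succ k ih =>
    intro U hU ψ α hψ hψk hψX hα
    by_cases h0 : ∀ g ∈ U, ψ g ^ (2 ^ k) = 1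
    · exact ih hU hψ h0 hψX hα
    push Not at h0
    obtain ⟨s, hs, hs0⟩ := h0
    let η : Γ → ℂ := fun g => ψ g ^ (2 ^ k)
    have hη : IsChar 2 U η := by
      refine ⟨fun g hg => ?_, ?_, fun g hg h hh => ?_, fun g hg => ?_, ?_⟩
      · simp [η, hψ.zero g hg]
      · simp [η, hψ.one]
      · simp only [η, hψ.mul g hg h hh, mul_pow]
      · have := hψk g hg
        simp only [η]
        rw [← pow_mul]
        rwa [pow_succ] at this
      · obtain ⟨W, h1, h2, h3⟩ := hψ.cont
        exact ⟨W, h1, h2, fun g hg => by simp [η, h3 g hg]⟩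
    have hs1 : η s = -1 := (hη.quad hs).resolve_left hs0
    have hηX : ∀ x ∈ X, x ∈ U → η x = 1 := fun x hx hxU => by simp [η, hψX x hx hxU]
    obtain ⟨ε, hε, hε1⟩ := D.sign U hU (fun _ => -1) (fun _ _ _ => Or.inr rfl)
      (fun _ _ _ _ _ => rfl)
    obtain ⟨ξ, hξ, hξP⟩ := baseT hN D hU hη (hα.mul' hε) hs hs1 hηX
    have hVle := hη.ker_le
    have hψV := hψ.res hVle hη.ker_open
    have hεV := hε.res hVle hη.ker_open
    have h1 := ih hη.ker_open hψV (fun g hg => by rw [res_mem hg]; exact hg.2)
      (fun x hx hxV => by rw [res_mem hxV, hψX x hx hxV.1]) (hξ.mul' hεV)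
    -- the supported version
    have h2 : P N X hη.ker (res hη.ker ((ψ - 1) * (1 + ξ * ε))) := by
      refine h1.congr fun g hg => ?_
      simp only [Pi.mul_apply, Pi.sub_apply, Pi.add_apply, Pi.one_apply, res_mem hg]
    have h3 := P.ind2 hU hη hs hs1 (fun g hg => res_not hg) (inv_res (by
      intro v hv g
      simp only [Pi.mul_apply, Pi.sub_apply, Pi.add_apply, Pi.one_apply, hψ.inv v hv.1 g,
        hε.inv v hv.1 g, hξ.inv v hv g])) h2
    have h4 := (hξP.char (hε.mono hN))
    have h5 : P N X U ((ψ - 1) * (ε * (fun g => ξ g + ξ (s⁻¹ * g * s) - (1 + (α * ε) g)))) := by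
      refine ((h4.char hψ).sub hU h4).congr fun g hg => ?_
      simp only [Pi.sub_apply, Pi.mul_apply, Pi.one_apply]; ring
    have h6 : P N X U (1 + η * ε) := P_one_add hN hU (hη.mul' hε) (by
      intro x hx hxU
      simp only [Pi.mul_apply, hηX x hx hxU, hε1 x hx hxU, one_mul])
    have h7 : P N X U ((ψ - 1) * (η * (1 + η * ε))) := by
      have := h6.char (hη.mono hN)
      refine ((this.char hψ).sub hU this).congr fun g hg => ?_
      simp only [Pi.sub_apply, Pi.mul_apply, Pi.one_apply]; ring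
    refine ((h3.sub hU h5).sub hU h7).congr fun g hg => ?_
    have hc : s⁻¹ * g * s ∈ U := U.mul_mem (U.mul_mem (U.inv_mem hs) hg) hs
    have hεε := hε.mul_self hg
    have hηη := hη.mul_self hg
    simp only [Pi.sub_apply, Pi.mul_apply, Pi.add_apply, Pi.one_apply]
    by_cases hgV : g ∈ hη.ker
    · have hgV' : s⁻¹ * g * s ∈ hη.ker := ker_conj hη hs hgV
      rw [res_mem hgV, res_mem hgV']
      simp only [Pi.sub_apply, Pi.mul_apply, Pi.add_apply, Pi.one_apply]
      rw [hψ.inv s hs g, hε.inv s hs g]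
      have hη1 := hgV.2
      rw [hη1]
      linear_combination ((ψ g - 1) * α g) * hεε
    · have hgV' : s⁻¹ * g * s ∉ hη.ker := by
        intro h
        apply hgV
        have := ker_conj hη (U.inv_mem hs) h
        have e : s⁻¹⁻¹ * (s⁻¹ * g * s) * s⁻¹ = g := by group
        rwa [e] at this
      rw [res_not hgV, res_not hgV', hξ.zero g hgV, hξ.zero _ hgV', notker hη hg hgV]
      linear_combination ((ψ g - 1) * α g) * hεε

end

end Pool.Agent.R493.ST
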