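import Mathlib

set_option autoImplicit false
set_option linter.all false

namespace Pool.Agent.R493.ST

open Finset

/-- orbit representatives for a free action of `ZMod p` -/
theorem orbit_reps {p : ℕ} [NeZero p] {α : Type*} [DecidableEq α] (r : ZMod p → α → α)
    (h0 : ∀ a, r 0 a = a) (hadd : ∀ i j a, r (i + j) a = r i (r j a)) :
    ∀ (n : ℕ) (E : Finset α), E.card = n → (∀ i, ∀ a ∈ E, r i a ∈ E) →
      (∀ i, ∀ a ∈ E, r i a = a → i = 0) →
      ∃ T : Finset α, T ⊆ E ∧ ∀ F : α → ℂ, ∑ a ∈ E, F a = ∑ t ∈ T, ∑ i : ZMod p, F (r i t) := by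
  classical
  intro n
  induction n using Nat.strong_induction_on with
  | _ n ih =>
    intro E hE hcl hfree
    rcases E.eq_empty_or_nonempty with rfl | ⟨e, he⟩
    · exact ⟨∅, by simp, fun F => by simp⟩
    · let O : Finset α := Finset.univ.image (fun i => r i e)
      have hO : O ⊆ E := by
        intro a ha
        simp only [O, Finset.mem_image, Finset.mem_univ, true_and] at ha
        obtain ⟨i, rfl⟩ := ha
        exact hcl i e he
      have heO : e ∈ O := by
        simp only [O, Finset.mem_image, Finset.mem_univ, true_and]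
        exact ⟨0, h0 e⟩
      have hinj : Function.Injective (fun i : ZMod p => r i e) := by
        intro i j hij
        simp only at hij
        have h1 : r (-j + i) e = e := by
          rw [hadd, hij, ← hadd, neg_add_cancel, h0]
        have := hfree _ e he h1
        have h2 : i = j := by linear_combination this
        exact h2
      have hcard : (E \ O).card < n := by
        rw [← hE]
        exact Finset.card_lt_card (Finset.sdiff_ssubset hO ⟨e, heO⟩)
      obtain ⟨T, hT, hTF⟩ := ih _ hcard (E \ O) rfl (by
        intro i a ha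
        rw [Finset.mem_sdiff] at ha ⊢
        refine ⟨hcl i a ha.1, fun h => ha.2 ?_⟩
        simp only [O, Finset.mem_image, Finset.mem_univ, true_and] at h ⊢
        obtain ⟨j, hj⟩ := h
        exact ⟨-i + j, by rw [hadd, hj, ← hadd, neg_add_cancel, h0]⟩)
        (fun i a ha => hfree i a (Finset.mem_sdiff.mp ha).1)
      have heT : e ∉ T := fun h => (Finset.mem_sdiff.mp (hT h)).2 heO
      refine ⟨insert e T, ?_, fun F => ?_⟩
      · intro a ha
        rcases Finset.mem_insert.mp ha with rfl | ha
        · exact he
        · exact (Finset.mem_sdiff.mp (hT ha)).1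
      · rw [Finset.sum_insert heT, ← hTF F, ← Finset.sum_sdiff hO, add_comm]
        congr 1
        rw [Finset.sum_image (fun i _ j _ h => hinj h)]

variable {p : ℕ} [Fact p.Prime]

/-- functions `ZMod p → ZMod 2` -/
abbrev Vec (p : ℕ) := ZMod p → ZMod 2

theorem const_of_shift {k : ZMod p} (hk : k ≠ 0) {a : Vec p} (h : ∀ j, a (j - k) = a j) :
    ∀ j, a j = a 0 := by
  have h1 : ∀ n : ℕ, a (-(n : ZMod p) * k) = a 0 := by
    intro n
    induction n with
    | zero => simp
    | succ n ih =>
      have e : (-((n + 1 : ℕ) : ZMod p) * k) = (-(n : ZMod p) * k) - k := by push_cast; ring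
      rw [e, h, ih]
  intro j
  have h2 := h1 (-(j * k⁻¹)).val
  rw [ZMod.natCast_zmod_val] at h2
  have e : (-(-(j * k⁻¹)) * k) = j := by
    rw [neg_neg, mul_assoc, inv_mul_cancel₀ hk, mul_one]
  rwa [e] at h2

theorem two_add (c : ZMod 2) : c + c = 0 := by
  have : (2 : ZMod 2) = 0 := by decide
  linear_combination c * this

theorem odd_mul (hp : p ≠ 2) (c : ZMod 2) : ∑ _j : ZMod p, c = c := by
  rw [Finset.sum_const, Finset.card_univ, ZMod.card, nsmul_eq_mul]
  have h1 : (p : ZMod 2) = 1 := by
    have : p % 2 = 1 := Nat.odd_iff.mp ((Fact.out : p.Prime).odd_of_ne_two hp)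
    have h2 : ((p % 2 : ℕ) : ZMod 2) = (p : ZMod 2) := ZMod.natCast_mod p 2
    rw [← h2, this]; rfl
  rw [h1, one_mul]

theorem sum_shift (a : Vec p) (k : ZMod p) : ∑ j, a (j - k) = ∑ j, a j :=
  Fintype.sum_equiv (Equiv.subRight k) _ _ (fun _ => rfl)

theorem const_zero (hp : p ≠ 2) {k : ZMod p} {a : Vec p} {c : ZMod 2}
    (h : ∀ j, a j + a (j - k) = c) : c = 0 := by
  have h1 : ∑ j, (a j + a (j - k)) = ∑ _j : ZMod p, c := Finset.sum_congr rfl fun j _ => h j
  rw [odd_mul hp, Finset.sum_add_distrib, sum_shift, two_add] at h1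
  exact h1.symm

/-- unique solvability -/
theorem solve (hp : p ≠ 2) {k : ZMod p} (hk : k ≠ 0) (v : Vec p) :
    ∃! a : Vec p, a 0 = 0 ∧ ∃ c, ∀ j, a j + a (j - k) + v j = c := by
  classical
  let A : AddSubgroup (Vec p) :=
    { carrier := {a | a 0 = 0}
      zero_mem' := rfl
      add_mem' := by
        intro a b ha hb
        simp only [Set.mem_setOf_eq] at ha hb ⊢
        simp [ha, hb]
      neg_mem' := by
        intro a ha
        simp only [Set.mem_setOf_eq] at ha ⊢
        simp [ha] }
  let L : A → A := fun a => ⟨fun j => a.1 j + a.1 (j - k) + a.1 (0 - k), by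
    show a.1 0 + a.1 (0 - k) + a.1 (0 - k) = 0
    have : a.1 0 = 0 := a.2
    rw [this, zero_add, two_add]⟩
  have hL : Function.Injective L := by
    intro a b hab
    have h1 : ∀ j, a.1 j + a.1 (j - k) + a.1 (0 - k) = b.1 j + b.1 (j - k) + b.1 (0 - k) :=
      fun j => congrFun (congrArg Subtype.val hab) j
    let d : Vec p := fun j => a.1 j + b.1 j
    have h2 : ∀ j, d j + d (j - k) = a.1 (0 - k) + b.1 (0 - k) := by
      intro j
      simp only [d]
      have h3 := h1 j
      have e1 := two_add (b.1 j)
      have e2 := two_add (b.1 (j - k))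
      have e3 := two_add (b.1 (0 - k))
      have e4 := two_add (a.1 (0 - k))
      linear_combination h3 + e1 + e2 - e4
    have h3 := const_zero hp h2
    have h4 : ∀ j, d (j - k) = d j := by
      intro j
      have h5 := h2 j
      rw [h3] at h5
      have e1 := two_add (d j)
      linear_combination h5 - e1
    have h5 := const_of_shift hk h4
    have h6 : d 0 = 0 := by
      simp only [d]
      have ha : a.1 0 = 0 := a.2
      have hb : b.1 0 = 0 := b.2
      rw [ha, hb, add_zero]
    apply Subtype.ext
    funext j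
    have h7 : a.1 j + b.1 j = 0 := by
      have := h5 j; rw [h6] at this; exact this
    have e1 := two_add (b.1 j)
    linear_combination h7 - e1
  haveI : Finite A := Finite.of_injective (fun a : A => a.1) Subtype.val_injective
  have hS : Function.Surjective L := Finite.surjective_of_injective hL
  obtain ⟨a, ha⟩ := hS ⟨fun j => v j + v 0, by show v 0 + v 0 = 0; exact two_add _⟩
  have h1 : ∀ j, a.1 j + a.1 (j - k) + a.1 (0 - k) = v j + v 0 :=
    fun j => congrFun (congrArg Subtype.val ha) j
  refine ⟨a.1, ⟨a.2, a.1 (0 - k) + v 0, fun j => ?_⟩, ?_⟩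
  · have h2 := h1 j
    have e1 := two_add (v j)
    have e2 := two_add (a.1 (0 - k))
    linear_combination h2 + e1 - e2
  · rintro b ⟨hb, c, hc⟩
    have : L ⟨b, hb⟩ = L a := by
      rw [ha]
      apply Subtype.ext
      funext j
      show b j + b (j - k) + b (0 - k) = v j + v 0
      have h2 := hc j
      have h3 := hc 0
      rw [hb] at h3
      have e1 := two_add (v j)
      have e2 := two_add (v 0)
      have e3 := two_add (b (0 - k))
      linear_combination h2 - h3 - e1 + e3
    exact congrArg Subtype.val (hL this)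

/-- signs -/
noncomputable def sgn (c : ZMod 2) : ℂ := if c = 0 then 1 else -1

theorem sgn_zero : sgn 0 = 1 := by simp [sgn]

theorem zm2 : ∀ a : ZMod 2, a = 0 ∨ a = 1 := by decide

theorem sgn_one : sgn 1 = -1 := by
  have : (1 : ZMod 2) ≠ 0 := by decide
  rw [sgn, if_neg this]

theorem sgn_add (a b : ZMod 2) : sgn (a + b) = sgn a * sgn b := by
  have h : (1 : ZMod 2) + 1 = 0 := by decide
  rcases zm2 a with rfl | rfl <;> rcases zm2 b with rfl | rfl
  · rw [add_zero, sgn_zero]; norm_num
  · rw [zero_add, sgn_zero]; norm_num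
  · rw [add_zero, sgn_zero]; norm_num
  · rw [h, sgn_zero, sgn_one]; norm_num

theorem sgn_ne (a : ZMod 2) : sgn a ≠ 0 := by
  rcases zm2 a with rfl | rfl
  · rw [sgn_zero]; norm_num
  · rw [sgn_one]; norm_num

open Classical in
/-- even vectors -/
noncomputable def Ev (p : ℕ) [Fact p.Prime] : Finset (Vec p) :=
  Finset.univ.filter fun S => ∑ j, S j = 0

open Classical in
/-- vectors vanishing at `0` -/
noncomputable def Az (p : ℕ) [Fact p.Prime] : Finset (Vec p) :=
  Finset.univ.filter fun S => S 0 = 0

theorem card_eq (hp : p ≠ 2) : (Az p).card = (Ev p).card := by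
  classical
  refine Finset.card_bij' (fun a _ => fun j => a j + ∑ i, a i) (fun S _ => fun j => S j + S 0)
    ?_ ?_ ?_ ?_
  · intro a ha
    simp only [Az, Ev, Finset.mem_filter, Finset.mem_univ, true_and] at ha ⊢
    rw [Finset.sum_add_distrib, odd_mul hp, two_add]
  · intro S hS
    simp only [Az, Ev, Finset.mem_filter, Finset.mem_univ, true_and] at hS ⊢
    exact two_add _
  · intro a ha
    simp only [Az, Finset.mem_filter, Finset.mem_univ, true_and] at ha
    funext j
    show a j + ∑ i, a i + (a 0 + ∑ i, a i) = a j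
    rw [ha]
    have := two_add (∑ i, a i)
    linear_combination this
  · intro S hS
    simp only [Ev, Finset.mem_filter, Finset.mem_univ, true_and] at hS
    funext j
    show S j + S 0 + ∑ i, (S i + S 0) = S j
    rw [Finset.sum_add_distrib, odd_mul hp, hS]
    have := two_add (S 0)
    linear_combination this

open Classical in
/-- orthogonality -/
theorem ortho (hp : p ≠ 2) (w : Vec p) :
    ∑ S ∈ Ev p, sgn (∑ j, S j * w j) = if (∀ j, w j = w 0) then ((Az p).card : ℂ) else 0 := by
  split_ifs with h
  · rw [card_eq hp]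
    have : ∀ S ∈ Ev p, sgn (∑ j, S j * w j) = 1 := by
      intro S hS
      simp only [Ev, Finset.mem_filter, Finset.mem_univ, true_and] at hS
      have e : ∑ j, S j * w j = 0 := by
        rw [Finset.sum_congr rfl (fun j _ => by rw [h j]), ← Finset.sum_mul, hS, zero_mul]
      rw [e, sgn_zero]
    rw [Finset.sum_congr rfl this]; simp
  · push Not at h
    obtain ⟨i, hi⟩ := h
    have hi0 : i ≠ 0 := by rintro rfl; exact hi rfl
    let d : Vec p := fun j => (if j = i then 1 else 0) + (if j = 0 then 1 else 0)
    have hdw : ∑ j, d j * w j = w i + w 0 := by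
      simp only [d, add_mul, ite_mul, one_mul, zero_mul, Finset.sum_add_distrib,
        Finset.sum_ite_eq', Finset.mem_univ, if_true]
    have hdw1 : w i + w 0 = 1 := by
      have h1 : ∀ a b : ZMod 2, a ≠ b → a + b = 1 := by decide
      exact h1 _ _ hi
    have hd : ∑ j, d j = 0 := by
      simp only [d, Finset.sum_add_distrib, Finset.sum_ite_eq', Finset.mem_univ, if_true]
      decide
    have hmem : ∀ S, S + d ∈ Ev p ↔ S ∈ Ev p := by
      intro S
      simp only [Ev, Finset.mem_filter, Finset.mem_univ, true_and, Pi.add_apply,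
        Finset.sum_add_distrib, hd, add_zero]
    have hdd : ∀ S : Vec p, S + d + d = S := by
      intro S; funext j
      simp only [Pi.add_apply]
      have := two_add (d j)
      linear_combination this
    have h1 : ∑ S ∈ Ev p, sgn (∑ j, S j * w j) = ∑ S ∈ Ev p, sgn (∑ j, (S + d) j * w j) := by
      refine Finset.sum_nbij' (fun S => S + d) (fun S => S + d) ?_ ?_ ?_ ?_ ?_
      · intro S hS; exact (hmem S).mpr hS
      · intro S hS; exact (hmem S).mpr hS
      · intro S _; exact hdd S
      · intro S _; exact hdd S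
      · intro S _
        simp only [hdd]
    have h2 : ∀ S : Vec p, sgn (∑ j, (S + d) j * w j) = - sgn (∑ j, S j * w j) := by
      intro S
      simp only [Pi.add_apply, add_mul, Finset.sum_add_distrib]
      rw [sgn_add, hdw, hdw1, sgn_one]; ring
    have h3 : ∑ S ∈ Ev p, sgn (∑ j, S j * w j) = - ∑ S ∈ Ev p, sgn (∑ j, S j * w j) := by
      conv_lhs => rw [h1]
      rw [Finset.sum_congr rfl (fun S _ => h2 S), Finset.sum_neg_distrib]
    exact self_eq_neg.mp h3

/-- rotation -/
def rot (k : ZMod p) (S : Vec p) : Vec p := fun j => S (j - k)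

open Classical in
theorem even_reps (hp : p ≠ 2) : ∃ T : Finset (Vec p), ∀ F : Vec p → ℂ,
    ∑ S ∈ Ev p, F S = F 0 + ∑ S ∈ T, ∑ k : ZMod p, F (rot k S) := by
  haveI : NeZero p := ⟨(Fact.out : p.Prime).ne_zero⟩
  have h0 : (0 : Vec p) ∈ Ev p := by simp [Ev]
  obtain ⟨T, -, hT⟩ := orbit_reps (p := p) (α := Vec p) rot
    (fun a => by funext j; simp [rot]) (fun i j a => by
      funext k; simp only [rot]; congr 1; ring) _ ((Ev p).erase 0) rfl (by
      intro i a ha
      rw [Finset.mem_erase] at ha ⊢
      constructor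
      · intro h
        apply ha.1
        funext j
        have := congrFun h (j + i)
        simpa [rot] using this
      · have h1 := ha.2
        simp only [Ev, Finset.mem_filter, Finset.mem_univ, true_and, rot] at h1 ⊢
        rw [sum_shift, h1]) (by
      intro i a ha hi
      rw [Finset.mem_erase] at ha
      by_contra hne
      apply ha.1
      have h1 := const_of_shift hne (a := a) (fun j => congrFun hi j)
      have h2 := ha.2
      simp only [Ev, Finset.mem_filter, Finset.mem_univ, true_and] at h2
      rw [Finset.sum_congr rfl (fun j _ => h1 j), odd_mul hp] at h2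
      funext j
      rw [h1 j, h2]; rfl)
  refine ⟨T, fun F => ?_⟩
  rw [← hT F, ← Finset.add_sum_erase _ _ h0]

end Pool.Agent.R493.ST
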