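import Pool.Agent.R493.ST.D
import Pool.Agent.R493.ST.E0

set_option autoImplicit false
set_option linter.all false

namespace Pool.Agent.R493.ST

open Finset

variable {Γ : Type*} [Group Γ]

/-- `d` is a surjective homomorphism from `U` onto `ZMod p` with kernel `V` -/
structure Deg (p : ℕ) (U V : Subgroup Γ) (d : Γ → ZMod p) (s : Γ) : Prop where
  le : V ≤ U
  mul : ∀ g ∈ U, ∀ h ∈ U, d (g * h) = d g + d h
  mem : ∀ g ∈ U, (g ∈ V ↔ d g = 0)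
  sU : s ∈ U
  ds : d s = 1

/-- powers of `s` indexed by `ZMod p` -/
def pw {p : ℕ} (s : Γ) (j : ZMod p) : Γ := s ^ j.val

theorem sgn_inj {a b : ZMod 2} (h : sgn a = sgn b) : a = b := by
  rcases zm2 a with rfl | rfl <;> rcases zm2 b with rfl | rfl
  · rfl
  · rw [sgn_zero, sgn_one] at h; norm_num at h
  · rw [sgn_zero, sgn_one] at h; norm_num at h
  · rfl

open Classical in
/-- the vector of signs -/
noncomputable def vec {p : ℕ} (s : Γ) (ξ : Γ → ℂ) (g : Γ) : Vec p :=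
  fun j => if ξ ((pw s j)⁻¹ * g * pw s j) = 1 then 0 else 1

namespace Deg

variable {p : ℕ} {U V : Subgroup Γ} {d : Γ → ZMod p} {s : Γ} (G : Deg p U V d s)
include G

theorem one : d 1 = 0 := (G.mem 1 U.one_mem).mp V.one_mem

theorem inv {g : Γ} (hg : g ∈ U) : d g⁻¹ = - d g := by
  have := G.mul g hg g⁻¹ (U.inv_mem hg)
  rw [mul_inv_cancel, G.one] at this
  linear_combination -this

theorem conj {g u : Γ} (hg : g ∈ U) (hu : u ∈ U) : d (u⁻¹ * g * u) = d g := by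
  rw [G.mul _ (U.mul_mem (U.inv_mem hu) hg) _ hu, G.mul _ (U.inv_mem hu) _ hg, G.inv hu]; ring

theorem Vconj {g u : Γ} (hg : g ∈ V) (hu : u ∈ U) : u⁻¹ * g * u ∈ V := by
  rw [G.mem _ (U.mul_mem (U.mul_mem (U.inv_mem hu) (G.le hg)) hu), G.conj (G.le hg) hu,
    ← G.mem _ (G.le hg)]
  exact hg

theorem Vconj' {g u : Γ} (hg : u⁻¹ * g * u ∈ V) (hu : u ∈ U) : g ∈ V := by
  have := G.Vconj hg (U.inv_mem hu)
  have e : u⁻¹⁻¹ * (u⁻¹ * g * u) * u⁻¹ = g := by group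
  rwa [e] at this

theorem quot {u v : Γ} (hu : u ∈ U) (hv : v ∈ U) (h : d u = d v) : u⁻¹ * v ∈ V := by
  rw [G.mem _ (U.mul_mem (U.inv_mem hu) hv), G.mul _ (U.inv_mem hu) _ hv, G.inv hu, h]; ring

theorem spow (n : ℕ) : d (s ^ n) = n := by
  induction n with
  | zero => simpa using G.one
  | succ n ih => rw [pow_succ, G.mul _ (U.pow_mem G.sU n) _ G.sU, ih, G.ds]; push_cast; ring

theorem pwU (j : ZMod p) : pw s j ∈ U := U.pow_mem G.sU _

theorem dpw [NeZero p] (j : ZMod p) : d (pw s j) = j := by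
  rw [pw, G.spow, ZMod.natCast_zmod_val]

theorem xi_deg {ξ : Γ → ℂ} (hξ : Inv V ξ) {u u' : Γ} (hu : u ∈ U) (hu' : u' ∈ U)
    (h : d u = d u') (g : Γ) : ξ (u⁻¹ * g * u) = ξ (u'⁻¹ * g * u') := by
  have h1 := hξ _ (G.quot hu' hu h.symm) (u'⁻¹ * g * u')
  rw [← h1]; congr 1; group

theorem vec_conj [NeZero p] {ξ : Γ → ℂ} (hξ : Inv V ξ) {u : Γ} (hu : u ∈ U) (g : Γ) (j : ZMod p) :
    vec s ξ (u⁻¹ * g * u) j = vec s ξ g (d u + j) := by
  unfold vec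
  have h1 : (pw s j)⁻¹ * (u⁻¹ * g * u) * pw s j = (u * pw s j)⁻¹ * g * (u * pw s j) := by group
  have h2 := G.xi_deg hξ (u := u * pw s j) (u' := pw s (d u + j)) (U.mul_mem hu (G.pwU j))
    (G.pwU _) (by rw [G.mul _ hu _ (G.pwU j), G.dpw, G.dpw]) g
  simp only [h1, h2]

end Deg

open Classical in
/-- the quadratic characters of `V` attached to vectors -/
noncomputable def chi {p : ℕ} [NeZero p] (V : Subgroup Γ) (s : Γ) (ξ : Γ → ℂ) (S : Vec p) :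
    Γ → ℂ :=
  fun g => if g ∈ V then sgn (∑ j, S j * vec s ξ g j) else 0

variable [TopologicalSpace Γ]

section
variable {p : ℕ} {U V : Subgroup Γ} {d : Γ → ZMod p} {s : Γ} (G : Deg p U V d s)
  {ξ : Γ → ℂ} (hξ : IsChar 2 V ξ)
include G hξ

theorem sgn_vec {g : Γ} (hg : g ∈ V) (j : ZMod p) :
    sgn (vec s ξ g j) = ξ ((pw s j)⁻¹ * g * pw s j) := by
  unfold vec
  rcases hξ.quad (G.Vconj hg (G.pwU j)) with h | h
  · rw [if_pos h, sgn_zero, h]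
  · rw [if_neg (by rw [h]; norm_num), sgn_one, h]

theorem vec_mul {g h : Γ} (hg : g ∈ V) (hh : h ∈ V) (j : ZMod p) :
    vec s ξ (g * h) j = vec s ξ g j + vec s ξ h j := by
  apply sgn_inj
  rw [sgn_add, sgn_vec G hξ hg, sgn_vec G hξ hh, sgn_vec G hξ (V.mul_mem hg hh)]
  have e : (pw s j)⁻¹ * (g * h) * pw s j =
      ((pw s j)⁻¹ * g * pw s j) * ((pw s j)⁻¹ * h * pw s j) := by group
  rw [e, hξ.mul _ (G.Vconj hg (G.pwU j)) _ (G.Vconj hh (G.pwU j))]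

theorem vec_one (j : ZMod p) : vec s ξ 1 j = 0 := by
  apply sgn_inj
  rw [sgn_vec G hξ V.one_mem, sgn_zero]
  simp [hξ.one]

theorem vec_inv {g : Γ} (hg : g ∈ V) (j : ZMod p) : vec s ξ g⁻¹ j = vec s ξ g j := by
  have h1 := vec_mul G hξ hg (V.inv_mem hg) j
  rw [mul_inv_cancel, vec_one G hξ] at h1
  have := two_add (vec s ξ g j)
  linear_combination -h1 - this

theorem vec_self {g : Γ} (hg : g ∈ V) (h : ∀ j : ZMod p, (pw s j)⁻¹ * g * pw s j = g) (j : ZMod p) :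
    vec s ξ g j = vec s ξ g (0 : ZMod p) := by
  apply sgn_inj
  rw [sgn_vec G hξ hg, sgn_vec G hξ hg, h j, h 0]

/-- elements with constant sign vector -/
def V0 : Subgroup Γ where
  carrier := {g | g ∈ V ∧ ∀ j : ZMod p, vec s ξ g j = vec s ξ g (0 : ZMod p)}
  one_mem' := ⟨V.one_mem, fun j => by rw [vec_one G hξ, vec_one G hξ]⟩
  mul_mem' := by
    rintro a b ⟨ha, ha'⟩ ⟨hb, hb'⟩
    exact ⟨V.mul_mem ha hb, fun j => by
      rw [vec_mul G hξ ha hb, vec_mul G hξ ha hb, ha' j, hb' j]⟩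
  inv_mem' := by
    rintro a ⟨ha, ha'⟩
    exact ⟨V.inv_mem ha, fun j => by rw [vec_inv G hξ ha, vec_inv G hξ ha, ha' j]⟩

theorem mem_V0 {g : Γ} : g ∈ V0 G hξ ↔ g ∈ V ∧ ∀ j : ZMod p, vec s ξ g j = vec s ξ g (0 : ZMod p) := Iff.rfl

theorem V0_conj [NeZero p] {g u : Γ} (hg : g ∈ V0 G hξ) (hu : u ∈ U) : u⁻¹ * g * u ∈ V0 G hξ := by
  refine ⟨G.Vconj hg.1 hu, fun j => ?_⟩
  rw [G.vec_conj hξ.inv hu, G.vec_conj hξ.inv hu, hg.2, hg.2 (d u + 0)]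

theorem V0_conj' [NeZero p] {g u : Γ} (hg : u⁻¹ * g * u ∈ V0 G hξ) (hu : u ∈ U) :
    g ∈ V0 G hξ := by
  have := V0_conj G hξ hg (U.inv_mem hu)
  have e : u⁻¹⁻¹ * (u⁻¹ * g * u) * u⁻¹ = g := by group
  rwa [e] at this

theorem zpow_V0 {k : ℤ} (hk : s ^ k ∈ V) : s ^ k ∈ V0 G hξ := by
  refine ⟨hk, fun j => vec_self G hξ hk (fun j => ?_) j⟩
  rw [pw]; group

/-- the subgroup generated by `s` and `V0` -/
def HH [NeZero p] : Subgroup Γ where
  carrier := {g | g ∈ U ∧ ∃ k : ℤ, s ^ (-k) * g ∈ V0 G hξ}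
  one_mem' := ⟨U.one_mem, 0, by simpa using (V0 G hξ).one_mem⟩
  mul_mem' := by
    rintro a b ⟨ha, k, hk⟩ ⟨hb, l, hl⟩
    refine ⟨U.mul_mem ha hb, k + l, ?_⟩
    have h1 := V0_conj G hξ hk (U.zpow_mem G.sU l)
    have h2 := (V0 G hξ).mul_mem h1 hl
    have e : (s ^ l)⁻¹ * (s ^ (-k) * a) * s ^ l * (s ^ (-l) * b) = s ^ (-(k + l)) * (a * b) := by
      group
    rwa [e] at h2
  inv_mem' := by
    rintro a ⟨ha, k, hk⟩
    refine ⟨U.inv_mem ha, -k, ?_⟩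
    have h1 := V0_conj G hξ ((V0 G hξ).inv_mem hk) (U.zpow_mem G.sU (-k))
    have e : (s ^ (-k))⁻¹ * (s ^ (-k) * a)⁻¹ * s ^ (-k) = s ^ (-(-k)) * a⁻¹ := by group
    rwa [e] at h1

theorem mem_HH [NeZero p] {g : Γ} : g ∈ HH G hξ ↔ g ∈ U ∧ ∃ k : ℤ, s ^ (-k) * g ∈ V0 G hξ := Iff.rfl

theorem HH_V [NeZero p] {g : Γ} (hg : g ∈ V) : g ∈ HH G hξ ↔ g ∈ V0 G hξ := by
  constructor
  · rintro ⟨hU, k, hk⟩
    have h1 : s ^ k ∈ V := by
      have := V.mul_mem hg (V.inv_mem hk.1)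
      have e : g * (s ^ (-k) * g)⁻¹ = s ^ k := by group
      rwa [e] at this
    have h2 := (V0 G hξ).mul_mem (zpow_V0 G hξ h1) hk
    have e : s ^ k * (s ^ (-k) * g) = g := by group
    rwa [e] at h2
  · intro h
    exact ⟨G.le hg, 0, by simpa using h⟩

theorem s_HH [NeZero p] : s ∈ HH G hξ :=
  ⟨G.sU, 1, by
    have : s ^ (-1 : ℤ) * s = 1 := by group
    rw [this]; exact (V0 G hξ).one_mem⟩

theorem pw_HH [NeZero p] (j : ZMod p) : pw s j ∈ HH G hξ := (HH G hξ).pow_mem (s_HH G hξ) _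

/-- the open subgroup on which all signs are trivial -/
theorem vec_open [IsTopologicalGroup Γ] [NeZero p] :
    ∃ W : Subgroup Γ, IsOpen (W : Set Γ) ∧ W ≤ V ∧ ∀ g ∈ W, ∀ j : ZMod p, vec s ξ g j = 0 := by
  let W : Subgroup Γ := ⨅ j : ZMod p, hξ.ker.comap (MulAut.conj (pw s j)⁻¹).toMonoidHom
  have hW : ∀ g, g ∈ W ↔ ∀ j : ZMod p, (pw s j)⁻¹ * g * pw s j ∈ hξ.ker := by
    intro g
    simp [W, Subgroup.mem_iInf]
  refine ⟨W, ?_, ?_, ?_⟩
  · have : (W : Set Γ) = ⋂ j : ZMod p, (fun g => (pw s j)⁻¹ * g * pw s j) ⁻¹' (hξ.ker : Set Γ) := by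
      ext g
      simp only [SetLike.mem_coe, hW, Set.mem_iInter, Set.mem_preimage]
    rw [this]
    refine isOpen_iInter_of_finite fun j => hξ.ker_open.preimage ?_
    fun_prop
  · intro g hg
    exact G.Vconj' ((hW g).mp hg 0).1 (G.pwU 0)
  · intro g hg j
    have h1 := (hW g).mp hg j
    have hgV : g ∈ V := G.Vconj' h1.1 (G.pwU j)
    apply sgn_inj
    rw [sgn_vec G hξ hgV, sgn_zero, h1.2]

theorem chi_char [IsTopologicalGroup Γ] [NeZero p] (S : Vec p) : IsChar 2 V (chi V s ξ S) := by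
  refine ⟨fun g hg => by simp [chi, hg], ?_, ?_, ?_, ?_⟩
  · rw [chi, if_pos V.one_mem]
    simp only [vec_one G hξ, mul_zero, Finset.sum_const_zero, sgn_zero]
  · intro g hg h hh
    rw [chi, chi, chi, if_pos hg, if_pos hh, if_pos (V.mul_mem hg hh), ← sgn_add,
      ← Finset.sum_add_distrib]
    congr 1
    refine Finset.sum_congr rfl fun j _ => ?_
    rw [vec_mul G hξ hg hh]; ring
  · intro g hg
    rw [chi, if_pos hg, sq, ← sgn_add, two_add, sgn_zero]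
  · obtain ⟨W, h1, h2, h3⟩ := vec_open G hξ
    refine ⟨W, h1, h2, fun g hg => ?_⟩
    rw [chi, if_pos (h2 hg)]
    simp only [h3 g hg, mul_zero, Finset.sum_const_zero, sgn_zero]

end

end Pool.Agent.R493.ST
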