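import Pool.Agent.R493.ST.E

set_option autoImplicit false
set_option linter.all false

namespace Pool.Agent.R493.ST

open Finset

variable {Γ : Type*} [Group Γ] [TopologicalSpace Γ]

section
variable {p : ℕ} {U V : Subgroup Γ} {d : Γ → ZMod p} {s : Γ} (G : Deg p U V d s)
  {ξ : Γ → ℂ} (hξ : IsChar 2 V ξ)
include G hξ

theorem vec_surj [NeZero p] {x : Γ} (hx : x ∈ V)
    (hx1 : ∀ j : ZMod p, vec s ξ x j = if j = 0 then 1 else 0) (a : Vec p) :
    ∃ t ∈ V, vec s ξ t = a := by
  classical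
  have key : ∀ J : Finset (ZMod p), ∃ t ∈ V, ∀ j : ZMod p, vec s ξ t j = if j ∈ J then 1 else 0 := by
    intro J
    induction J using Finset.induction_on with
    | empty => exact ⟨1, V.one_mem, fun j => by simp [vec_one G hξ]⟩
    | insert i J hi ih =>
      obtain ⟨t, ht, ht1⟩ := ih
      have h1 : (pw s (-i))⁻¹ * x * pw s (-i) ∈ V := G.Vconj hx (G.pwU _)
      refine ⟨t * ((pw s (-i))⁻¹ * x * pw s (-i)), V.mul_mem ht h1, fun j => ?_⟩
      rw [vec_mul G hξ ht h1, ht1 j, G.vec_conj hξ.inv (G.pwU _), G.dpw, hx1]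
      by_cases hj : j = i
      · subst hj
        simp [hi]
      · have h2 : -i + j ≠ 0 := fun h => hj (by linear_combination h)
        rw [if_neg h2, add_zero]
        simp [Finset.mem_insert, hj]
  obtain ⟨t, ht, ht1⟩ := key (Finset.univ.filter fun j => a j = 1)
  refine ⟨t, ht, funext fun j => ?_⟩
  rw [ht1 j]
  simp only [Finset.mem_filter, Finset.mem_univ, true_and]
  rcases zm2 (a j) with h | h
  · rw [h]; simp
  · rw [h]; simp

theorem V0_quot {t v : Γ} (ht : t ∈ V) (hv : v ∈ V) :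
    t⁻¹ * v ∈ V0 G hξ ↔ ∀ j : ZMod p,
      vec s ξ t j + vec s ξ v j = vec s ξ t (0 : ZMod p) + vec s ξ v (0 : ZMod p) := by
  rw [mem_V0]
  constructor
  · rintro ⟨-, h⟩ j
    have := h j
    rwa [vec_mul G hξ (V.inv_mem ht) hv, vec_mul G hξ (V.inv_mem ht) hv, vec_inv G hξ ht,
      vec_inv G hξ ht] at this
  · intro h
    refine ⟨V.mul_mem (V.inv_mem ht) hv, fun j => ?_⟩
    rw [vec_mul G hξ (V.inv_mem ht) hv, vec_mul G hξ (V.inv_mem ht) hv, vec_inv G hξ ht,
      vec_inv G hξ ht]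
    exact h j

theorem HH_open [IsTopologicalGroup Γ] [NeZero p] : IsOpen (HH G hξ : Set Γ) := by
  obtain ⟨W, h1, h2, h3⟩ := vec_open G hξ
  refine Subgroup.isOpen_mono (H₁ := W) (fun g hg => ?_) h1
  rw [HH_V G hξ (h2 hg)]
  exact ⟨h2 hg, fun j => by rw [h3 g hg, h3 g hg]⟩

theorem kappa [IsTopologicalGroup Γ] [CompactSpace Γ] [Fact p.Prime] [NeZero p] (hp : p ≠ 2) {N : ℕ}
    {X : Set Γ} (hU : IsOpen (U : Set Γ)) (hHX : ∀ x ∈ X, x ∉ HH G hξ)
    (hsurj : ∀ a : Vec p, ∃ t ∈ V, vec s ξ t = a) :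
    ∃ κ : Γ → ℂ, P N X U κ ∧ (∀ g ∈ V, κ g = ∑ S ∈ Ev p, sgn (∑ j, S j * vec s ξ g j)) ∧
      ∀ g ∈ U, g ∉ V → κ g = 1 := by
  classical
  choose τ hτV hτ using hsurj
  have hτi : Function.Injective τ := fun a b h => by rw [← hτ a, ← hτ b, h]
  let T : Finset Γ := (Az p).image τ
  have hT : ∀ t ∈ T, t ∈ V := by
    intro t ht
    obtain ⟨a, -, rfl⟩ := Finset.mem_image.mp ht
    exact hτV a
  have hle : HH G hξ ≤ U := fun g hg => hg.1
  have hmem : ∀ a : Vec p, a ∈ Az p ↔ a 0 = 0 := by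
    intro a; simp [Az]
  have h1 : P N X (HH G hξ) (res (HH G hξ) 1) :=
    P.cpx (HH_open G hξ) hHX (isChar_one (HH_open G hξ))
  have h2 := h1.ind hU (HH_open G hξ) hle T (fun t ht => G.le (hT t ht)) (by
    intro u hu
    let v := u * (pw s (d u))⁻¹
    have hv : v ∈ V := by
      rw [G.mem _ (U.mul_mem hu (U.inv_mem (G.pwU _))), G.mul _ hu _ (U.inv_mem (G.pwU _)),
        G.inv (G.pwU _), G.dpw]
      ring
    have hvH : ∀ t ∈ V, (t⁻¹ * u ∈ HH G hξ ↔ ∀ j : ZMod p,
        vec s ξ t j + vec s ξ v j = vec s ξ t (0 : ZMod p) + vec s ξ v (0 : ZMod p)) := by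
      intro t ht
      rw [← V0_quot G hξ ht hv, ← HH_V G hξ (V.mul_mem (V.inv_mem ht) hv)]
      constructor
      · intro h
        have := (HH G hξ).mul_mem h ((HH G hξ).inv_mem (pw_HH G hξ (d u)))
        have e : t⁻¹ * u * (pw s (d u))⁻¹ = t⁻¹ * v := by simp only [v]; group
        rwa [e] at this
      · intro h
        have := (HH G hξ).mul_mem h (pw_HH G hξ (d u))
        have e : t⁻¹ * v * pw s (d u) = t⁻¹ * u := by simp only [v]; group
        rwa [e] at this
    let a : Vec p := fun j => vec s ξ v j + vec s ξ v (0 : ZMod p)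
    have ha : a ∈ Az p := (hmem a).mpr (two_add _)
    refine ⟨τ a, ⟨Finset.mem_image_of_mem τ ha, ?_⟩, ?_⟩
    · rw [hvH _ (hτV a), hτ a]
      intro j
      simp only [a]
      have e1 := two_add (vec s ξ v j)
      have e2 := two_add (vec s ξ v (0 : ZMod p))
      linear_combination e1 - e2
    · rintro t ⟨ht, htu⟩
      obtain ⟨b, hb, rfl⟩ := Finset.mem_image.mp ht
      rw [hvH _ (hτV b), hτ b] at htu
      congr 1
      funext j
      have h3 := htu j
      rw [(hmem b).mp hb] at h3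
      simp only [a]
      have e1 := two_add (vec s ξ v j)
      linear_combination h3 - e1) (fun g hg => res_not hg) (inv_res (inv_one _))
  refine ⟨_, h2, ?_, ?_⟩
  · intro g hg
    have h3 : ∀ t ∈ T, res (HH G hξ) 1 (t⁻¹ * g * t) =
        if (∀ j : ZMod p, vec s ξ g j = vec s ξ g (0 : ZMod p)) then (1 : ℂ) else 0 := by
      intro t ht
      have htU := G.le (hT t ht)
      by_cases h : ∀ j : ZMod p, vec s ξ g j = vec s ξ g (0 : ZMod p)
      · rw [if_pos h]
        have : t⁻¹ * g * t ∈ HH G hξ :=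
          (HH_V G hξ (G.Vconj hg htU)).mpr (V0_conj G hξ ⟨hg, h⟩ htU)
        rw [res_mem this]; rfl
      · rw [if_neg h]
        have : t⁻¹ * g * t ∉ HH G hξ := fun h' => h
          (V0_conj' G hξ ((HH_V G hξ (G.Vconj hg htU)).mp h') htU).2
        rw [res_not this]
    rw [Finset.sum_congr rfl h3, ortho hp]
    split_ifs
    · rw [Finset.sum_const, Finset.card_image_of_injective _ hτi]; simp
    · simp
  · intro g hg hgV
    have hk : d g ≠ 0 := fun h => hgV ((G.mem g hg).mpr h)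
    let w := (pw s (d g))⁻¹ * g
    have hw : w ∈ V := by
      rw [G.mem _ (U.mul_mem (U.inv_mem (G.pwU _)) hg), G.mul _ (U.inv_mem (G.pwU _)) _ hg,
        G.inv (G.pwU _), G.dpw]
      ring
    have h3 : ∀ t ∈ V, (t⁻¹ * g * t ∈ HH G hξ ↔ ∀ j : ZMod p,
        vec s ξ t (d g + j) + vec s ξ w j + vec s ξ t j =
        vec s ξ t (d g + 0) + vec s ξ w (0 : ZMod p) + vec s ξ t (0 : ZMod p)) := by
      intro t ht
      have h4 : (pw s (d g))⁻¹ * t⁻¹ * pw s (d g) ∈ V := G.Vconj (V.inv_mem ht) (G.pwU _)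
      have h5 : (pw s (d g))⁻¹ * t⁻¹ * pw s (d g) * w ∈ V := V.mul_mem h4 hw
      have h6 : (pw s (d g))⁻¹ * t⁻¹ * pw s (d g) * w * t ∈ V := V.mul_mem h5 ht
      have e : (pw s (d g))⁻¹ * t⁻¹ * pw s (d g) * w * t = (pw s (d g))⁻¹ * (t⁻¹ * g * t) := by
        simp only [w]; group
      have h7 : ∀ j : ZMod p, vec s ξ ((pw s (d g))⁻¹ * t⁻¹ * pw s (d g) * w * t) j =
          vec s ξ t (d g + j) + vec s ξ w j + vec s ξ t j := by
        intro j
        rw [vec_mul G hξ h5 ht, vec_mul G hξ h4 hw, G.vec_conj hξ.inv (G.pwU _), G.dpw,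
          vec_inv G hξ ht]
      have h8 : (pw s (d g))⁻¹ * t⁻¹ * pw s (d g) * w * t ∈ V0 G hξ ↔ ∀ j : ZMod p,
          vec s ξ t (d g + j) + vec s ξ w j + vec s ξ t j =
          vec s ξ t (d g + 0) + vec s ξ w (0 : ZMod p) + vec s ξ t (0 : ZMod p) := by
        rw [mem_V0]
        constructor
        · rintro ⟨-, h⟩ j
          have := h j
          rwa [h7 j, h7 0] at this
        · intro h
          refine ⟨h6, fun j => ?_⟩
          rw [h7 j, h7 0]; exact h j
      rw [← h8, ← HH_V G hξ h6, e]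
      constructor
      · intro h
        exact (HH G hξ).mul_mem ((HH G hξ).inv_mem (pw_HH G hξ _)) h
      · intro h
        have := (HH G hξ).mul_mem (pw_HH G hξ (d g)) h
        rwa [mul_inv_cancel_left] at this
    rw [Finset.sum_image (fun a _ b _ h => hτi h)]
    obtain ⟨a₀, ⟨ha₀, c, hc⟩, huniq⟩ := solve hp (k := -(d g)) (by simpa using hk)
      (vec s ξ w)
    rw [Finset.sum_eq_single a₀]
    · have : (τ a₀)⁻¹ * g * τ a₀ ∈ HH G hξ := by
        rw [h3 _ (hτV a₀), hτ a₀]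
        intro j
        have h4 := hc j
        have h5 := hc 0
        rw [sub_neg_eq_add] at h4 h5
        rw [add_comm (d g) j, add_comm (d g) 0]
        linear_combination h4 - h5
      rw [res_mem this]; rfl
    · intro b hb hne
      apply res_not
      intro h
      apply hne
      rw [h3 _ (hτV b), hτ b] at h
      apply huniq
      refine ⟨(hmem b).mp hb, b (d g + 0) + vec s ξ w (0 : ZMod p) + b 0, fun j => ?_⟩
      have h4 := h j
      rw [sub_neg_eq_add, add_comm j (d g)]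
      linear_combination h4
    · intro h
      exact absurd ((hmem a₀).mpr ha₀) h

end

end Pool.Agent.R493.ST
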