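import Pool.Agent.R493.ST.E1

set_option autoImplicit false
set_option linter.all false

namespace Pool.Agent.R493.ST

open Finset

variable {Γ : Type*} [Group Γ] [TopologicalSpace Γ]

/-- the trivial character is, up to the ideal, a sum of characters induced from `V` -/
theorem oneDecomp [IsTopologicalGroup Γ] [CompactSpace Γ] {p : ℕ} [Fact p.Prime] [NeZero p]
    (hp : p ≠ 2) {N : ℕ} (hN : 2 ∣ N) {X : Set Γ} (D : Data X) {U V : Subgroup Γ}
    {d : Γ → ZMod p} {s : Γ} (G : Deg p U V d s) (hU : IsOpen (U : Set Γ))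
    (hV : IsOpen (V : Set Γ)) (hXV : ∀ x ∈ X, x ∈ U → x ∈ V) :
    ∃ (κ : Γ → ℂ) (T : Finset (Vec p)) (χ : Vec p → Γ → ℂ), P N X U κ ∧
      (∀ S, IsChar 2 V (χ S)) ∧
      ∀ g ∈ U, κ g = 1 + ∑ S ∈ T, ∑ k : ZMod p, χ S ((pw s k)⁻¹ * g * pw s k) := by
  classical
  by_cases h0 : ∀ x ∈ X, x ∉ U
  · exact ⟨1, ∅, fun _ => res V 1, P.cpx1 hU h0, fun _ => isChar_one hV, fun g hg => by simp⟩
  push Not at h0
  obtain ⟨x₁, hx₁, hx₁U⟩ := h0
  let sg : Γ → ℂ := fun x => if ∃ v ∈ V, v⁻¹ * rep U x * v = x then -1 else 1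
  obtain ⟨ξ, hξ, hξ1⟩ := D.sign V hV sg (by
      intro x hx hxV
      simp only [sg]
      split_ifs <;> simp) (by
      intro x hx hxV u hu
      simp only [sg]
      rw [rep_conj U (G.le hu)]
      have : (∃ v ∈ V, v⁻¹ * rep U x * v = u⁻¹ * x * u) ↔
          (∃ v ∈ V, v⁻¹ * rep U x * v = x) := by
        constructor
        · rintro ⟨v, hv, h⟩
          refine ⟨v * u⁻¹, V.mul_mem hv (V.inv_mem hu), ?_⟩
          have : (v * u⁻¹)⁻¹ * rep U x * (v * u⁻¹) = u * (v⁻¹ * rep U x * v) * u⁻¹ := by group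
          rw [this, h]; group
        · rintro ⟨v, hv, h⟩
          refine ⟨v * u, V.mul_mem hv hu, ?_⟩
          have : (v * u)⁻¹ * rep U x * (v * u) = u⁻¹ * (v⁻¹ * rep U x * v) * u := by group
          rw [this, h]
      simp only [this])
  have hrep : ∀ x ∈ X, x ∈ U → rep U x ∈ X ∧ rep U x ∈ U ∧ rep U (rep U x) = rep U x := by
    intro x hx hxU
    obtain ⟨u, hu, hux⟩ := rep_spec U x
    refine ⟨?_, ?_, ?_⟩
    · have := D.conj x hx u⁻¹
      have e : u⁻¹⁻¹ * x * u⁻¹ = rep U x := by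
        rw [← hux]
        simp only [hux]
        have : u⁻¹ * rep U x * u = x := hux
        calc u⁻¹⁻¹ * x * u⁻¹ = u⁻¹⁻¹ * (u⁻¹ * rep U x * u) * u⁻¹ := by rw [this]
          _ = rep U x := by group
      rwa [e] at this
    · have := U.mul_mem (U.mul_mem hu hxU) (U.inv_mem hu)
      have e : u * x * u⁻¹ = rep U x := by
        calc u * x * u⁻¹ = u * (u⁻¹ * rep U x * u) * u⁻¹ := by rw [hux]
          _ = rep U x := by group
      rwa [e] at this
    · have := rep_conj U hu (rep U x)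
      rw [hux] at this
      exact this.symm
  have hvr : ∀ x ∈ X, x ∈ U → ∀ j : ZMod p, vec s ξ (rep U x) j = if j = 0 then 1 else 0 := by
    intro x hx hxU j
    obtain ⟨hrX, hrU, hrr⟩ := hrep x hx hxU
    have hrV := hXV _ hrX hrU
    have hcX : (pw s j)⁻¹ * rep U x * pw s j ∈ X := D.conj _ hrX _
    have hcV : (pw s j)⁻¹ * rep U x * pw s j ∈ V := G.Vconj hrV (G.pwU j)
    have h1 := hξ1 _ hcX hcV
    have h2 : sg ((pw s j)⁻¹ * rep U x * pw s j) = if j = 0 then -1 else 1 := by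
      simp only [sg]
      rw [rep_conj U (G.pwU j), hrr]
      by_cases hj : j = 0
      · subst hj
        rw [if_pos rfl, if_pos]
        refine ⟨1, V.one_mem, ?_⟩
        simp [pw]
      · rw [if_neg hj, if_neg]
        rintro ⟨v, hv, h3⟩
        have hc : (pw s j * v⁻¹) * rep U x = rep U x * (pw s j * v⁻¹) := by
          have h4 : rep U x = v * ((pw s j)⁻¹ * rep U x * pw s j) * v⁻¹ := by
            rw [← h3]; group
          calc (pw s j * v⁻¹) * rep U x
              = (pw s j * v⁻¹) * (v * ((pw s j)⁻¹ * rep U x * pw s j) * v⁻¹) := by rw [← h4]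
            _ = _ := by group
        have hn : pw s j * v⁻¹ ∉ V := by
          intro h5
          apply hj
          have h6 := V.mul_mem h5 hv
          rw [inv_mul_cancel_right] at h6
          have := (G.mem _ (G.pwU j)).mp h6
          rwa [G.dpw] at this
        rcases D.cen _ hrX _ hc with h5 | h5
        · exact hn (by rw [h5]; exact V.one_mem)
        · exact hn (by rw [h5]; exact hrV)
    unfold vec
    rw [h1, h2]
    by_cases hj : j = 0
    · rw [if_pos hj, if_pos hj, if_neg (by norm_num)]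
    · rw [if_neg hj, if_neg hj, if_pos rfl]
  have hHX : ∀ x ∈ X, x ∉ HH G hξ := by
    intro x hx hxH
    have hxU : x ∈ U := hxH.1
    have hxV := hXV x hx hxU
    have h1 := (HH_V G hξ hxV).mp hxH
    obtain ⟨u, hu, hux⟩ := rep_spec U x
    rw [← hux] at h1
    have h2 := V0_conj' G hξ h1 hu
    have h3 := h2.2 1
    rw [hvr x hx hxU 1, hvr x hx hxU 0] at h3
    simp at h3
  obtain ⟨hrX, hrU, -⟩ := hrep x₁ hx₁ hx₁U
  obtain ⟨κ, hκ, hκ1, hκ2⟩ := kappa G hξ hp (N := N) hU hHX
    (vec_surj G hξ (hXV _ hrX hrU) (hvr x₁ hx₁ hx₁U))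
  obtain ⟨T, hT⟩ := even_reps hp
  refine ⟨κ, T, chi V s ξ, hκ, chi_char G hξ, fun g hg => ?_⟩
  by_cases hgV : g ∈ V
  · rw [hκ1 g hgV, hT fun S => sgn (∑ j, S j * vec s ξ g j)]
    congr 1
    · simp [sgn_zero]
    · refine Finset.sum_congr rfl fun S _ => Finset.sum_congr rfl fun k _ => ?_
      rw [chi, if_pos (G.Vconj hgV (G.pwU k))]
      congr 1
      simp only [rot, G.vec_conj hξ.inv (G.pwU k), G.dpw]
      refine Fintype.sum_equiv (Equiv.subRight k) _ _ fun j => ?_
      simp only [Equiv.subRight_apply]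
      congr 2
      ring
  · rw [hκ2 g hg hgV]
    have : ∀ S ∈ T, ∑ k : ZMod p, chi V s ξ S ((pw s k)⁻¹ * g * pw s k) = 0 := by
      intro S _
      refine Finset.sum_eq_zero fun k _ => ?_
      rw [chi, if_neg]
      exact fun h => hgV (G.Vconj' h (G.pwU k))
    rw [Finset.sum_congr rfl this]; simp

theorem oddStep [IsTopologicalGroup Γ] [CompactSpace Γ] {p : ℕ} [Fact p.Prime] [NeZero p]
    (hp : p ≠ 2) {N : ℕ} (hN : 2 ∣ N) {X : Set Γ} (D : Data X) {U V : Subgroup Γ}
    {d : Γ → ZMod p} {s : Γ} (G : Deg p U V d s) (hU : IsOpen (U : Set Γ))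
    (hV : IsOpen (V : Set Γ)) (hXV : ∀ x ∈ X, x ∈ U → x ∈ V) {f : Γ → ℂ} (hf : Inv U f)
    (hκ : ∀ κ, P N X U κ → P N X U (f * κ)) (hfV : P N X V (res V f)) : P N X U f := by
  classical
  obtain ⟨κ, T, χ, h1, h2, h3⟩ := oneDecomp hp hN D G hU hV hXV
  have hInv : Inv V (res V f) := inv_res fun v hv g => hf v (G.le hv) g
  have h4 : ∀ S ∈ T, P N X U
      (fun g => ∑ k : ZMod p, (χ S * res V f) ((pw s k)⁻¹ * g * pw s k)) := by
    intro S _
    have h5 := hfV.char ((h2 S).mono hN)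
    have hinj : Function.Injective (fun k : ZMod p => pw s k) := by
      intro a b hab
      have := congrArg d hab
      simpa only [G.dpw] using this
    have h6 := h5.ind hU hV G.le (Finset.univ.image fun k : ZMod p => pw s k) (by
        intro t ht
        obtain ⟨k, -, rfl⟩ := Finset.mem_image.mp ht
        exact G.pwU k) (by
        intro u hu
        refine ⟨pw s (d u), ⟨Finset.mem_image_of_mem _ (Finset.mem_univ _),
          G.quot (G.pwU _) hu (G.dpw _)⟩, ?_⟩
        rintro t ⟨ht, htu⟩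
        obtain ⟨k, -, rfl⟩ := Finset.mem_image.mp ht
        have h7 := (G.mem _ (U.mul_mem (U.inv_mem (G.pwU k)) hu)).mp htu
        rw [G.mul _ (U.inv_mem (G.pwU k)) _ hu, G.inv (G.pwU k), G.dpw] at h7
        have : k = d u := by linear_combination -h7
        simp only [this])
      (fun g hg => by simp [res_not hg]) (by
        intro v hv g
        simp only [Pi.mul_apply]
        rw [hInv v hv g, (h2 S).inv v hv g])
    refine h6.congr fun g hg => ?_
    rw [Finset.sum_image (fun a _ b _ h => hinj h)]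
  have h5 := P.sum hU T _ h4
  refine ((hκ κ h1).sub hU h5).congr fun g hg => ?_
  simp only [Pi.sub_apply, Pi.mul_apply, Finset.sum_apply]
  rw [h3 g hg, mul_add, mul_one, add_sub_assoc, Finset.mul_sum]
  have h6 : ∀ S ∈ T, ∑ k : ZMod p, χ S ((pw s k)⁻¹ * g * pw s k) *
      res V f ((pw s k)⁻¹ * g * pw s k) =
      f g * ∑ k : ZMod p, χ S ((pw s k)⁻¹ * g * pw s k) := by
    intro S _
    rw [Finset.mul_sum]
    refine Finset.sum_congr rfl fun k _ => ?_
    by_cases hc : (pw s k)⁻¹ * g * pw s k ∈ V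
    · rw [res_mem hc, hf _ (G.pwU k)]; ring
    · rw [(h2 S).zero _ hc]; ring
  rw [Finset.sum_congr rfl h6]
  ring

end Pool.Agent.R493.ST
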