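import Pool.Agent.R493.ST.E2

set_option autoImplicit false
set_option linter.all false

namespace Pool.Agent.R493.ST

open Finset

variable {Γ : Type*} [Group Γ] [TopologicalSpace Γ]

theorem exists_deg {p : ℕ} [Fact p.Prime] {U : Subgroup Γ} {θ : Γ → ℂ} (hθ : IsChar p U θ)
    {s : Γ} (hs : s ∈ U) (hs1 : θ s ≠ 1) : ∃ d : Γ → ZMod p, Deg p U hθ.ker d s := by
  classical
  haveI : NeZero p := ⟨(Fact.out : p.Prime).ne_zero⟩
  have hord : orderOf (θ s) = p := orderOf_eq_prime (hθ.pow s hs) hs1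
  have hprim : IsPrimitiveRoot (θ s) p := by
    have := IsPrimitiveRoot.orderOf (θ s)
    rwa [hord] at this
  have hex : ∀ g ∈ U, ∃ i : ℕ, θ g = θ s ^ i := by
    intro g hg
    obtain ⟨i, -, hi⟩ := hprim.eq_pow_of_pow_eq_one (hθ.pow g hg)
    exact ⟨i, hi.symm⟩
  let d : Γ → ZMod p := fun g => if h : g ∈ U then ((hex g h).choose : ZMod p) else 0
  have hd1 : ∀ g ∈ U, θ g = θ s ^ (d g).val := by
    intro g hg
    have h1 := (hex g hg).choose_spec
    have h2 : d g = ((hex g hg).choose : ZMod p) := by simp only [d, dif_pos hg]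
    have h3 : (d g).val = (hex g hg).choose % p := by rw [h2, ZMod.val_natCast]
    have h4 : θ s ^ (d g).val = θ s ^ (hex g hg).choose := by
      conv_rhs => rw [← pow_mod_orderOf, hord]
      rw [h3]
    rw [h4]; exact h1
  have hd2 : ∀ g ∈ U, ∀ i : ℕ, θ g = θ s ^ i → d g = (i : ZMod p) := by
    intro g hg i hi
    rw [hd1 g hg] at hi
    rw [← ZMod.natCast_zmod_val (d g)]
    refine (ZMod.natCast_eq_natCast_iff _ _ _).mpr ?_
    have h5 : θ s ^ ((d g).val % p) = θ s ^ (i % p) := by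
      have e1 := pow_mod_orderOf (θ s) (d g).val
      have e2 := pow_mod_orderOf (θ s) i
      rw [hord] at e1 e2
      rw [e1, e2, hi]
    exact hprim.pow_inj (Nat.mod_lt _ (Fact.out : p.Prime).pos)
      (Nat.mod_lt _ (Fact.out : p.Prime).pos) h5
  refine ⟨d, ⟨hθ.ker_le, fun g hg h hh => ?_, fun g hg => ?_, hs, ?_⟩⟩
  · have := hd2 (g * h) (U.mul_mem hg hh) ((d g).val + (d h).val) (by
      rw [hθ.mul g hg h hh, pow_add, ← hd1 g hg, ← hd1 h hh])
    rw [this]; push_cast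
    rw [ZMod.natCast_zmod_val, ZMod.natCast_zmod_val]
  · constructor
    · rintro ⟨-, h1⟩
      have := hd2 g hg 0 (by rw [h1, pow_zero])
      simpa using this
    · intro h
      exact ⟨hg, by rw [hd1 g hg, h]; simp⟩
  · have := hd2 s hs 1 (by rw [pow_one])
    simpa using this

theorem IsChar.power {N : ℕ} {U : Subgroup Γ} {ψ : Γ → ℂ} (h : IsChar N U ψ) {m q : ℕ}
    (hm : m ≠ 0) (hq : ∀ g ∈ U, ψ g ^ (m * q) = 1) : IsChar q U (fun g => ψ g ^ m) := by
  refine ⟨fun g hg => ?_, ?_, fun g hg k hk => ?_, fun g hg => ?_, ?_⟩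
  · rw [h.zero g hg, zero_pow hm]
  · rw [h.one, one_pow]
  · rw [h.mul g hg k hk, mul_pow]
  · rw [← pow_mul, hq g hg]
  · obtain ⟨W, h1, h2, h3⟩ := h.cont
    exact ⟨W, h1, h2, fun g hg => by rw [h3 g hg, one_pow]⟩

variable [IsTopologicalGroup Γ] [CompactSpace Γ]

/-- `a` is `1 + α` with `α` quadratic, or `a = 1` and `n` is odd -/
def Good (n : ℕ) (U : Subgroup Γ) (a : Γ → ℂ) : Prop :=
  (∃ α, IsChar 2 U α ∧ ∀ g ∈ U, a g = 1 + α g) ∨ (Odd n ∧ ∀ g ∈ U, a g = 1)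

theorem evenChar {N : ℕ} (hN : 2 ∣ N) {X : Set Γ} (D : Data X) (n : ℕ) :
    0 < n → ∀ {U : Subgroup Γ} (hU : IsOpen (U : Set Γ)) {ψ a : Γ → ℂ}
      (hψ : IsChar N U ψ) (ha : Good n U a) (hn : ∀ g ∈ U, ψ g ^ n = 1)
      (hX : ∀ x ∈ X, x ∈ U → ψ x = 1),
      P N X U ((ψ - 1) * a) := by
  classical
  induction n using Nat.strong_induction_on with
  | _ n ih =>
    intro hpos U hU ψ a hψ ha hn hX
    rcases Nat.eq_two_pow_or_exists_odd_prime_and_dvd n with ⟨k, hk⟩ | ⟨p, hp, hpn, hpo⟩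
    · rcases ha with ⟨α, hα, hα1⟩ | ⟨ho, ha⟩
      · have h1 := twoPower hN D k hU hψ (by rw [← hk]; exact hn) hX hα
        refine h1.congr fun g hg => ?_
        simp only [Pi.mul_apply, Pi.sub_apply, Pi.add_apply, Pi.one_apply, hα1 g hg]
      · have h1 : n = 1 := by
          rcases Nat.eq_zero_or_pos k with rfl | hk0
          · simpa using hk
          · exfalso
            rw [hk] at ho
            have : Even (2 ^ k) := (even_two).pow_of_ne_zero (by omega)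
            exact (Nat.not_even_iff_odd.mpr ho) this
        refine P.zero.congr fun g hg => ?_
        have h2 := hn g hg
        rw [h1, pow_one] at h2
        simp [h2]
    · obtain ⟨m, rfl⟩ := hpn
      haveI : Fact p.Prime := ⟨hp⟩
      haveI : NeZero p := ⟨hp.ne_zero⟩
      have hm : 0 < m := by
        rcases Nat.eq_zero_or_pos m with rfl | h
        · simp at hpos
        · exact h
      have hlt : m < p * m := by
        have := hp.two_le
        nlinarith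
      have hp2 : p ≠ 2 := by
        rintro rfl
        exact absurd hpo (by decide)
      have hθ : IsChar p U (fun g => ψ g ^ m) := hψ.power (by omega) (by
        intro g hg; rw [mul_comm]; exact hn g hg)
      have hgood : Good m U a := by
        rcases ha with h | ⟨ho, h⟩
        · exact Or.inl h
        · exact Or.inr ⟨(Nat.odd_mul.mp ho).2, h⟩
      by_cases h0 : ∀ g ∈ U, ψ g ^ m = 1
      · exact ih m hlt hm hU hψ hgood h0 hX
      push Not at h0
      obtain ⟨s, hs, hs1⟩ := h0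
      obtain ⟨d, G⟩ := exists_deg hθ hs hs1
      have hV := hθ.ker_open
      have hψV := hψ.res hθ.ker_le hV
      have hgoodV : Good m hθ.ker a := by
        rcases hgood with ⟨α, hα, h⟩ | ⟨ho, h⟩
        · exact Or.inl ⟨_, hα.res hθ.ker_le hV, fun g hg => by rw [h g hg.1, res_mem hg]⟩
        · exact Or.inr ⟨ho, fun g hg => h g hg.1⟩
      have h1 := ih m hlt hm hV hψV hgoodV (fun g hg => by rw [res_mem hg]; exact hg.2)
        (fun x hx hxV => by rw [res_mem hxV, hX x hx hxV.1])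
      -- the multiplier, made invariant
      obtain ⟨a', ha'inv, ha'eq, ha'κ⟩ : ∃ a' : Γ → ℂ, Inv U a' ∧ (∀ g ∈ U, a' g = a g) ∧
          ∀ κ, P N X U κ → P N X U (a' * κ) := by
        rcases ha with ⟨α, hα, h⟩ | ⟨ho, h⟩
        · refine ⟨1 + α, fun u hu g => by
            simp only [Pi.add_apply, Pi.one_apply, hα.inv u hu g], fun g hg => by
            simp only [Pi.add_apply, Pi.one_apply, h g hg], fun κ hκ => ?_⟩
          refine (hκ.add hU (hκ.char (hα.mono hN))).congr fun g hg => ?_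
          simp only [Pi.add_apply, Pi.mul_apply, Pi.one_apply]; ring
        · exact ⟨1, fun u hu g => rfl, fun g hg => (h g hg).symm, fun κ hκ => by
            rwa [one_mul]⟩
      have h2 : P N X U ((ψ - 1) * a') := by
        refine oddStep hp2 hN D G hU hV (fun x hx hxU => ⟨hxU, by
          simp only [hX x hx hxU, one_pow]⟩) (f := (ψ - 1) * a') ?_ ?_ ?_
        · intro u hu g
          simp only [Pi.mul_apply, Pi.sub_apply, Pi.one_apply, hψ.inv u hu g, ha'inv u hu g]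
        · intro κ hκ
          have h3 := ha'κ κ hκ
          refine ((h3.char hψ).sub hU h3).congr fun g hg => ?_
          simp only [Pi.mul_apply, Pi.sub_apply, Pi.one_apply]
          ring
        · refine h1.congr fun g hg => ?_
          simp only [Pi.mul_apply, Pi.sub_apply, Pi.one_apply, res_mem hg, ha'eq g hg.1]
      refine h2.congr fun g hg => ?_
      simp only [Pi.mul_apply, ha'eq g hg]

/-- the group generated by the permutation characters -/
def Pm (Γ : Type*) [Group Γ] [TopologicalSpace Γ] : AddSubgroup (Γ → ℂ) :=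
  AddSubgroup.closure {h | ∃ W : Subgroup Γ, IsOpen (W : Set Γ) ∧ h = Ind W (res W 1)}

theorem Ind_quad {U : Subgroup Γ} (hU : IsOpen (U : Set Γ)) {f ξ : Γ → ℂ} (hf : Inv U f)
    (hf0 : ∀ g, g ∉ U → f g = 0)
    (hξ : IsChar 2 U ξ) {s : Γ} (hs : s ∈ U) (hs1 : ξ s ≠ 1) :
    Ind hξ.ker (res hξ.ker f) = Ind U f + Ind U (f * ξ) := by
  classical
  have hs2 : ξ s = -1 := (hξ.quad hs).resolve_left hs1
  rw [← Ind_add (fin hU)]
  have hinv : Inv hξ.ker (res hξ.ker f) := inv_res fun v hv g => hf v hv.1 g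
  rw [Ind_trans (fin hU) hξ.ker_le {1, s} (by
    intro t ht; simp only [Finset.mem_insert, Finset.mem_singleton] at ht
    rcases ht with rfl | rfl
    · exact U.one_mem
    · exact hs) (trans2 hξ hs hs2) hinv]
  congr 1
  funext g
  have hne : (1 : Γ) ≠ s := by
    rintro rfl; exact hs1 hξ.one
  rw [Finset.sum_pair hne]
  simp only [_root_.inv_one, one_mul, mul_one, Pi.add_apply, Pi.mul_apply]
  by_cases hg : g ∈ U
  · rcases hξ.quad hg with h | h
    · have h1 : g ∈ hξ.ker := ⟨hg, h⟩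
      rw [res_mem h1, res_mem (ker_conj hξ hs h1), hf s hs g, h]; ring
    · have h1 : g ∉ hξ.ker := fun h' => by rw [h'.2] at h; norm_num at h
      have h2 : s⁻¹ * g * s ∉ hξ.ker := fun h' => by
        have := h'.2; rw [hξ.inv s hs g, h] at this; norm_num at this
      rw [res_not h1, res_not h2, h]; ring
  · have h1 : g ∉ hξ.ker := fun h' => hg h'.1
    have h2 : s⁻¹ * g * s ∉ hξ.ker := fun h' => by
      apply hg
      have := U.mul_mem (U.mul_mem hs h'.1) (U.inv_mem hs)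
      have e : s * (s⁻¹ * g * s) * s⁻¹ = g := by group
      rwa [e] at this
    rw [res_not h1, res_not h2, hf0 g hg]; ring

theorem res_self {U : Subgroup Γ} {f : Γ → ℂ} (hf0 : ∀ g, g ∉ U → f g = 0) : res U f = f := by
  funext g
  by_cases hg : g ∈ U
  · rw [res_mem hg]
  · rw [res_not hg, hf0 g hg]

theorem quad_Pm {U : Subgroup Γ} (hU : IsOpen (U : Set Γ)) {ξ : Γ → ℂ} (hξ : IsChar 2 U ξ) :
    Ind U ξ ∈ Pm Γ := by
  by_cases h0 : ∀ g ∈ U, ξ g = 1
  · have : ξ = res U 1 := by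
      funext g
      by_cases hg : g ∈ U
      · rw [res_mem hg, h0 g hg]; rfl
      · rw [res_not hg, hξ.zero g hg]
    rw [this]
    exact AddSubgroup.subset_closure ⟨U, hU, rfl⟩
  · push Not at h0
    obtain ⟨s, hs, hs1⟩ := h0
    have h1 := Ind_quad hU (inv_res (inv_one U)) (fun g hg => res_not hg) hξ hs hs1
    have h2 : res hξ.ker (res U 1) = res hξ.ker (1 : Γ → ℂ) := by
      funext g
      by_cases hg : g ∈ hξ.ker
      · rw [res_mem hg, res_mem hg, res_mem hg.1]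
      · rw [res_not hg, res_not hg]
    have h3 : res U 1 * ξ = ξ := by
      funext g
      by_cases hg : g ∈ U
      · simp [res_mem hg]
      · simp [hξ.zero g hg]
    rw [h2, h3] at h1
    have h4 : Ind U ξ = Ind hξ.ker (res hξ.ker 1) - Ind U (res U 1) := by rw [h1]; abel
    rw [h4]
    exact sub_mem (AddSubgroup.subset_closure ⟨_, hξ.ker_open, rfl⟩)
      (AddSubgroup.subset_closure ⟨_, hU, rfl⟩)

/-- `Ind ψ + Ind ψα` -/
theorem two_Ind {N : ℕ} (hN : 2 ∣ N) (hN0 : 0 < N) {X : Set Γ} (D : Data X) {U : Subgroup Γ}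
    (hU : IsOpen (U : Set Γ)) {ψ α : Γ → ℂ} (hψ : IsChar N U ψ) (hα : IsChar 2 U α) :
    Ind U ψ + Ind U (ψ * α) ∈ I N X ⊔ Pm Γ := by
  have hsq : ∀ x ∈ X, x ∈ U → ψ x * ψ x = 1 := by
    intro x hx hxU
    rw [← hψ.mul x hxU x hxU, D.sq x hx, hψ.one]
  obtain ⟨ξ, hξ, hξ1⟩ := D.sign U hU ψ (fun x hx hxU => mul_self_eq_one_iff.mp (hsq x hx hxU))
    (fun x hx hxU u hu => hψ.inv u hu x)
  have h1 := evenChar hN D N hN0 hU (hψ.mul' (hξ.mono hN)) (Or.inl ⟨α, hα, fun g hg => rfl⟩)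
    (hψ.mul' (hξ.mono hN)).pow (by
      intro x hx hxU
      simp only [Pi.mul_apply]
      rw [hξ1 x hx hxU, hsq x hx hxU])
  have h2 := (h1.char (hξ.mono hN)) (res U 1) (isChar_one hU)
  have h3 : res U 1 * (ξ * ((ψ * ξ - 1) * (fun g => 1 + α g))) =
      (ψ + ψ * α) - (ξ + ξ * α) := by
    funext g
    simp only [Pi.mul_apply, Pi.sub_apply, Pi.one_apply, Pi.add_apply]
    by_cases hg : g ∈ U
    · rw [res_mem hg]
      have := hξ.mul_self hg
      simp only [Pi.one_apply]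
      linear_combination (ψ g * (1 + α g)) * this
    · rw [res_not hg, hψ.zero g hg, hξ.zero g hg]; ring
  rw [h3, Ind_sub (fin hU), Ind_add (fin hU), Ind_add (fin hU)] at h2
  have h4 : Ind U ψ + Ind U (ψ * α) =
      (Ind U ψ + Ind U (ψ * α) - (Ind U ξ + Ind U (ξ * α))) + (Ind U ξ + Ind U (ξ * α)) := by
    abel
  rw [h4]
  exact add_mem (AddSubgroup.mem_sup_left h2)
    (AddSubgroup.mem_sup_right (add_mem (quad_Pm hU hξ) (quad_Pm hU (hξ.mul' hα))))

/-- totally even characters of odd order are `≡ 1` -/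
theorem odd_one {N : ℕ} (hN : 2 ∣ N) {X : Set Γ} (D : Data X) {U : Subgroup Γ}
    (hU : IsOpen (U : Set Γ)) {ψ : Γ → ℂ} (hψ : IsChar N U ψ) {n : ℕ} (hn : Odd n)
    (hψn : ∀ g ∈ U, ψ g ^ n = 1) : P N X U (ψ - 1) := by
  have hX : ∀ x ∈ X, x ∈ U → ψ x = 1 := by
    intro x hx hxU
    have h1 : ψ x * ψ x = 1 := by rw [← hψ.mul x hxU x hxU, D.sq x hx, hψ.one]
    obtain ⟨k, hk⟩ := hn
    have h2 := hψn x hxU
    rw [hk, pow_succ, pow_mul, sq, h1, one_pow, one_mul] at h2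
    exact h2
  refine (evenChar hN D n hn.pos hU hψ (Or.inr ⟨hn, fun g _ => rfl⟩) hψn hX).congr
    fun g hg => ?_
  simp only [Pi.mul_apply, mul_one]

/-- odd order -/
theorem odd_Ind {N : ℕ} (hN : 2 ∣ N) {X : Set Γ} (D : Data X) {U : Subgroup Γ}
    (hU : IsOpen (U : Set Γ)) {ψ : Γ → ℂ} (hψ : IsChar N U ψ) {n : ℕ} (hn : Odd n)
    (hψn : ∀ g ∈ U, ψ g ^ n = 1) :
    Ind U ψ - Ind U (res U 1) ∈ I N X := by
  have h1 := odd_one hN D hU hψ hn hψn
  have h2 := h1 (res U 1) (isChar_one hU)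
  have h3 : res U 1 * (ψ - 1) = ψ - res U 1 := by
    funext g
    simp only [Pi.mul_apply, Pi.sub_apply, Pi.one_apply]
    by_cases hg : g ∈ U
    · rw [res_mem hg]; simp
    · rw [res_not hg, hψ.zero g hg]; ring
  rwa [h3, Ind_sub (fin hU)] at h2

/-- order not divisible by `4` -/
theorem four_Ind {N : ℕ} (hN : 2 ∣ N) {X : Set Γ} (D : Data X) {U : Subgroup Γ}
    (hU : IsOpen (U : Set Γ)) {ψ : Γ → ℂ} (hψ : IsChar N U ψ) {n : ℕ} (hn : Odd n)
    (hψn : ∀ g ∈ U, ψ g ^ (2 * n) = 1) :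
    Ind U ψ ∈ I N X ⊔ Pm Γ := by
  have hsq : ∀ x ∈ X, x ∈ U → ψ x * ψ x = 1 := by
    intro x hx hxU
    rw [← hψ.mul x hxU x hxU, D.sq x hx, hψ.one]
  obtain ⟨ξ, hξ, hξ1⟩ := D.sign U hU ψ (fun x hx hxU => mul_self_eq_one_iff.mp (hsq x hx hxU))
    (fun x hx hxU u hu => hψ.inv u hu x)
  have hφ : IsChar N U (ψ * ξ) := hψ.mul' (hξ.mono hN)
  have hφn : ∀ g ∈ U, (ψ * ξ) g ^ (2 * n) = 1 := by
    intro g hg
    simp only [Pi.mul_apply]
    rw [mul_pow, hψn g hg, pow_mul, hξ.pow g hg, one_pow, one_mul]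
  have hφX : ∀ x ∈ X, x ∈ U → (ψ * ξ) x = 1 := by
    intro x hx hxU
    simp only [Pi.mul_apply]
    rw [hξ1 x hx hxU, hsq x hx hxU]
  have hη : IsChar 2 U (fun g => (ψ * ξ) g ^ n) := hφ.power hn.pos.ne' (by
    intro g hg; rw [mul_comm n 2]; exact hφn g hg)
  have hN' : ∀ m : ℕ, m ≠ 0 → IsChar N U (fun g => (ψ * ξ) g ^ m) := fun m hm =>
    hφ.power hm (by
      intro g hg
      rw [mul_comm m N, pow_mul, hφ.pow g hg, one_pow])
  have hθ := hN' (n + 1) (by omega)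
  obtain ⟨k, hk⟩ := hn
  have h1 : P N X U ((fun g => (ψ * ξ) g ^ (n + 1)) - 1) :=
    odd_one hN D hU hθ (n := n) ⟨k, hk⟩ (by
      intro g hg
      show ((ψ * ξ) g ^ (n + 1)) ^ n = 1
      have e : (n + 1) * n = (2 * n) * (k + 1) := by rw [hk]; ring
      rw [← pow_mul, e, pow_mul, hφn g hg, one_pow])
  have h2 : P N X U ((fun g => (ψ * ξ) g ^ n) - res U 1) :=
    P_sub hN D hU hη (isChar_one hU) (by
      intro x hx hxU
      rw [res_mem hxU]
      show (ψ * ξ) x ^ n = 1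
      rw [hφX x hx hxU, one_pow])
  have h3 : P N X U (ψ - ξ) := by
    refine (((h2.char hθ).add hU h1).char (hξ.mono hN)).congr fun g hg => ?_
    simp only [Pi.mul_apply, Pi.sub_apply, Pi.add_apply, Pi.one_apply, res_mem hg]
    have e1 := hφn g hg
    simp only [Pi.mul_apply] at e1
    have e2 := hξ.mul_self hg
    have e3 : (ψ g * ξ g) ^ (n + 1) * (ψ g * ξ g) ^ n = ψ g * ξ g := by
      rw [← pow_add]
      have : n + 1 + n = 2 * n + 1 := by ring
      rw [this, pow_succ, e1, one_mul]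
    linear_combination (ξ g) * e3 + (ψ g) * e2
  have h4 := h3 (res U 1) (isChar_one hU)
  have h5 : res U 1 * (ψ - ξ) = ψ - ξ := by
    funext g
    simp only [Pi.mul_apply, Pi.sub_apply]
    by_cases hg : g ∈ U
    · rw [res_mem hg]; simp
    · rw [res_not hg, hψ.zero g hg, hξ.zero g hg]; ring
  rw [h5, Ind_sub (fin hU)] at h4
  have h6 : Ind U ψ = (Ind U ψ - Ind U ξ) + Ind U ξ := by abel
  rw [h6]
  exact add_mem (AddSubgroup.mem_sup_left h4) (AddSubgroup.mem_sup_right (quad_Pm hU hξ))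

/-- parity reduction -/
theorem parity {N : ℕ} (hN : 2 ∣ N) {X : Set Γ} (D : Data X) {U : Subgroup Γ}
    (hU : IsOpen (U : Set Γ)) {ψ : Γ → ℂ} (hψ : IsChar N U ψ) {δ : ℂ} (hδ : δ = 1 ∨ δ = -1) :
    Ind U ψ ∈ AddSubgroup.closure {h | ∃ (W : Subgroup Γ) (l : Γ → ℂ), IsOpen (W : Set Γ) ∧
      IsChar N W l ∧ (∀ x ∈ X, x ∈ W → l x = δ) ∧ h = Ind W l} := by
  have hδδ : δ * δ = 1 := by rcases hδ with h | h <;> rw [h] <;> norm_num
  have hsq : ∀ x ∈ X, x ∈ U → ψ x * ψ x = 1 := by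
    intro x hx hxU
    rw [← hψ.mul x hxU x hxU, D.sq x hx, hψ.one]
  obtain ⟨ξ, hξ, hξ1⟩ := D.sign U hU (fun x => δ * ψ x) (fun x hx hxU => by
      apply mul_self_eq_one_iff.mp
      have := hsq x hx hxU
      linear_combination (ψ x * ψ x) * hδδ + this)
    (fun x hx hxU u hu => by simp only [hψ.inv u hu x])
  by_cases h0 : ∀ g ∈ U, ξ g = 1
  · refine AddSubgroup.subset_closure ⟨U, ψ, hU, hψ, fun x hx hxU => ?_, rfl⟩
    have h1 := h0 x hxU
    rw [hξ1 x hx hxU] at h1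
    linear_combination δ * h1 - (ψ x) * hδδ
  · push Not at h0
    obtain ⟨s, hs, hs1⟩ := h0
    have h1 := Ind_quad hU hψ.inv hψ.zero hξ hs hs1
    have h4 : Ind U ψ = Ind hξ.ker (res hξ.ker ψ) - Ind U (ψ * ξ) := by rw [h1]; abel
    rw [h4]
    refine sub_mem (AddSubgroup.subset_closure ⟨_, _, hξ.ker_open, hψ.res hξ.ker_le hξ.ker_open,
      fun x hx hxV => ?_, rfl⟩)
      (AddSubgroup.subset_closure ⟨_, _, hU, hψ.mul' (hξ.mono hN), fun x hx hxU => ?_, rfl⟩)
    · rw [res_mem hxV]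
      have h5 := hxV.2
      rw [hξ1 x hx hxV.1] at h5
      linear_combination δ * h5 - (ψ x) * hδδ
    · simp only [Pi.mul_apply]
      rw [hξ1 x hx hxU]
      have := hsq x hx hxU
      linear_combination δ * this

/-- the span of the characters induced from totally even characters of `2`-power order -/
def EE (N : ℕ) (X : Set Γ) : AddSubgroup (Γ → ℂ) :=
  AddSubgroup.closure {h | ∃ (W : Subgroup Γ) (l : Γ → ℂ), IsOpen (W : Set Γ) ∧
    IsChar N W l ∧ (∃ j : ℕ, ∀ g ∈ W, l g ^ (2 ^ j) = 1) ∧ (∀ x ∈ X, x ∈ W → l x = 1) ∧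
    h = Ind W l}

theorem twoPart {N : ℕ} (hN : 2 ∣ N) (hN0 : 0 < N) {X : Set Γ} (D : Data X) {U : Subgroup Γ}
    (hU : IsOpen (U : Set Γ)) {ψ : Γ → ℂ} (hψ : IsChar N U ψ) :
    Ind U ψ ∈ I N X ⊔ EE N X := by
  obtain ⟨k, m, hm, hkm⟩ := Nat.exists_eq_two_pow_mul_odd hN0.ne'
  have hk : k ≠ 0 := by
    rintro rfl
    rw [pow_zero, one_mul] at hkm
    rw [hkm] at hN
    exact (Nat.not_even_iff_odd.mpr hm) (even_iff_two_dvd.mpr hN)
  have hcop : Nat.Coprime m (2 ^ k) := (Nat.Coprime.pow_right k hm.coprime_two_right)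
  obtain ⟨a, ha1, hma, h2a⟩ : ∃ a : ℕ, 1 ≤ a ∧ m ∣ a ∧ 2 ^ k ∣ a - 1 := by
    refine ⟨m ^ Nat.totient (2 ^ k), Nat.one_le_pow _ _ hm.pos, dvd_pow_self _ ?_, ?_⟩
    · exact (Nat.totient_pos.mpr (by positivity)).ne'
    · exact (Nat.modEq_iff_dvd' (Nat.one_le_pow _ _ hm.pos)).mp (Nat.ModEq.pow_totient hcop).symm
  have h2N : 2 ^ k ∣ N := ⟨m, hkm⟩
  obtain ⟨b, hb0, hab, h2b⟩ : ∃ b : ℕ, b ≠ 0 ∧ a + b = 1 + N * a ∧ 2 ^ k ∣ b := by
    refine ⟨(N - 1) * (a - 1) + N, by omega, ?_, (h2a.mul_left _).add h2N⟩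
    obtain ⟨a', rfl⟩ : ∃ a', a = a' + 1 := ⟨a - 1, by omega⟩
    obtain ⟨N', rfl⟩ : ∃ N', N = N' + 1 := ⟨N - 1, by omega⟩
    simp only [Nat.add_sub_cancel]
    ring
  have hNam : N ∣ a * 2 ^ k := by
    rw [hkm, mul_comm (2 ^ k) m]
    exact Nat.mul_dvd_mul hma (dvd_refl _)
  have hNbm : N ∣ b * m := by
    rw [hkm]
    exact Nat.mul_dvd_mul h2b (dvd_refl _)
  have pw1 : ∀ M, N ∣ M → ∀ g ∈ U, ψ g ^ M = 1 := by
    rintro M ⟨c, rfl⟩ g hg
    rw [pow_mul, hψ.pow g hg, one_pow]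
  have h1 : IsChar (2 ^ k) U (fun g => ψ g ^ a) := hψ.power (by omega) (pw1 _ hNam)
  have h2 : IsChar N U (fun g => ψ g ^ b) := hψ.power hb0 (pw1 _ (dvd_mul_left N b))
  have h3 : P N X U ((fun g => ψ g ^ b) - 1) := odd_one hN D hU h2 hm (by
    intro g hg
    show (ψ g ^ b) ^ m = 1
    rw [← pow_mul]; exact pw1 _ hNbm g hg)
  have h4 : P N X U (ψ - fun g => ψ g ^ a) := by
    refine (h3.char (h1.mono h2N)).congr fun g hg => ?_
    simp only [Pi.mul_apply, Pi.sub_apply, Pi.one_apply]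
    have : ψ g ^ a * ψ g ^ b = ψ g := by
      rw [← pow_add, hab, pow_add, pow_one, pw1 _ (dvd_mul_right N a) g hg, mul_one]
    linear_combination this
  have h5 := h4 (res U 1) (isChar_one hU)
  have h6 : res U 1 * (ψ - fun g => ψ g ^ a) = ψ - fun g => ψ g ^ a := by
    funext g
    simp only [Pi.mul_apply, Pi.sub_apply]
    by_cases hg : g ∈ U
    · rw [res_mem hg]; simp
    · rw [res_not hg, hψ.zero g hg, zero_pow (by omega : a ≠ 0)]; ring
  rw [h6, Ind_sub (fin hU)] at h5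
  have h7 := parity (dvd_pow_self 2 hk) D hU h1 (δ := 1) (Or.inl rfl)
  have h8 : Ind U (fun g => ψ g ^ a) ∈ EE N X := by
    refine (AddSubgroup.closure_mono ?_) h7
    rintro h ⟨W, l, hW, hl, hX, rfl⟩
    exact ⟨W, l, hW, hl.mono h2N, ⟨k, hl.pow⟩, hX, rfl⟩
  have h9 : Ind U ψ = (Ind U ψ - Ind U (fun g => ψ g ^ a)) + Ind U (fun g => ψ g ^ a) := by abel
  rw [h9]
  exact add_mem (AddSubgroup.mem_sup_left h5) (AddSubgroup.mem_sup_right h8)

end Pool.Agent.R493.ST
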