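import Pool.Agent.R493.ST.B

set_option autoImplicit false
set_option linter.all false

namespace Pool.Agent.R493.ST

open NumberField NumberField.ComplexEmbedding IntermediateField

/-- the field of algebraic numbers -/
abbrev Om : Type := AlgebraicClosure ℚ

/-- the absolute Galois group of `ℚ` -/
abbrev Ga : Type := Gal(Om/ℚ)

theorem alg_aux (A B : Algebra ℚ Om) (h : @Algebra.IsAlgebraic ℚ Om _ _ A) :
    @Algebra.IsAlgebraic ℚ Om _ _ B := by
  have : A = B := Subsingleton.elim _ _
  rwa [← this]

instance : Algebra.IsAlgebraic ℚ Om :=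
  alg_aux _ _ (AlgebraicClosure.isAlgebraic ℚ)

instance : IsAlgClosure ℚ Om := ⟨AlgebraicClosure.isAlgClosed ℚ, inferInstance⟩

instance : IsGalois ℚ Om := IsAlgClosure.isGalois ℚ Om

/-- the complex conjugations in the absolute Galois group -/
def XX : Set Ga := {c | ∃ ι : Om →+* ℂ, IsConj ι c}

theorem conj_real {z : ℂ} {r : ℝ} (h : z * z = (r : ℂ)) (hr : 0 < r) : star z = z := by
  have h1 : star z * star z = z * z := by
    rw [← star_mul, h]; simp
  rcases mul_self_eq_mul_self_iff.mp h1 with h2 | h2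
  · exact h2
  · exfalso
    have h3 : z * star z = ((Complex.normSq z : ℝ) : ℂ) := Complex.mul_conj z
    rw [h2] at h3
    have h4 : ((r + Complex.normSq z : ℝ) : ℂ) = 0 := by
      push_cast; linear_combination -h - h3
    have h5 : r + Complex.normSq z = 0 := by exact_mod_cast h4
    have := Complex.normSq_nonneg z
    linarith

theorem conj_imag {z : ℂ} {r : ℝ} (h : z * z = (r : ℂ)) (hr : r < 0) : star z = -z := by
  have h1 : star z * star z = z * z := by
    rw [← star_mul, h]; simp
  rcases mul_self_eq_mul_self_iff.mp h1 with h2 | h2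
  · exfalso
    have h3 : z * star z = ((Complex.normSq z : ℝ) : ℂ) := Complex.mul_conj z
    rw [h2] at h3
    have h4 : ((r - Complex.normSq z : ℝ) : ℂ) = 0 := by
      push_cast; linear_combination -h + h3
    have h5 : r - Complex.normSq z = 0 := by exact_mod_cast h4
    have := Complex.normSq_nonneg z
    linarith
  · exact h2

theorem real_of_star {z : ℂ} (h : star z = z) : z = ((z.re : ℝ) : ℂ) := by
  have : (starRingEnd ℂ) z = z := h
  exact (Complex.conj_eq_iff_re.mp this).symm

section
variable {ι : Om →+* ℂ} {c : Ga} (hc : IsConj ι c)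
include hc

theorem cc_fix {x : Om} (h : star (ι x) = ι x) : c x = x :=
  ι.injective (by rw [hc.eq, h])

theorem cc_real {x : Om} (h : c x = x) : star (ι x) = ι x := by
  rw [← hc.eq, h]

theorem cc_cen (g : Ga) (h : g * c = c * g) : g = 1 ∨ g = c := by
  have hcomm : ∀ x, g (c x) = c (g x) := fun x => DFunLike.congr_fun h x
  have hpos : ∀ x, c x = x → 0 < (ι x).re → 0 < (ι (g x)).re := by
    intro x hx hx0
    obtain ⟨y, hy⟩ := IsAlgClosed.exists_eq_mul_self x
    have h1 : ι y * ι y = (((ι x).re : ℝ) : ℂ) := by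
      rw [← map_mul, ← hy]; exact real_of_star (cc_real hc hx)
    have h2 : c y = y := cc_fix hc (conj_real h1 hx0)
    have h3 : c (g y) = g y := by rw [← hcomm, h2]
    have h4 := real_of_star (cc_real hc h3)
    have h5 : ι (g x) = (((ι (g y)).re * (ι (g y)).re : ℝ) : ℂ) := by
      rw [hy, map_mul, map_mul]
      push_cast
      rw [← h4]
    have h6 : x ≠ 0 := by rintro rfl; simp at hx0
    have h7 : ι (g x) ≠ 0 := by
      rw [map_ne_zero, map_ne_zero]; exact h6
    rw [h5] at h7 ⊢
    have h8 : (ι (g y)).re * (ι (g y)).re ≠ 0 := by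
      intro h; rw [h] at h7; simp at h7
    rw [Complex.ofReal_re]
    exact lt_of_le_of_ne (mul_self_nonneg _) (Ne.symm h8)
  have hfix : ∀ x, c x = x → g x = x := by
    intro x hx
    have hgx : c (g x) = g x := by rw [← hcomm, hx]
    have h1 := real_of_star (cc_real hc hx)
    have h2 := real_of_star (cc_real hc hgx)
    by_contra hne
    have h3 : (ι x).re ≠ (ι (g x)).re := by
      intro h
      apply hne
      apply ι.injective
      rw [h1, h2, h]
    rcases lt_or_gt_of_ne h3 with h4 | h4
    · obtain ⟨q, hq1, hq2⟩ := exists_rat_btwn h4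
      have h5 : c ((q : Om) - x) = (q : Om) - x := by rw [map_sub, hx, map_ratCast]
      have h6 : (ι ((q : Om) - x)).re = (q : ℝ) - (ι x).re := by
        rw [map_sub, map_ratCast, Complex.sub_re]; simp
      have h7 := hpos _ h5 (by rw [h6]; linarith)
      have h8 : (ι (g ((q : Om) - x))).re = (q : ℝ) - (ι (g x)).re := by
        rw [map_sub, map_ratCast, map_sub, map_ratCast, Complex.sub_re]; simp
      rw [h8] at h7
      linarith
    · obtain ⟨q, hq1, hq2⟩ := exists_rat_btwn h4
      have h5 : c (x - (q : Om)) = x - (q : Om) := by rw [map_sub, hx, map_ratCast]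
      have h6 : (ι (x - (q : Om))).re = (ι x).re - (q : ℝ) := by
        rw [map_sub, map_ratCast, Complex.sub_re]; simp
      have h7 := hpos _ h5 (by rw [h6]; linarith)
      have h8 : (ι (g (x - (q : Om)))).re = (ι (g x)).re - (q : ℝ) := by
        rw [map_sub, map_ratCast, map_sub, map_ratCast, Complex.sub_re]; simp
      rw [h8] at h7
      linarith
  obtain ⟨i, hi⟩ := IsAlgClosed.exists_eq_mul_self (-1 : Om)
  have hi0 : i ≠ 0 := by rintro rfl; simp at hi
  have h2 : (2 : Om) ≠ 0 := two_ne_zero
  have hci : c i = -i := by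
    apply ι.injective
    rw [hc.eq, map_neg]
    refine conj_imag (r := -1) ?_ (by norm_num)
    rw [← map_mul, ← hi]; simp
  have hgi : g i = i ∨ g i = -i := by
    apply mul_self_eq_mul_self_iff.mp
    rw [← map_mul, ← hi]; simp
  have hcc : ∀ y, c (c y) = y := fun y => isConj_apply_apply hc y
  have hy : ∀ y : Om, g y = (y + c y) / 2 + (y - c y) / (2 * i) * g i := by
    intro y
    have e1 : c ((y + c y) / 2) = (y + c y) / 2 := by
      rw [map_div₀, map_add, hcc, map_ofNat]; ring
    have e2 : c ((y - c y) / (2 * i)) = (y - c y) / (2 * i) := by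
      rw [map_div₀, map_sub, hcc, map_mul, map_ofNat, hci]
      field_simp
      ring
    have e3 : y = (y + c y) / 2 + (y - c y) / (2 * i) * i := by
      field_simp
      ring
    conv_lhs => rw [e3]
    rw [map_add, map_mul, hfix _ e1, hfix _ e2]
  rcases hgi with h | h
  · left
    ext y
    rw [hy y, h, AlgEquiv.one_apply]
    field_simp
    ring
  · right
    ext y
    rw [hy y, h]
    field_simp
    ring

end

/-- every embedding has a complex conjugation -/
theorem exists_cc (ι : Om →+* ℂ) : ∃ c : Ga, IsConj ι c := by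
  obtain ⟨σ, hσ⟩ := exists_comp_symm_eq_of_comp_eq (k := ℚ) ι (conjugate ι) (Subsingleton.elim _ _)
  exact ⟨σ.symm, hσ.symm⟩

theorem XX_sq : ∀ x ∈ XX, x * x = 1 := by
  rintro x ⟨ι, hι⟩
  ext y
  exact isConj_apply_apply hι y

theorem XX_conj : ∀ x ∈ XX, ∀ g : Ga, g⁻¹ * x * g ∈ XX := by
  rintro x ⟨ι, hι⟩ g
  exact ⟨_, hι.comp g⟩

/-- fixed field data of an open subgroup -/
theorem open_field (U : Subgroup Ga) (hU : IsOpen (U : Set Ga)) :
    (fixedField U).fixingSubgroup = U ∧ FiniteDimensional ℚ (fixedField U) := by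
  have h1 : (fixedField U).fixingSubgroup = U :=
    InfiniteGalois.fixingSubgroup_fixedField ⟨U, U.isClosed_of_isOpen hU⟩
  refine ⟨h1, (InfiniteGalois.isOpen_iff_finite _).mp ?_⟩
  rw [h1]; exact hU

theorem real_conj {K : IntermediateField ℚ Om} {ι ι' : Om →+* ℂ} {x x' : Ga}
    (hx : IsConj ι x) (hx' : IsConj ι' x') (h : ∀ k ∈ K, ι k = ι' k) :
    ∃ g ∈ K.fixingSubgroup, x' = g⁻¹ * x * g := by
  obtain ⟨σ, hσ⟩ := exists_comp_symm_eq_of_comp_eq (k := ℚ) ι ι' (Subsingleton.elim _ _)
  refine ⟨σ⁻¹, ?_, ?_⟩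
  · rw [IntermediateField.mem_fixingSubgroup_iff]
    intro k hk
    apply ι.injective
    rw [h k hk]
    exact RingHom.congr_fun hσ k
  · have h1 : ι.comp (σ⁻¹ : Ga) = ι' := hσ
    have h2 := hx.comp σ⁻¹
    rw [h1] at h2
    exact hx'.ext h2

end Pool.Agent.R493.ST
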