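import Pool.Agent.R493.ST.G

set_option autoImplicit false
set_option linter.all false

namespace Pool.Agent.R493.ST

open NumberField NumberField.ComplexEmbedding IntermediateField

/-- elements with prescribed signs -/
theorem exists_signs (K : Type) [Field K] [NumberField K] (S : InfinitePlace K → Prop) :
    ∃ b : K, ∀ v : InfinitePlace K,
      (S v → v (b - 1) < 1) ∧ (¬ S v → v (b + 1) < 1) := by
  classical
  let z : (v : InfinitePlace K) → WithAbs v.1 := fun v => if S v then 1 else -1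
  have hd := InfinitePlace.denseRange_algebraMap_pi K
  obtain ⟨b, hb⟩ := hd.exists_mem_open (s := Set.pi Set.univ fun v => Metric.ball (z v) 1)
    (isOpen_set_pi Set.finite_univ fun v _ => Metric.isOpen_ball)
    ⟨z, fun v _ => Metric.mem_ball_self one_pos⟩
  refine ⟨b, fun v => ⟨fun h => ?_, fun h => ?_⟩⟩
  · have h1 := hb v (Set.mem_univ v)
    rw [Metric.mem_ball, dist_eq_norm] at h1
    simp only [z, if_pos h] at h1
    exact h1
  · have h1 := hb v (Set.mem_univ v)
    rw [Metric.mem_ball, dist_eq_norm] at h1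
    simp only [z, if_neg h, sub_neg_eq_add] at h1
    exact h1

/-- the quadratic character of a square root -/
theorem root_char (U : Subgroup Ga) (hU : IsOpen (U : Set Ga)) (β : Om) (hβ : β ≠ 0)
    (h : ∀ g ∈ U, g (β * β) = β * β) :
    ∃ ξ : Ga → ℂ, IsChar 2 U ξ ∧ ∀ g ∈ U, (g β = β → ξ g = 1) ∧ (g β = -β → ξ g = -1) := by
  classical
  have hpm : ∀ g ∈ U, g β = β ∨ g β = -β := by
    intro g hg
    apply mul_self_eq_mul_self_iff.mp
    rw [← map_mul, h g hg]
  have hne : -β ≠ β := by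
    intro h'
    apply hβ
    have : (2 : Om) * β = 0 := by linear_combination -h'
    rcases mul_eq_zero.mp this with h2 | h2
    · exact absurd h2 two_ne_zero
    · exact h2
  let ξ : Ga → ℂ := fun g => if g ∈ U then (if g β = β then 1 else -1) else 0
  have h1 : ∀ g ∈ U, g β = β → ξ g = 1 := fun g hg hh => by simp [ξ, hg, hh]
  have h2 : ∀ g ∈ U, g β = -β → ξ g = -1 := fun g hg hh => by
    simp only [ξ, if_pos hg]
    rw [if_neg]
    rw [hh]; exact hne
  refine ⟨ξ, ⟨fun g hg => by simp [ξ, hg], ?_, ?_, ?_, ?_⟩, fun g hg => ⟨h1 g hg, h2 g hg⟩⟩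
  · exact h1 1 U.one_mem rfl
  · intro g hg k hk
    have e : (g * k) β = g (k β) := rfl
    rcases hpm g hg with a | a <;> rcases hpm k hk with b | b
    · rw [h1 g hg a, h1 k hk b, h1 (g * k) (U.mul_mem hg hk) (by rw [e, b, a])]; norm_num
    · rw [h1 g hg a, h2 k hk b, h2 (g * k) (U.mul_mem hg hk) (by rw [e, b, map_neg, a])]; norm_num
    · rw [h2 g hg a, h1 k hk b, h2 (g * k) (U.mul_mem hg hk) (by rw [e, b, a])]; norm_num
    · rw [h2 g hg a, h2 k hk b,
        h1 (g * k) (U.mul_mem hg hk) (by rw [e, b, map_neg, a, neg_neg])]; norm_num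
  · intro g hg
    rcases hpm g hg with a | a
    · rw [h1 g hg a]; norm_num
    · rw [h2 g hg a]; norm_num
  · refine ⟨ℚ⟮β⟯.fixingSubgroup ⊓ U, ?_, inf_le_right, fun g hg => h1 g hg.2 ?_⟩
    · haveI : FiniteDimensional ℚ ℚ⟮β⟯ :=
        adjoin.finiteDimensional (Algebra.IsIntegral.isIntegral β)
      exact (ℚ⟮β⟯.fixingSubgroup_isOpen).inter hU
    · exact (IntermediateField.mem_fixingSubgroup_iff _ _).mp hg.1 β (mem_adjoin_simple_self ℚ β)

theorem XX_sign (U : Subgroup Ga) (hU : IsOpen (U : Set Ga)) (s : Ga → ℂ)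
    (hs : ∀ x ∈ XX, x ∈ U → s x = 1 ∨ s x = -1)
    (hs' : ∀ x ∈ XX, x ∈ U → ∀ u ∈ U, s (u⁻¹ * x * u) = s x) :
    ∃ ξ : Ga → ℂ, IsChar 2 U ξ ∧ ∀ x ∈ XX, x ∈ U → ξ x = s x := by
  classical
  obtain ⟨hK, hfin⟩ := open_field U hU
  set K := fixedField U with hKdef
  haveI : NumberField K := @NumberField.mk _ _ inferInstance hfin
  let ρ : (Om →+* ℂ) → (K →+* ℂ) := fun ι => ι.comp (algebraMap K Om)
  let S : InfinitePlace K → Prop := fun v =>
    ∃ x ∈ XX, x ∈ U ∧ s x = 1 ∧ ∃ ι, ComplexEmbedding.IsConj ι x ∧ InfinitePlace.mk (ρ ι) = v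
  have hfix : ∀ x ∈ U, ∀ k : K, x (k : Om) = k := by
    intro x hx k
    rw [← hK] at hx
    exact (IntermediateField.mem_fixingSubgroup_iff _ _).mp hx k k.2
  have hreal : ∀ x ∈ U, ∀ ι, ComplexEmbedding.IsConj ι x → ∀ k : K, star (ρ ι k) = ρ ι k := by
    intro x hx ι hι k
    exact cc_real hι (hfix x hx k)
  have hS : ∀ x ∈ XX, x ∈ U → ∀ ι, ComplexEmbedding.IsConj ι x → (S (InfinitePlace.mk (ρ ι)) ↔ s x = 1) := by
    intro x hx hxU ι hι
    constructor
    · rintro ⟨x', hx', hx'U, hsx', ι', hι', hmk⟩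
      have h1 : ρ ι' = ρ ι := by
        rcases InfinitePlace.mk_eq_iff.mp hmk with h | h
        · exact h
        · rw [← h]
          ext k
          exact (hreal x' hx'U ι' hι' k).symm
      obtain ⟨g, hg, hgx⟩ := real_conj (K := K) hι' hι (fun k hk =>
        RingHom.congr_fun h1 ⟨k, hk⟩)
      rw [hK] at hg
      rw [hgx, hs' x' hx' hx'U g hg, hsx']
    · intro h
      exact ⟨x, hx, hxU, h, ι, hι, rfl⟩
  obtain ⟨b, hb⟩ := exists_signs K S
  obtain ⟨β, hβ⟩ := IsAlgClosed.exists_eq_mul_self (b : Om)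
  by_cases hb0 : b = 0
  · -- then there are no infinite places, absurd
    exfalso
    obtain ⟨v⟩ : Nonempty (InfinitePlace K) := inferInstance
    obtain ⟨h1, h2⟩ := hb v
    by_cases hv : S v
    · have := h1 hv
      rw [hb0, zero_sub, ← InfinitePlace.norm_embedding_eq] at this
      simp at this
    · have := h2 hv
      rw [hb0, zero_add, ← InfinitePlace.norm_embedding_eq] at this
      simp at this
  have hβ0 : β ≠ 0 := by
    rintro rfl
    rw [mul_zero] at hβ
    exact hb0 (by exact_mod_cast hβ)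
  obtain ⟨ξ, hξ, hξ1⟩ := root_char U hU β hβ0 (fun g hg => by
    rw [← hβ]; exact hfix g hg b)
  refine ⟨ξ, hξ, ?_⟩
  rintro x ⟨ι, hι⟩ hxU
  have h1 := real_of_star (hreal x hxU ι hι b)
  have h2 : ι β * ι β = (((ρ ι b).re : ℝ) : ℂ) := by
    rw [← map_mul, ← hβ]; exact h1
  have hnorm : ∀ e : K, InfinitePlace.mk (ρ ι) e = ‖ρ ι e‖ := fun e => rfl
  rcases hs x ⟨ι, hι⟩ hxU with h | h
  · have h3 := (hb (InfinitePlace.mk (ρ ι))).1 ((hS x ⟨ι, hι⟩ hxU ι hι).mpr h)
    rw [hnorm, map_sub, map_one, h1] at h3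
    have h4 : ‖(((ρ ι b).re - 1 : ℝ) : ℂ)‖ < 1 := by push_cast; exact h3
    rw [Complex.norm_real, Real.norm_eq_abs] at h4
    have h5 : 0 < (ρ ι b).re := by
      have := (abs_lt.mp h4).1; linarith
    rw [h]
    exact (hξ1 x hxU).1 (cc_fix hι (conj_real h2 h5))
  · have hn : ¬ S (InfinitePlace.mk (ρ ι)) := fun h' => by
      have := (hS x ⟨ι, hι⟩ hxU ι hι).mp h'
      rw [h] at this; norm_num at this
    have h3 := (hb (InfinitePlace.mk (ρ ι))).2 hn
    rw [hnorm, map_add, map_one, h1] at h3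
    have h4 : ‖(((ρ ι b).re + 1 : ℝ) : ℂ)‖ < 1 := by push_cast; exact h3
    rw [Complex.norm_real, Real.norm_eq_abs] at h4
    have h5 : (ρ ι b).re < 0 := by
      have := (abs_lt.mp h4).2; linarith
    rw [h]
    refine (hξ1 x hxU).2 (ι.injective ?_)
    rw [hι.eq, map_neg]
    exact conj_imag h2 h5

theorem dataXX : Data XX where
  sq := XX_sq
  conj := XX_conj
  cen := by
    rintro x ⟨ι, hι⟩ g h
    exact cc_cen hι g h
  sign := XX_sign

/-- open subgroups without complex conjugations have totally complex fixed field -/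
theorem totComplex (W : Subgroup Ga) (hW : IsOpen (W : Set Ga)) (h : ∀ x ∈ XX, x ∉ W) :
    IsTotallyComplex (fixedField W) := by
  obtain ⟨hK, hfin⟩ := open_field W hW
  set K := fixedField W with hKdef
  haveI : NumberField K := @NumberField.mk _ _ inferInstance hfin
  refine ⟨fun v => ?_⟩
  rw [← InfinitePlace.not_isReal_iff_isComplex]
  intro hv
  have h1 : ComplexEmbedding.IsReal v.embedding := InfinitePlace.isReal_iff.mp hv
  haveI : Algebra.IsAlgebraic K Om := Algebra.IsAlgebraic.tower_top (K := ℚ) K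
  let ι : Om →+* ℂ := ComplexEmbedding.lift Om v.embedding
  obtain ⟨c, hc⟩ := exists_cc ι
  apply h c ⟨ι, hc⟩
  rw [← hK, IntermediateField.mem_fixingSubgroup_iff]
  intro k hk
  apply cc_fix hc
  have h2 : ι k = v.embedding ⟨k, hk⟩ :=
    ComplexEmbedding.lift_algebraMap_apply Om v.embedding ⟨k, hk⟩
  rw [h2]
  exact RingHom.congr_fun h1 _

end Pool.Agent.R493.ST
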