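import Pool.Agent.R493.ST.G2

set_option autoImplicit false
set_option linter.all false

namespace Pool.Agent.R493.ST

open IntermediateField

/-- `F` has finite degree over `k` -/
def IsNF {k Ω : Type} [Field k] [Field Ω] [Algebra k Ω] (F : IntermediateField k Ω) : Prop :=
  FiniteDimensional k F

/-- `F` has no real embedding -/
def TC {k Ω : Type} [Field k] [Field Ω] [Algebra k Ω] (F : IntermediateField k Ω) : Prop :=
  ¬ ∃ τ : F →+* ℂ, ∀ z, star (τ z) = τ z

/-- `c` is the complex conjugation for an embedding into `ℂ` -/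
def CC {k Ω : Type} [Field k] [Field Ω] [Algebra k Ω] (c : Gal(Ω/k)) : Prop :=
  ∃ ι : Ω →+* ℂ, ∀ x, ι (c x) = star (ι x)

theorem open_gen {k Ω : Type} [Field k] [Field Ω] [Algebra k Ω] [IsGalois k Ω]
    (U : Subgroup Gal(Ω/k)) (hU : IsOpen (U : Set Gal(Ω/k))) :
    (fixedField U).fixingSubgroup = U ∧ IsNF (fixedField U) := by
  have h1 : (fixedField U).fixingSubgroup = U :=
    InfiniteGalois.fixingSubgroup_fixedField ⟨U, U.isClosed_of_isOpen hU⟩
  refine ⟨h1, (InfiniteGalois.isOpen_iff_finite _).mp ?_⟩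
  rw [h1]; exact hU

theorem gen (A : Algebra ℚ Om) :
    @Data (@AlgEquiv ℚ Om Om _ _ _ A A) _ (@krullTopology ℚ Om _ _ A) {c | @CC ℚ Om _ _ A c} ∧
    ∀ F : @IntermediateField ℚ Om _ _ A, @IsNF ℚ Om _ _ A F →
      (∀ c, @CC ℚ Om _ _ A c → c ∉ @IntermediateField.fixingSubgroup ℚ _ Om _ A F) →
      @TC ℚ Om _ _ A F := by
  have hA : A = DivisionRing.toRatAlgebra := Subsingleton.elim _ _
  subst hA
  have hXX : {c : Ga | CC c} = XX := by
    ext c
    constructor
    · rintro ⟨ι, h⟩
      exact ⟨ι, RingHom.ext fun x => (h x).symm⟩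
    · rintro ⟨ι, h⟩
      exact ⟨ι, fun x => h.eq x⟩
  constructor
  · rw [hXX]; exact dataXX
  · rintro F hF h ⟨τ, hτ⟩
    have hF' : FiniteDimensional ℚ F := hF
    have hopen : IsOpen (F.fixingSubgroup : Set Ga) := F.fixingSubgroup_isOpen
    have h1 := totComplex F.fixingSubgroup hopen (by
      intro x hx
      rw [← hXX] at hx
      exact h x hx)
    have h2 : fixedField F.fixingSubgroup = F := InfiniteGalois.fixedField_fixingSubgroup F
    rw [h2] at h1
    exact h1.complexEmbedding_not_isReal τ (RingHom.ext hτ)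

end Pool.Agent.R493.ST
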