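import Mathlib
import Pool.Agent.R493.ST.Str
/-!
# Patterns of consecutive primes with indices in given classes, common to several scales
-/

namespace Pool.Agent.R493.ST

open Finset Filter
open Pool.Agent.Y876.FF (LH trace_int)

theorem pc_step {p q : ℕ} (hpq : p < q) (hq : q.Prime) (hno : ∀ m, p < m → m < q → ¬ m.Prime) :
    q.primeCounting = p.primeCounting + 1 := by
  have h1 : q.primeCounting = Nat.count Nat.Prime (q + 1) := rfl
  have h2 : p.primeCounting = Nat.count Nat.Prime (p + 1) := rfl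
  rw [h1, h2, Nat.count_succ, if_pos hq]
  congr 1
  obtain ⟨d, rfl⟩ := Nat.exists_eq_add_of_le (Nat.succ_le_of_lt hpq)
  rw [Nat.count_add, Nat.count_eq_card_filter_range (fun k => Nat.Prime (p.succ + k)) d,
    Finset.filter_false_of_mem, card_empty, add_zero]
  intro j hj
  rw [mem_range] at hj
  exact hno _ (by omega) (by omega)

/-- the primes between `n + min F - M` and `n + max F + M` are the numbers `n + v`, `v ∈ F`, and the
index of the least of them is `c` modulo `N` -/
def Idx (M N c : ℕ) (F : Finset ℕ) (n : ℕ) : Prop :=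
  (∀ m : ℕ, (∃ v ∈ F, n + v ≤ m + M) → (∃ v ∈ F, m ≤ n + v + M) → (m.Prime ↔ ∃ v ∈ F, m = n + v)) ∧
    ∀ v ∈ F, (∀ w ∈ F, v ≤ w) → (n + v).primeCounting ≡ c [MOD N]

theorem const_loss (C : ℕ) (m : ℝ) (hm : 0 < m) : ∀ᶠ x : ℝ in atTop,
    x / Real.log x ^ (C + 1) ≤ x / Real.log x ^ C / m := by
  have hl : ∀ᶠ x : ℝ in atTop, m ≤ Real.log x := Real.tendsto_log_atTop.eventually_ge_atTop _
  filter_upwards [hl, eventually_ge_atTop (1 : ℝ)] with x h1 h2
  have h3 : 0 < Real.log x := by linarith
  rw [pow_succ, ← div_div]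
  exact div_le_div_of_nonneg_left (by positivity) hm h1

theorem idx_one (k m : ℕ) : ∃ K C : ℕ, ∀ M q b : ℕ, 1 ≤ q → ∀ V : Finset ℕ,
    (∀ u ∈ V, ∀ v ∈ V, u < v → u + M < v) → (∀ v ∈ V, M ≤ v) →
    (∀ p : ℕ, p.Prime → ∃ n : ℕ, ∀ v ∈ V, ¬ p ∣ q * n + (b + v)) →
    ∀ᶠ x : ℝ in atTop, ∀ W ⊆ V, K ≤ W.card → ∀ N c, 1 ≤ N → N ≤ m → ∀ s, 1 ≤ s → s ≤ k + 1 →
      ∃ F ⊆ W, F.card = s ∧ x / Real.log x ^ C ≤
        (({t : ℕ | (t : ℝ) ≤ x ∧ Idx M N c F (q * t + b)}.ncard : ℕ) : ℝ) := by
  classical
  obtain ⟨K, C, hK, hLH⟩ := lhAll (k + m)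
  refine ⟨K, C + 3 + 1, fun M q b hq V hsep hVM hloc => ?_⟩
  have key : ∀ W ∈ V.powerset, ∀ᶠ x : ℝ in atTop, K ≤ W.card → ∃ T ⊆ W, k + m + 1 ≤ T.card ∧
      x / Real.log x ^ (C + 3) ≤ (({t : ℕ | (t : ℝ) ≤ x ∧
        ∀ y ≤ V.sup id + M, ((q * t + b + y).Prime ↔ y ∈ T)}.ncard : ℕ) : ℝ) := by
    intro W hW
    have hWV := mem_powerset.1 hW
    by_cases hWK : K ≤ W.card
    · set e : ℕ := V.sup id + M + 1 with he
      have hVm : ∀ v ∈ V, v < e := by
        intro v hv
        have h3 : v ≤ V.sup id := Finset.le_sup (f := id) hv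
        omega
      set S' : Finset (Fin e) := univ.filter (fun i => (i : ℕ) ∈ W) with hS'
      have hcard : S'.card = W.card := by
        apply Finset.card_bij (fun (i : Fin e) _ => (i : ℕ))
        · intro i hi
          exact (mem_filter.1 hi).2
        · intro i _ j _ h
          exact Fin.ext h
        · intro v hv
          exact ⟨⟨v, hVm v (hWV hv)⟩, mem_filter.2 ⟨mem_univ _, hv⟩, rfl⟩
      have hq0 : (q : ℤ) ≠ 0 := by exact_mod_cast (by omega : q ≠ 0)
      have hex := trace_int hLH (fun _ : Fin e => (q : ℤ)) (fun i : Fin e => ((b + i : ℕ) : ℤ))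
        (fun i => by exact_mod_cast (by omega : 0 < q))
        (fun i j hij h => by
          have h1 := mul_left_cancel₀ hq0 h
          rw [Nat.cast_inj] at h1
          exact hij (Fin.ext (by omega)))
        S' (by rw [hcard]; exact hWK)
        (by
          intro p hp
          obtain ⟨n, hn⟩ := hloc p hp
          refine ⟨n, fun i hi hd => hn i (hWV (mem_filter.1 hi).2) ?_⟩
          exact_mod_cast hd)
      filter_upwards [hex] with x hx _
      obtain ⟨T, hT1, hT2, hT3⟩ := hx
      refine ⟨T.image (fun i : Fin e => (i : ℕ)), ?_, ?_, hT3.trans (Nat.cast_le.2 ?_)⟩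
      · intro v hv
        obtain ⟨i, hi, rfl⟩ := mem_image.1 hv
        exact (mem_filter.1 (hT1 hi)).2
      · rw [card_image_of_injective _ Fin.val_injective]
        exact hT2
      · apply Set.ncard_le_ncard
        · rintro t ⟨h3, h4⟩
          refine ⟨h3, fun y hy => ?_⟩
          have h5 : y < e := by omega
          have h6 := h4 ⟨y, h5⟩
          have h7 : ((q : ℤ) * (t : ℤ) + ((b + y : ℕ) : ℤ)).natAbs = q * t + b + y := by
            have : (q : ℤ) * (t : ℤ) + ((b + y : ℕ) : ℤ) = ((q * t + b + y : ℕ) : ℤ) := by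
              push_cast; ring
            rw [this, Int.natAbs_natCast]
          rw [h7] at h6
          rw [h6]
          constructor
          · intro h7
            exact mem_image.2 ⟨_, h7, rfl⟩
          · intro h7
            obtain ⟨i, hi, hij⟩ := mem_image.1 h7
            have : i = ⟨y, h5⟩ := Fin.ext hij
            rwa [← this]
        · apply (Set.finite_Iic ⌊x⌋₊).subset
          rintro n ⟨h3, _⟩
          exact Nat.le_floor h3
    · exact Filter.Eventually.of_forall (fun x h => absurd h hWK)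
  have h1 := (Filter.eventually_all_finset V.powerset).2 key
  filter_upwards [h1, const_loss (C + 3) (m + 1) (by positivity), eventually_ge_atTop (3 : ℝ)]
    with x hx hxm hx3 W hW hWK N c hN1 hNm s hs1 hsk
  obtain ⟨T, hTW, hTk, hcnt⟩ := hx W (mem_powerset.2 hW) hWK
  have hTV : T ⊆ V := hTW.trans hW
  have hlog : 0 < Real.log x := Real.log_pos (by linarith)
  -- the elements of `T` in order
  set τ : Fin T.card → ℕ := fun i => T.orderEmbOfFin rfl i with hτ
  have hτmono : ∀ i j : Fin T.card, i < j → τ i < τ j := fun i j h =>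
    (T.orderEmbOfFin rfl).strictMono h
  have hτT : ∀ i, τ i ∈ T := fun i => T.orderEmbOfFin_mem rfl i
  have hτsurj : ∀ y ∈ T, ∃ i, τ i = y := by
    intro y hy
    have h2 : y ∈ Set.range (T.orderEmbOfFin rfl) := by
      rw [T.range_orderEmbOfFin rfl]
      exact hy
    exact h2
  have hT0 : 0 < T.card := by omega
  set S : Finset ℕ := (Iic ⌊x⌋₊).filter (fun t => ∀ y ≤ V.sup id + M, ((q * t + b + y).Prime ↔ y ∈ T))
    with hS
  have hSset : {t : ℕ | (t : ℝ) ≤ x ∧ ∀ y ≤ V.sup id + M, ((q * t + b + y).Prime ↔ y ∈ T)} = (S : Set ℕ) := by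
    ext t
    simp only [Set.mem_ofPred_eq, hS, coe_filter, mem_Iic, Nat.le_floor_iff (by linarith : (0:ℝ) ≤ x)]
  rw [hSset, Set.ncard_coe_finset] at hcnt
  have hsupT : ∀ i, τ i ≤ V.sup id := fun i => Finset.le_sup (f := id) (hTV (hτT i))
  -- the indices of the primes
  have hstep : ∀ t ∈ S, ∀ i : ℕ, ∀ hi : i < T.card,
      (q * t + b + τ ⟨i, hi⟩).primeCounting = (q * t + b + τ ⟨0, hT0⟩).primeCounting + i := by
    intro t ht i
    have ht' := (mem_filter.1 ht).2
    induction i with
    | zero => intro _; rfl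
    | succ i ih =>
      intro hi
      have hi' : i < T.card := by omega
      rw [← add_assoc, ← ih hi']
      have h2 := hτmono ⟨i, hi'⟩ ⟨i + 1, hi⟩ (by rw [Fin.lt_def]; show i < i + 1; omega)
      apply pc_step (by omega)
      · exact (ht' _ ((hsupT _).trans (Nat.le_add_right _ _))).2 (hτT _)
      · intro r hr1 hr2 hrp
        have h3 := hsupT ⟨i + 1, hi⟩
        obtain ⟨y, rfl⟩ : ∃ y, r = q * t + b + y := ⟨r - (q * t + b), by omega⟩
        obtain ⟨j, hj⟩ := hτsurj y ((ht' y (by omega)).1 hrp)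
        have h4 : τ ⟨i, hi'⟩ < τ j := by omega
        have h5 : τ j < τ ⟨i + 1, hi⟩ := by omega
        have h6 : ⟨i, hi'⟩ < j := by
          by_contra hle
          rcases lt_or_eq_of_le (not_lt.1 hle) with h | h
          · exact absurd (hτmono _ _ h) (by omega)
          · rw [h] at h4; exact lt_irrefl _ h4
        have h7 : j < ⟨i + 1, hi⟩ := by
          by_contra hle
          rcases lt_or_eq_of_le (not_lt.1 hle) with h | h
          · exact absurd (hτmono _ _ h) (by omega)
          · rw [h] at h5; exact lt_irrefl _ h5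
        rw [Fin.lt_def] at h6 h7
        simp only at h6 h7
        omega
  -- pigeonhole on the position of the index class
  have hpig : ∃ i < N, (S.card : ℝ) ≤ N * ((S.filter (fun t =>
      (q * t + b + τ ⟨0, hT0⟩).primeCounting + i ≡ c [MOD N])).card : ℝ) := by
    have hmaps : ∀ t ∈ S, (c + N * (q * t + b + τ ⟨0, hT0⟩).primeCounting -
        (q * t + b + τ ⟨0, hT0⟩).primeCounting) % N ∈ range N := fun t _ =>
      mem_range.2 (Nat.mod_lt _ (by omega))
    by_contra hcon
    push Not at hcon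
    have h2 : ∑ i ∈ range N, ((S.filter (fun t =>
        (q * t + b + τ ⟨0, hT0⟩).primeCounting + i ≡ c [MOD N])).card : ℝ) * N <
        ∑ i ∈ range N, (S.card : ℝ) := by
      apply Finset.sum_lt_sum_of_nonempty ⟨0, mem_range.2 (by omega)⟩
      intro i hi
      have := hcon i (mem_range.1 hi)
      linarith
    rw [sum_const, card_range, nsmul_eq_mul, ← Finset.sum_mul] at h2
    have hN0 : (0 : ℝ) < N := by exact_mod_cast (by omega : 0 < N)
    have h3 : (∑ i ∈ range N, ((S.filter (fun t =>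
        (q * t + b + τ ⟨0, hT0⟩).primeCounting + i ≡ c [MOD N])).card : ℝ)) < S.card := by
      by_contra hge
      push Not at hge
      have := mul_le_mul_of_nonneg_right hge hN0.le
      linarith
    have h4 : S.card ≤ ∑ i ∈ range N, (S.filter (fun t =>
        (q * t + b + τ ⟨0, hT0⟩).primeCounting + i ≡ c [MOD N])).card := by
      have h5 : S ⊆ (range N).biUnion (fun i => S.filter (fun t =>
          (q * t + b + τ ⟨0, hT0⟩).primeCounting + i ≡ c [MOD N])) := by
        intro t ht
        rw [mem_biUnion]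
        refine ⟨_, hmaps t ht, mem_filter.2 ⟨ht, ?_⟩⟩
        set π₀ := (q * t + b + τ ⟨0, hT0⟩).primeCounting with hπ
        have h6 : π₀ ≤ N * π₀ := Nat.le_mul_of_pos_left _ (by omega)
        have h7 : π₀ + (c + N * π₀ - π₀) % N ≡ π₀ + (c + N * π₀ - π₀) [MOD N] :=
          Nat.ModEq.add_left _ (Nat.mod_modEq _ _)
        have h8 : π₀ + (c + N * π₀ - π₀) = c + N * π₀ := by omega
        rw [h8] at h7
        refine h7.trans ?_
        have h9 : c + N * π₀ ≡ c + 0 [MOD N] :=
          Nat.ModEq.add_left _ ((Nat.modEq_zero_iff_dvd).2 (dvd_mul_right _ _))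
        rwa [add_zero] at h9
      exact (card_le_card h5).trans card_biUnion_le
    have h5 : (S.card : ℝ) ≤ ∑ i ∈ range N, ((S.filter (fun t =>
        (q * t + b + τ ⟨0, hT0⟩).primeCounting + i ≡ c [MOD N])).card : ℝ) := by
      exact_mod_cast h4
    linarith
  obtain ⟨i, hiN, hi⟩ := hpig
  -- the pattern
  have hrank : ∀ j, j < s → i + j < T.card := fun j hj => by omega
  set F : Finset ℕ := (univ : Finset (Fin s)).image (fun j : Fin s => τ ⟨i + j, hrank j j.2⟩) with hF
  have hFT : F ⊆ T := by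
    intro v hv
    obtain ⟨j, _, rfl⟩ := mem_image.1 hv
    exact hτT _
  have hFcard : F.card = s := by
    rw [hF, card_image_of_injective, card_univ, Fintype.card_fin]
    intro j j' hjj
    have h2 := (T.orderEmbOfFin rfl).injective hjj
    rw [Fin.mk.injEq] at h2
    exact Fin.ext (by omega)
  have hFmem : ∀ j : Fin T.card, i ≤ (j : ℕ) → (j : ℕ) < i + s → τ j ∈ F := by
    intro j h2 h3
    rw [hF, mem_image]
    refine ⟨⟨(j : ℕ) - i, by omega⟩, mem_univ _, ?_⟩
    congr 1
    exact Fin.ext (by show i + ((j : ℕ) - i) = j; omega)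
  have hFge : ∀ v ∈ F, τ ⟨i, by omega⟩ ≤ v := by
    intro v hv
    obtain ⟨j, _, rfl⟩ := mem_image.1 hv
    rcases Nat.eq_zero_or_pos (j : ℕ) with h0 | h0
    · apply le_of_eq
      congr 1
      exact Fin.ext (by show i = i + j; omega)
    · exact (hτmono _ _ (by rw [Fin.lt_def]; show i < i + j; omega)).le
  have hFle : ∀ v ∈ F, v ≤ τ ⟨i + s - 1, by omega⟩ := by
    intro v hv
    obtain ⟨j, _, rfl⟩ := mem_image.1 hv
    have hj := j.2
    rcases Nat.eq_or_lt_of_le (show (j : ℕ) ≤ s - 1 by omega) with h0 | h0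
    · apply le_of_eq
      congr 1
      exact Fin.ext (by show i + (j : ℕ) = i + s - 1; omega)
    · exact (hτmono _ _ (by rw [Fin.lt_def]; show i + (j : ℕ) < i + s - 1; omega)).le
  refine ⟨F, hFT.trans hTW, hFcard, ?_⟩
  have h2 : ((S.filter (fun t => (q * t + b + τ ⟨0, hT0⟩).primeCounting + i ≡ c [MOD N])).card : ℝ) ≤
      (({t : ℕ | (t : ℝ) ≤ x ∧ Idx M N c F (q * t + b)}.ncard : ℕ) : ℝ) := by
    rw [Nat.cast_le, ← Set.ncard_coe_finset]
    apply Set.ncard_le_ncard
    · intro t ht
      obtain ⟨htS, hti⟩ := mem_filter.1 (mem_coe.1 ht)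
      obtain ⟨ht1, ht2⟩ := mem_filter.1 htS
      refine ⟨(Nat.le_floor_iff (by linarith)).1 (mem_Iic.1 ht1), ?_, ?_⟩
      · rintro r ⟨v, hv, hvr⟩ ⟨w, hw, hrw⟩
        have hvM := hVM v (hTV (hFT hv))
        obtain ⟨y, rfl⟩ : ∃ y, r = q * t + b + y := ⟨r - (q * t + b), by omega⟩
        have h3 := hFge v hv
        have h4 := hFle w hw
        have h5 := hsupT ⟨i + s - 1, by omega⟩
        rw [ht2 y (by omega)]
        constructor
        · intro hy
          obtain ⟨j, hj⟩ := hτsurj y hy
          have h6 : i ≤ (j : ℕ) := by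
            by_contra hlt
            have h7 := hτmono j ⟨i, by omega⟩ (by rw [Fin.lt_def]; show (j : ℕ) < i; omega)
            have h8 := hsep _ (hTV (hτT j)) _ (hTV (hτT ⟨i, by omega⟩)) h7
            omega
          have h7 : (j : ℕ) < i + s := by
            by_contra hge
            have h8 := hτmono ⟨i + s - 1, by omega⟩ j (by rw [Fin.lt_def]; show i + s - 1 < (j : ℕ); omega)
            have h9 := hsep _ (hTV (hτT ⟨i + s - 1, by omega⟩)) _ (hTV (hτT j)) h8
            omega
          exact ⟨y, by rw [← hj]; exact hFmem j h6 h7, rfl⟩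
        · rintro ⟨u, hu, hur⟩
          have : y = u := by omega
          rw [this]
          exact hFT hu
      · intro v hv hmin
        have h3 : v = τ ⟨i, by omega⟩ := by
          apply le_antisymm
          · exact hmin _ (hFmem ⟨i, by omega⟩ le_rfl (by show i < i + s; omega))
          · exact hFge v hv
        rw [h3, hstep t htS i (by omega)]
        exact hti
    · apply (Set.finite_Iic ⌊x⌋₊).subset
      rintro n ⟨h3, _⟩
      exact Nat.le_floor h3
  have hN0 : (0 : ℝ) < N := by exact_mod_cast (by omega : 0 < N)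
  have h3 : x / Real.log x ^ (C + 3) / N ≤ ((S.filter (fun t =>
      (q * t + b + τ ⟨0, hT0⟩).primeCounting + i ≡ c [MOD N])).card : ℝ) := by
    rw [div_le_iff₀ hN0]
    linarith
  have h4 : x / Real.log x ^ (C + 3) / (m + 1) ≤ x / Real.log x ^ (C + 3) / N := by
    apply div_le_div_of_nonneg_left (by positivity) hN0
    have : (N : ℝ) ≤ m := by exact_mod_cast hNm
    linarith
  linarith

end Pool.Agent.R493.ST
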