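import Mathlib
import Pool.Agent.R493.ST.Idx
/-!
# Patterns of consecutive primes with indices in given classes, common to several scales
-/

namespace Pool.Agent.R493.ST

open Finset Filter

/-- The number of the `n ≤ x`, `n ≡ a (mod q)`, for which the primes between `n + min φ(F) - M` and
`n + max φ(F) + M` are exactly the numbers `n + φ v`, `v ∈ F`, and the index of the least of them is `c`
modulo `N`. -/
noncomputable def idxN (q a M N c : ℕ) (φ : ℕ → ℕ) (F : Finset ℕ) (x : ℝ) : ℕ :=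
  {n : ℕ | (n : ℝ) ≤ x ∧ n ≡ a [MOD q] ∧ Idx M N c (F.image φ) n}.ncard

theorem idx_shift {M N c n : ℕ} {G : Finset ℕ} (h : Idx M N c (G.image (fun v => v + M)) n) :
    Idx M N c G (n + M) := by
  have hmem : ∀ v, v ∈ G → v + M ∈ G.image (fun v => v + M) := fun v hv => mem_image.2 ⟨v, hv, rfl⟩
  constructor
  · rintro m ⟨v, hv, h1⟩ ⟨w, hw, h2⟩
    rw [h.1 m ⟨v + M, hmem v hv, by omega⟩ ⟨w + M, hmem w hw, by omega⟩]
    constructor
    · rintro ⟨u, hu, hum⟩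
      obtain ⟨u', hu', rfl⟩ := mem_image.1 hu
      exact ⟨u', hu', by omega⟩
    · rintro ⟨u, hu, hum⟩
      exact ⟨u + M, hmem u hu, by omega⟩
  · intro v hv hmin
    have h1 := h.2 (v + M) (hmem v hv) (by
      intro w hw
      obtain ⟨w', hw', rfl⟩ := mem_image.1 hw
      have := hmin w' hw'
      omega)
    have e : n + M + v = n + (v + M) := by omega
    rw [e]
    exact h1

theorem idxStrings (k m : ℕ) : ∃ B : ℕ, ∀ L R M : ℕ, ∃ K : ℕ, ∀ V : Finset ℕ, K ≤ V.card →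
    ∀ φ : Fin R → ℕ → ℕ, (∀ ρ, Set.InjOn (φ ρ) V) → ∀ Q : ℕ, ∃ x₀ : ℝ,
    ∀ (q a N c : Fin R → ℕ) (x : Fin R → ℝ),
      (∀ ρ, 1 ≤ q ρ ∧ q ρ ≤ Q ∧ (∀ v ∈ V, (a ρ + φ ρ v).Coprime (q ρ)) ∧ 1 ≤ N ρ ∧ N ρ ≤ m ∧
        x₀ ≤ x ρ) →
      ∃ W ⊆ V, W.card = L ∧ ∀ ρ, ∀ F ⊆ W, 1 ≤ F.card → F.card ≤ k + 1 →
        x ρ / Real.log (x ρ) ^ B ≤ (idxN (q ρ) (a ρ) M (N ρ) (c ρ) (φ ρ) F (x ρ) : ℝ) := by
  classical
  obtain ⟨K₁, C, hone⟩ := idx_one k m
  refine ⟨C + 1, fun L R M => ?_⟩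
  obtain ⟨K₂, hK₂⟩ := hitting (univ : Finset (Fin R × Fin (k + 1))) (fun i => (i.2 : ℕ) + 1)
    (fun _ => K₁) L
  set P : ℕ := (K₂ + M + 1).factorial with hP
  have hP1 : K₂ + M + 1 ≤ P := Nat.self_le_factorial _
  have hP0 : 0 < P := by omega
  refine ⟨P ^ R * K₂, fun V hV φ hinj Q => ?_⟩
  -- a subset in one residue class
  obtain ⟨r, -, hr⟩ := Finset.exists_le_card_fiber_of_mul_le_card_of_maps_to (s := V)
    (t := (univ : Finset (Fin R → Fin P))) (n := K₂)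
    (f := fun v ρ => ⟨φ ρ v % P, Nat.mod_lt _ hP0⟩) (fun _ _ => mem_univ _)
    ⟨fun _ => ⟨0, hP0⟩, mem_univ _⟩ (by
      rw [card_univ, Fintype.card_fun, Fintype.card_fin, Fintype.card_fin]
      exact hV)
  obtain ⟨V₁, hV₁, hV₁N⟩ := exists_subset_card_eq hr
  have hV₁V : V₁ ⊆ V := hV₁.trans (filter_subset _ _)
  have hmod : ∀ ρ, ∀ u ∈ V₁, ∀ v ∈ V₁, φ ρ u % P = φ ρ v % P := by
    intro ρ u hu v hv
    have h1 := (mem_filter.1 (hV₁ hu)).2
    have h2 := (mem_filter.1 (hV₁ hv)).2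
    have h3 := congrFun (h1.trans h2.symm) ρ
    simpa using h3
  have hinj₁ : ∀ ρ, Set.InjOn (φ ρ) V₁ := fun ρ => (hinj ρ).mono (by exact_mod_cast hV₁V)
  -- the families
  set J : Finset (Fin R × ℕ × ℕ) := ((univ : Finset (Fin R)) ×ˢ ((Icc 1 Q) ×ˢ (range Q))).filter
    (fun j => ∀ v ∈ V₁, (j.2.2 + φ j.1 v).Coprime j.2.1) with hJ
  have hJq : ∀ j ∈ J, 1 ≤ j.2.1 := by
    intro j hj
    have h1 := (mem_filter.1 hj).1
    rw [mem_product, mem_product, mem_Icc] at h1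
    exact h1.2.1.1
  have hev : ∀ᶠ x : ℝ in atTop, ∀ j ∈ J, ∀ W ⊆ V₁.image (fun v => φ j.1 v + M), K₁ ≤ W.card →
      ∀ N c, 1 ≤ N → N ≤ m → ∀ s, 1 ≤ s → s ≤ k + 1 → ∃ F ⊆ W, F.card = s ∧
        x / Real.log x ^ C ≤ (({t : ℕ | (t : ℝ) ≤ x ∧
          Idx M N c F (j.2.1 * t + (j.2.2 + (j.2.1 - 1) * M))}.ncard : ℕ) : ℝ) := by
    rw [Filter.eventually_all_finset]
    intro j hj
    have h1 := hJq j hj
    have hcop := (mem_filter.1 hj).2
    apply hone M j.2.1 (j.2.2 + (j.2.1 - 1) * M) h1 (V₁.image (fun v => φ j.1 v + M))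
    · intro u hu v hv huv
      obtain ⟨u', hu', rfl⟩ := mem_image.1 hu
      obtain ⟨v', hv', rfl⟩ := mem_image.1 hv
      have h3 := hmod j.1 u' hu' v' hv'
      have h4 : P ∣ φ j.1 v' - φ j.1 u' := (Nat.modEq_iff_dvd' (by omega)).1 h3
      have h5 := Nat.le_of_dvd (by omega) h4
      omega
    · intro v hv
      obtain ⟨v', hv', rfl⟩ := mem_image.1 hv
      omega
    · intro p hp
      suffices hs : ∃ n : ℕ, ∀ v ∈ V₁, ¬ p ∣ j.2.1 * n + (j.2.2 + (j.2.1 - 1) * M + (φ j.1 v + M)) by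
        obtain ⟨n, hn⟩ := hs
        refine ⟨n, fun v hv hd => ?_⟩
        obtain ⟨v', hv', rfl⟩ := mem_image.1 hv
        exact hn v' hv' hd
      have e : ∀ v, j.2.2 + (j.2.1 - 1) * M + (φ j.1 v + M) = j.2.1 * M + (j.2.2 + φ j.1 v) := by
        intro v
        obtain ⟨r, hr⟩ := Nat.exists_eq_add_of_le h1
        rw [hr]
        have : 1 + r - 1 = r := by omega
        rw [this]
        ring
      by_cases hpq : p ∣ j.2.1
      · refine ⟨0, fun v hv hd => ?_⟩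
        rw [e, mul_zero, zero_add] at hd
        have h2 := (Nat.dvd_add_right (hpq.mul_right M)).1 hd
        have h3 := Nat.dvd_gcd h2 hpq
        rw [hcop v hv] at h3
        exact hp.one_lt.ne' (Nat.dvd_one.1 h3)
      · by_cases hpN : p ≤ K₂
        · rcases V₁.eq_empty_or_nonempty with h0 | ⟨v₀, hv₀⟩
          · exact ⟨0, fun v hv => by rw [h0] at hv; exact absurd hv (notMem_empty _)⟩
          · have hpP : p ∣ P := (Nat.Prime.dvd_factorial hp).2 (by omega)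
            have h2 : ∀ v ∈ V₁, φ j.1 v ≡ φ j.1 v₀ [MOD p] := fun v hv =>
              Nat.ModEq.of_dvd hpP (hmod j.1 v hv v₀ hv₀)
            have h3 : ∀ n, ∀ v ∈ V₁, p ∣ j.2.1 * n + (j.2.2 + (j.2.1 - 1) * M + (φ j.1 v + M)) →
                p ∣ j.2.1 * n + (j.2.2 + (j.2.1 - 1) * M + (φ j.1 v₀ + M)) := by
              intro n v hv hd
              have h4 : j.2.1 * n + (j.2.2 + (j.2.1 - 1) * M + (φ j.1 v + M)) ≡
                  j.2.1 * n + (j.2.2 + (j.2.1 - 1) * M + (φ j.1 v₀ + M)) [MOD p] :=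
                Nat.ModEq.add_left _ (Nat.ModEq.add_left _ (Nat.ModEq.add_right _ (h2 v hv)))
              exact (Nat.modEq_zero_iff_dvd).1 (h4.symm.trans ((Nat.modEq_zero_iff_dvd).2 hd))
            by_cases h5 : p ∣ j.2.1 * 0 + (j.2.2 + (j.2.1 - 1) * M + (φ j.1 v₀ + M))
            · refine ⟨1, fun v hv hd => ?_⟩
              have h6 := h3 1 v hv hd
              rw [mul_zero, zero_add] at h5
              exact hpq (by
                have h7 := (Nat.dvd_add_left h5).1 h6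
                rwa [mul_one] at h7)
            · exact ⟨0, fun v hv hd => h5 (h3 0 v hv hd)⟩
        · exact avoid hp hpq V₁ _ (by omega)
  obtain ⟨x₀, hx₀⟩ := eventually_atTop.1 hev
  set D : ℝ := 2 * ((Q : ℝ) + 1) with hD
  have hQ0 : (0 : ℝ) ≤ Q := Nat.cast_nonneg _
  have hD1 : 1 ≤ D := by linarith
  obtain ⟨x₁, hx₁⟩ := eventually_atTop.1 (div_loss C hD1)
  refine ⟨max (max x₁ (D * x₀)) (max 1 (2 * (Q * (M + 1) : ℝ))), fun q a N c x hqa => ?_⟩
  have hbig : ∀ ρ, x₁ ≤ x ρ ∧ x₀ ≤ x ρ / D ∧ 1 ≤ x ρ ∧ 2 * (Q * (M + 1) : ℝ) ≤ x ρ := by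
    intro ρ
    have h1 := (hqa ρ).2.2.2.2.2
    refine ⟨?_, ?_, ?_, ?_⟩
    · exact (le_max_left _ _).trans ((le_max_left _ _).trans h1)
    · rw [le_div_iff₀ (by linarith), mul_comm]
      exact (le_max_right _ _).trans ((le_max_left _ _).trans h1)
    · exact (le_max_left _ _).trans ((le_max_right _ _).trans h1)
    · exact (le_max_right _ _).trans ((le_max_right _ _).trans h1)
  have hjJ : ∀ ρ, (ρ, q ρ, a ρ % q ρ) ∈ J := by
    intro ρ
    rw [hJ, mem_filter, mem_product, mem_product, mem_Icc, mem_range]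
    have h1 := hqa ρ
    have h2 : a ρ % q ρ < q ρ := Nat.mod_lt _ h1.1
    refine ⟨⟨mem_univ _, ⟨h1.1, h1.2.1⟩, by show a ρ % q ρ < Q; omega⟩, fun v hv => ?_⟩
    have h3 := h1.2.2.1 v (hV₁V hv)
    show (a ρ % q ρ + φ ρ v).Coprime (q ρ)
    have h4 : a ρ % q ρ + φ ρ v ≡ a ρ + φ ρ v [MOD q ρ] := Nat.ModEq.add_right _ (Nat.mod_modEq _ _)
    unfold Nat.Coprime at h3 ⊢
    rw [h4.gcd_eq]
    exact h3
  -- the translation
  have htrans : ∀ ρ, ∀ F ⊆ V₁,
      {t : ℕ | (t : ℝ) ≤ x ρ / D ∧ Idx M (N ρ) (c ρ) (F.image (fun v => φ ρ v + M))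
        (q ρ * t + (a ρ % q ρ + (q ρ - 1) * M))}.ncard ≤
      idxN (q ρ) (a ρ) M (N ρ) (c ρ) (φ ρ) F (x ρ) := by
    intro ρ F hF
    obtain ⟨hq1, hqQ, -, -⟩ := hqa ρ
    unfold idxN
    refine Set.ncard_le_ncard_of_injOn (fun t => q ρ * t + (a ρ % q ρ + (q ρ - 1) * M) + M) ?_ ?_ ?_
    · rintro t ⟨ht1, ht2⟩
      obtain ⟨r, hr⟩ := Nat.exists_eq_add_of_le hq1
      have hr' : q ρ - 1 = r := by omega
      have hqM : q ρ * M = r * M + M := by rw [hr]; ring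
      have e : q ρ * t + (a ρ % q ρ + (q ρ - 1) * M) + M = q ρ * t + a ρ % q ρ + q ρ * M := by
        rw [hr', hqM]; ring
      refine ⟨?_, ?_, ?_⟩
      · show ((q ρ * t + (a ρ % q ρ + (q ρ - 1) * M) + M : ℕ) : ℝ) ≤ x ρ
        rw [e]
        have h2 : (a ρ % q ρ : ℕ) ≤ Q := (Nat.mod_lt _ hq1).le.trans hqQ
        have h3 : ((a ρ % q ρ : ℕ) : ℝ) ≤ Q := by exact_mod_cast h2
        have h4 : (q ρ : ℝ) ≤ Q := by exact_mod_cast hqQ
        have h5 : (q ρ : ℝ) * t ≤ Q * (x ρ / D) :=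
          mul_le_mul h4 ht1 (Nat.cast_nonneg _) hQ0
        have h6 : Q * (x ρ / D) ≤ x ρ / 2 := by
          rw [hD]
          have hx0 : 0 ≤ x ρ := by linarith [(hbig ρ).2.2.1]
          rw [← mul_div_assoc, div_le_div_iff₀ (by positivity) (by norm_num)]
          nlinarith
        have h7 : (q ρ : ℝ) * M ≤ Q * M := mul_le_mul_of_nonneg_right h4 (Nat.cast_nonneg _)
        have h8 := (hbig ρ).2.2.2
        push_cast
        nlinarith
      · show q ρ * t + (a ρ % q ρ + (q ρ - 1) * M) + M ≡ a ρ [MOD q ρ]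
        rw [e]
        have h2 : q ρ * t + a ρ % q ρ + q ρ * M = a ρ % q ρ + q ρ * (t + M) := by ring
        rw [h2]
        have h3 : a ρ % q ρ + q ρ * (t + M) ≡ a ρ % q ρ + 0 [MOD q ρ] :=
          Nat.ModEq.add_left _ ((Nat.modEq_zero_iff_dvd).2 (dvd_mul_right _ _))
        rw [add_zero] at h3
        exact h3.trans (Nat.mod_modEq _ _)
      · have h2 : F.image (fun v => φ ρ v + M) = (F.image (φ ρ)).image (fun v => v + M) := by
          rw [image_image]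
          rfl
        rw [h2] at ht2
        exact idx_shift ht2
    · intro t _ t' _ htt
      have h2 : q ρ * t + (a ρ % q ρ + (q ρ - 1) * M) + M =
        q ρ * t' + (a ρ % q ρ + (q ρ - 1) * M) + M := htt
      have h3 : q ρ * t = q ρ * t' := by omega
      exact Nat.eq_of_mul_eq_mul_left hq1 h3
    · apply (Set.finite_Iic ⌊x ρ⌋₊).subset
      rintro n ⟨h3, _⟩
      exact Nat.le_floor h3
  obtain ⟨W, hWV, hWL, hW⟩ := hK₂ V₁ (by rw [hV₁N])
    (fun i F => x i.1 / Real.log (x i.1) ^ (C + 1) ≤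
      (idxN (q i.1) (a i.1) M (N i.1) (c i.1) (φ i.1) F (x i.1) : ℝ))
    (by
      intro i _ W hWV hWK
      have hin : Set.InjOn (fun v => φ i.1 v + M) W := by
        intro u hu v hv huv
        exact (hinj₁ i.1) (hWV hu) (hWV hv) (Nat.add_right_cancel huv)
      obtain ⟨F, hF, hFs, hFx⟩ := hx₀ (x i.1 / D) (hbig i.1).2.1 (i.1, q i.1, a i.1 % q i.1)
        (hjJ i.1) (W.image (fun v => φ i.1 v + M)) (image_subset_image hWV)
        (by rw [card_image_of_injOn hin]; exact hWK) (N i.1) (c i.1) (hqa i.1).2.2.2.1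
        (hqa i.1).2.2.2.2.1 ((i.2 : ℕ) + 1) (by omega) (by omega)
      have e : (W.filter (fun v => φ i.1 v + M ∈ F)).image (fun v => φ i.1 v + M) = F := by
        ext y
        simp only [mem_image, mem_filter]
        constructor
        · rintro ⟨v, ⟨_, h3⟩, rfl⟩
          exact h3
        · intro hy
          obtain ⟨v, hv, rfl⟩ := mem_image.1 (hF hy)
          exact ⟨v, ⟨hv, hy⟩, rfl⟩
      refine ⟨W.filter (fun v => φ i.1 v + M ∈ F), filter_subset _ _, ?_, ?_⟩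
      · rw [← hFs, ← card_image_of_injOn (hin.mono (by
          intro v hv
          exact (mem_filter.1 (mem_coe.1 hv)).1)), e]
      · have h2 := htrans i.1 (W.filter (fun v => φ i.1 v + M ∈ F)) ((filter_subset _ _).trans hWV)
        rw [e] at h2
        exact (hx₁ (x i.1) (hbig i.1).1).trans (hFx.trans (Nat.cast_le.2 h2)))
  refine ⟨W, hWV.trans hV₁V, hWL, fun ρ F hF hF1 hFk => ?_⟩
  exact hW (ρ, ⟨F.card - 1, by omega⟩) (mem_univ _) F hF (by
    show F.card = F.card - 1 + 1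
    omega)

end Pool.Agent.R493.ST
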