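import Mathlib
import Pool.Agent.R493.ST.IdxM
/-!
# Gaps between consecutive primes with indices in given classes, common to several scales
-/

namespace Pool.Agent.R493.ST

open Finset Filter

/-- the `j`-th prime, `j ≥ 1` -/
noncomputable def pth (j : ℕ) : ℕ := Nat.nth Nat.Prime (j - 1)

/-- the number of the indices `j ≡ c (mod N)` with `p_j ≤ x`, `p_j ≡ a (mod q)` and `p_(j+1) = p_j + d` -/
noncomputable def gapN (q a N c d : ℕ) (x : ℝ) : ℕ :=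
  {j : ℕ | 1 ≤ j ∧ j ≡ c [MOD N] ∧ (pth j : ℝ) ≤ x ∧ pth j ≡ a [MOD q] ∧
    pth (j + 1) = pth j + d}.ncard

theorem pth_pc {p : ℕ} (hp : p.Prime) : 1 ≤ p.primeCounting ∧ pth p.primeCounting = p := by
  have h1 : p.primeCounting = Nat.count Nat.Prime p + 1 := by
    have : p.primeCounting = Nat.count Nat.Prime (p + 1) := rfl
    rw [this, Nat.count_succ, if_pos hp]
  refine ⟨by omega, ?_⟩
  unfold pth
  rw [h1, Nat.add_sub_cancel]
  exact Nat.nth_count hp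

theorem gapN_fin (q a N c d : ℕ) (x : ℝ) : {j : ℕ | 1 ≤ j ∧ j ≡ c [MOD N] ∧ (pth j : ℝ) ≤ x ∧
    pth j ≡ a [MOD q] ∧ pth (j + 1) = pth j + d}.Finite := by
  apply (Set.finite_Iic (⌊x⌋₊ + 1)).subset
  rintro j ⟨h1, -, h2, -⟩
  have h3 : pth j ≤ ⌊x⌋₊ := Nat.le_floor h2
  have h4 : j - 1 ≤ pth j := by
    unfold pth
    exact (Nat.nth_strictMono Nat.infinite_setOfPred_prime).le_apply
  rw [Set.mem_Iic]
  omega

theorem gapsIdx (m : ℕ) : ∃ B : ℕ, ∀ L R : ℕ, ∃ K : ℕ, ∀ V : Finset ℕ, K ≤ V.card → ∀ Q : ℕ, ∃ x₀ : ℝ,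
    ∀ (q a N c : Fin R → ℕ) (x : Fin R → ℝ),
      (∀ ρ, 1 ≤ q ρ ∧ q ρ ≤ Q ∧ (a ρ).Coprime (q ρ) ∧ (∀ v ∈ V, q ρ ∣ v) ∧ 1 ≤ N ρ ∧ N ρ ≤ m ∧
        x₀ ≤ x ρ) →
      ∃ W ⊆ V, W.card = L ∧ ∀ ρ, ∀ u ∈ W, ∀ v ∈ W, u < v →
        x ρ / Real.log (x ρ) ^ B ≤ (gapN (q ρ) (a ρ) (N ρ) (c ρ) (v - u) (x ρ) : ℝ) := by
  classical
  obtain ⟨B, hB⟩ := idxStrings 1 m
  refine ⟨B + 1, fun L R => ?_⟩
  obtain ⟨K, hK⟩ := hB L R 0
  refine ⟨K, fun V hV Q => ?_⟩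
  obtain ⟨x₀, hx₀⟩ := hK V hV (fun _ v => v) (fun _ => Function.injective_id.injOn) Q
  obtain ⟨x₁, hx₁⟩ := eventually_atTop.1 (div_loss B (D := 2) (by norm_num))
  refine ⟨max (max x₁ (2 * x₀)) (max 1 (2 * (V.sup id : ℕ))), fun q a N c x hqa => ?_⟩
  have hbig : ∀ ρ, x₁ ≤ x ρ ∧ x₀ ≤ x ρ / 2 ∧ 1 ≤ x ρ ∧ 2 * ((V.sup id : ℕ) : ℝ) ≤ x ρ := by
    intro ρ
    have h1 := (hqa ρ).2.2.2.2.2.2
    refine ⟨?_, ?_, ?_, ?_⟩
    · exact (le_max_left _ _).trans ((le_max_left _ _).trans h1)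
    · have := (le_max_right x₁ (2 * x₀)).trans ((le_max_left _ _).trans h1)
      linarith
    · exact (le_max_left _ _).trans ((le_max_right _ _).trans h1)
    · exact (le_max_right _ _).trans ((le_max_right _ _).trans h1)
  obtain ⟨W, hW, hWL, h⟩ := hx₀ q a N c (fun ρ => x ρ / 2) (fun ρ => by
    obtain ⟨h1, h2, h3, h4, h5, h6, -⟩ := hqa ρ
    refine ⟨h1, h2, fun v hv => ?_, h5, h6, (hbig ρ).2.1⟩
    obtain ⟨w, hw⟩ := h4 v hv
    show (a ρ + v).Coprime (q ρ)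
    rw [hw]
    exact (Nat.coprime_add_mul_left_left _ _ _).2 h3)
  refine ⟨W, hW, hWL, fun ρ u hu v hv huv => ?_⟩
  have hF : ({u, v} : Finset ℕ) ⊆ W := by
    intro y hy
    rcases mem_insert.1 hy with rfl | hy
    · exact hu
    · rw [mem_singleton.1 hy]; exact hv
  have hc : ({u, v} : Finset ℕ).card = 2 := card_pair (by omega)
  have h1 := h ρ {u, v} hF (by omega) (by omega)
  refine (hx₁ (x ρ) (hbig ρ).1).trans (h1.trans (Nat.cast_le.2 ?_))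
  unfold idxN
  have himg : ({u, v} : Finset ℕ).image (fun v => v) = {u, v} := Finset.image_id'
  rw [himg]
  have key : ∀ n, Idx 0 (N ρ) (c ρ) {u, v} n → (n + u).Prime ∧ (n + v).Prime ∧
      (n + u).primeCounting ≡ c ρ [MOD N ρ] ∧
      (n + v).primeCounting = (n + u).primeCounting + 1 := by
    intro n hn
    have hpu : (n + u).Prime := (hn.1 (n + u) ⟨u, by simp, by omega⟩ ⟨v, by simp, by omega⟩).2
      ⟨u, by simp, rfl⟩
    have hpv : (n + v).Prime := (hn.1 (n + v) ⟨u, by simp, by omega⟩ ⟨v, by simp, by omega⟩).2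
      ⟨v, by simp, rfl⟩
    refine ⟨hpu, hpv, hn.2 u (by simp) (by
      intro w hw
      rcases mem_insert.1 hw with rfl | hw
      · exact le_rfl
      · rw [mem_singleton.1 hw]; exact huv.le), pc_step (by omega) hpv (by
      intro r hr1 hr2 hrp
      obtain ⟨w, hw, hwr⟩ := (hn.1 r ⟨u, by simp, by omega⟩ ⟨v, by simp, by omega⟩).1 hrp
      rcases mem_insert.1 hw with rfl | hw
      · omega
      · rw [mem_singleton.1 hw] at hwr; omega)⟩
  refine Set.ncard_le_ncard_of_injOn (fun n => (n + u).primeCounting) ?_ ?_ (gapN_fin _ _ _ _ _ _)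
  · rintro n ⟨hn1, hn2, hn3⟩
    obtain ⟨hpu, hpv, hidx, hstep⟩ := key n hn3
    obtain ⟨g1, g2⟩ := pth_pc hpu
    obtain ⟨g3, g4⟩ := pth_pc hpv
    refine ⟨g1, hidx, ?_, ?_, ?_⟩
    · rw [g2]
      have h2 : u ≤ V.sup id := Finset.le_sup (f := id) (hW hu)
      have h3 : (u : ℝ) ≤ ((V.sup id : ℕ) : ℝ) := by exact_mod_cast h2
      have h4 := (hbig ρ).2.2.2
      have h5 : (n : ℝ) ≤ x ρ / 2 := hn1
      push_cast
      linarith
    · rw [g2]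
      obtain ⟨w, hw⟩ := (hqa ρ).2.2.2.1 u (hW hu)
      rw [hw]
      have h3 : n + q ρ * w ≡ a ρ + 0 [MOD q ρ] :=
        Nat.ModEq.add hn2 ((Nat.modEq_zero_iff_dvd).2 (dvd_mul_right _ _))
      rwa [add_zero] at h3
    · show pth ((n + u).primeCounting + 1) = pth ((n + u).primeCounting) + (v - u)
      rw [← hstep, g4, g2]
      omega
  · rintro n ⟨_, _, hn3⟩ n' ⟨_, _, hn3'⟩ he
    have h2 := (pth_pc (key n hn3).1).2
    have h3 := (pth_pc (key n' hn3').1).2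
    have he' : (n + u).primeCounting = (n' + u).primeCounting := he
    rw [he', h3] at h2
    omega

end Pool.Agent.R493.ST
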