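import Pool.Agent.R493.ST.F
import Pool.Agent.R493.ST.G3

set_option autoImplicit false
set_option linter.all false

namespace Pool.Agent.R493.SD

open IntermediateField Pool.Agent.R493.ST

/-- the absolute Galois group of `k` -/
abbrev AG (k : Type) [Field k] : Type := Gal(AlgebraicClosure k/k)

/-- the fields between `k` and its algebraic closure -/
abbrev SF (k : Type) [Field k] : Type := IntermediateField k (AlgebraicClosure k)

variable {k : Type} [Field k]

/-- a character (of finite order) of the Galois group of `F`: a homomorphism to `ℂˣ`, trivial on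
the Galois group of some finite extension `L` of `k` -/
structure Chr (F : SF k) where
  hom : F.fixingSubgroup →* ℂˣ
  cont : ∃ L : SF k, IsNF L ∧ ∀ g : F.fixingSubgroup, (g : AG k) ∈ L.fixingSubgroup → hom g = 1

/-- the values of a character, extended by zero -/
noncomputable def Chr.fn {F : SF k} (ψ : Chr F) (g : AG k) : ℂ :=
  open Classical in if h : g ∈ F.fixingSubgroup then (ψ.hom ⟨g, h⟩ : ℂ) else 0

/-- `ψ ^ N = 1` -/
def Chr.HasExp {F : SF k} (ψ : Chr F) (N : ℕ) : Prop := ∀ g, ψ.hom g ^ N = 1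

/-- the trivial character -/
noncomputable def Chr.one (F : SF k) : Chr F where
  hom := 1
  cont := ⟨⊥, (inferInstance : FiniteDimensional k (⊥ : SF k)), fun _ _ => rfl⟩

/-- induction from the Galois group of `F` to the absolute Galois group of `k` (for class
functions extended by zero) -/
noncomputable def Ind (F : SF k) (f : AG k → ℂ) (g : AG k) : ℂ :=
  ∑ᶠ q : AG k ⧸ F.fixingSubgroup, f (q.out⁻¹ * g * q.out)

/-- the group of virtual characters spanned by the characters induced from characters of finite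
extensions -/
def R (k : Type) [Field k] : AddSubgroup (AG k → ℂ) :=
  AddSubgroup.closure {h | ∃ F : SF k, IsNF F ∧ ∃ ψ : Chr F, h = Ind F ψ.fn}

theorem Ind_eq (F : SF k) (f : AG k → ℂ) : Ind F f = ST.Ind F.fixingSubgroup f := rfl

theorem fn_mem {F : SF k} (ψ : Chr F) {g : AG k} (h : g ∈ F.fixingSubgroup) :
    ψ.fn g = ψ.hom ⟨g, h⟩ := by
  simp only [Chr.fn, dif_pos h]

theorem fn_not {F : SF k} (ψ : Chr F) {g : AG k} (h : g ∉ F.fixingSubgroup) : ψ.fn g = 0 := by
  simp only [Chr.fn, dif_neg h]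

theorem open_fs {F : SF k} (hF : IsNF F) : IsOpen (F.fixingSubgroup : Set (AG k)) := by
  haveI : FiniteDimensional k F := hF
  exact F.fixingSubgroup_isOpen

theorem isChar {F : SF k} (hF : IsNF F) (ψ : Chr F) {N : ℕ} (hN : ψ.HasExp N) :
    ST.IsChar N F.fixingSubgroup ψ.fn := by
  refine ⟨fun g hg => fn_not _ hg, ?_, fun g hg h hh => ?_, fun g hg => ?_, ?_⟩
  · rw [fn_mem _ F.fixingSubgroup.one_mem]
    have : (⟨1, F.fixingSubgroup.one_mem⟩ : F.fixingSubgroup) = 1 := rfl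
    rw [this]
    simp
  · rw [fn_mem _ hg, fn_mem _ hh, fn_mem _ (F.fixingSubgroup.mul_mem hg hh)]
    show ((ψ.hom (⟨g, hg⟩ * ⟨h, hh⟩) : ℂˣ) : ℂ) = _
    rw [map_mul, Units.val_mul]
  · rw [fn_mem _ hg, ← Units.val_pow_eq_pow_val, hN ⟨g, hg⟩]; rfl
  · obtain ⟨L, hL, h⟩ := ψ.cont
    refine ⟨L.fixingSubgroup ⊓ F.fixingSubgroup, (open_fs hL).inter (open_fs hF),
      inf_le_right, fun g hg => ?_⟩
    rw [fn_mem _ hg.2, h ⟨g, hg.2⟩ hg.1]; rfl

theorem one_fn (F : SF k) : (Chr.one F).fn = ST.res F.fixingSubgroup 1 := by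
  funext g
  by_cases h : g ∈ F.fixingSubgroup
  · rw [fn_mem _ h, ST.res_mem h]; rfl
  · rw [fn_not _ h, ST.res_not h]

theorem one_exp (F : SF k) (n : ℕ) : (Chr.one F).HasExp n := fun g => one_pow n

theorem mul_one_fn {F : SF k} (ψ : Chr F) : ψ.fn * (Chr.one F).fn = ψ.fn := by
  funext g
  by_cases h : g ∈ F.fixingSubgroup
  · rw [Pi.mul_apply, one_fn, ST.res_mem h]; simp
  · rw [Pi.mul_apply, fn_not _ h, zero_mul]

theorem pow_fn {F : SF k} (ψ : Chr F) {n : ℕ} (hn : ψ.HasExp n) :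
    ∀ g ∈ F.fixingSubgroup, ψ.fn g ^ n = 1 := by
  intro g hg
  rw [fn_mem _ hg, ← Units.val_pow_eq_pow_val, hn ⟨g, hg⟩]; rfl

theorem hasExp_of {F : SF k} (χ : Chr F) {n : ℕ}
    (h : ∀ g ∈ F.fixingSubgroup, χ.fn g ^ n = 1) : χ.HasExp n := by
  intro g
  have h1 := h g g.2
  rw [fn_mem _ g.2] at h1
  ext
  rw [Units.val_pow_eq_pow_val]
  exact h1

theorem hasExp_two {F : SF k} {ψ : Chr F} {N : ℕ} (hN : ψ.HasExp N) : ψ.HasExp (2 * N) := by
  intro g
  rw [mul_comm, pow_mul, hN g, one_pow]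

/-- characters of open subgroups come from characters of fields -/
theorem exists_chr [IsGalois k (AlgebraicClosure k)] {N : ℕ} (W : Subgroup (AG k))
    (hW : IsOpen (W : Set (AG k))) {l : AG k → ℂ} (hl : ST.IsChar N W l) :
    ∃ F : SF k, IsNF F ∧ F.fixingSubgroup = W ∧ ∃ ψ : Chr F, ψ.HasExp N ∧ ψ.fn = l := by
  obtain ⟨F, hF, hfin⟩ : ∃ F : SF k, F.fixingSubgroup = W ∧ IsNF F :=
    ⟨fixedField W, (open_gen W hW).1, (open_gen W hW).2⟩
  subst hF
  refine ⟨F, hfin, rfl, ⟨⟨⟨fun g => Units.mk0 (l g) (hl.ne g.2), ?_⟩, ?_⟩, ?_⟩, ?_, ?_⟩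
  · ext; exact hl.one
  · intro g h; ext; exact hl.mul g g.2 h h.2
  · obtain ⟨W', h1, h2, h3⟩ := hl.cont
    obtain ⟨h4, h5⟩ := open_gen W' h1
    refine ⟨fixedField W', h5, fun g hg => ?_⟩
    rw [h4] at hg
    ext; exact h3 g hg
  · intro g
    ext
    rw [Units.val_pow_eq_pow_val]
    exact hl.pow g g.2
  · funext g
    by_cases h : g ∈ F.fixingSubgroup
    · rw [fn_mem _ h]; rfl
    · rw [fn_not _ h, hl.zero g h]

theorem exists_exp [IsGalois k (AlgebraicClosure k)] {F : SF k} (ψ : Chr F) :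
    ∃ N : ℕ, 0 < N ∧ ψ.HasExp N := by
  obtain ⟨L, hL, h⟩ := ψ.cont
  haveI : Finite (AG k ⧸ L.fixingSubgroup) := ST.fin (open_fs hL)
  have hi : L.fixingSubgroup.index ≠ 0 := Subgroup.index_ne_zero_of_finite
  refine ⟨Nat.factorial (L.fixingSubgroup.index), Nat.factorial_pos _, fun g => ?_⟩
  obtain ⟨n, hk0, hk1, hk⟩ := Subgroup.exists_pow_mem_of_index_ne_zero hi (g : AG k)
  obtain ⟨m, hm⟩ := Nat.dvd_factorial hk0 hk1
  rw [hm, pow_mul, ← map_pow, h (g ^ n) (by simpa using hk), one_pow]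

/-- homomorphisms which vanish on a set of generators -/
theorem vanish {M : Type} [AddCommGroup M] {T : Set (AG k → ℂ)} (u : R k →+ M)
    (h : ∀ f ∈ T, ∃ hf : f ∈ R k, u ⟨f, hf⟩ = 0) :
    AddSubgroup.closure T ≤ (u.ker).map (R k).subtype := by
  refine (AddSubgroup.closure_le _).mpr ?_
  intro f hf
  obtain ⟨h1, h2⟩ := h f hf
  exact ⟨⟨f, h1⟩, h2, rfl⟩

theorem vanish' {M : Type} [AddCommGroup M] (u : R k →+ M) (r : R k)
    (h : (r : AG k → ℂ) ∈ (u.ker).map (R k).subtype) : u r = 0 := by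
  obtain ⟨r', hr', h⟩ := h
  have : r' = r := Subtype.ext h
  rw [← this]; exact hr'

/-- the complex conjugations -/
def YY : Set (AG ℚ) := {c | CC c}

theorem dataYY : Data YY := (gen _).1

theorem tc_of {F : SF ℚ} (hF : IsNF F) (h : ∀ c, CC c → c ∉ F.fixingSubgroup) : TC F :=
  (gen _).2 F hF h

end Pool.Agent.R493.SD
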