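import Pool.Agent.R493.ST.H2

set_option autoImplicit false
set_option linter.all false

namespace Pool.Agent.R493.SD

open IntermediateField Pool.Agent.R493.ST

/-- span of the characters induced from totally complex fields -/
def spC (N : ℕ) : AddSubgroup (AG ℚ → ℂ) :=
  AddSubgroup.closure {h | ∃ F : SF ℚ, IsNF F ∧ TC F ∧ ∃ l : Chr F, l.HasExp N ∧ h = Ind F l.fn}

/-- span of the permutation characters -/
def spP : AddSubgroup (AG ℚ → ℂ) :=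
  AddSubgroup.closure {h | ∃ F : SF ℚ, IsNF F ∧ h = Ind F (Chr.one F).fn}

/-- even characters of `2`-power order -/
def spE (N : ℕ) : AddSubgroup (AG ℚ → ℂ) :=
  AddSubgroup.closure {h | ∃ F : SF ℚ, IsNF F ∧ ∃ l : Chr F, l.HasExp N ∧
    (∃ j : ℕ, l.HasExp (2 ^ j)) ∧ (∀ c, CC c → c ∈ F.fixingSubgroup → l.fn c = 1) ∧
    h = Ind F l.fn}

/-- characters of prescribed parity -/
def spS (δ : ℂ) (N : ℕ) : AddSubgroup (AG ℚ → ℂ) :=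
  AddSubgroup.closure {h | ∃ F : SF ℚ, IsNF F ∧ ∃ l : Chr F, l.HasExp N ∧
    (∀ c, CC c → c ∈ F.fixingSubgroup → l.fn c = δ) ∧ h = Ind F l.fn}

theorem I_le (N : ℕ) : I N YY ≤ spC N := by
  refine (AddSubgroup.closure_le _).mpr ?_
  rintro h ⟨W, l, hW, hX, hl, rfl⟩
  obtain ⟨F, hF, rfl, ψ, hψ, rfl⟩ := exists_chr W hW hl
  exact AddSubgroup.subset_closure ⟨F, hF, tc_of hF hX, ψ, hψ, rfl⟩

theorem Pm_le : Pm (AG ℚ) ≤ spP := by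
  refine (AddSubgroup.closure_le _).mpr ?_
  rintro h ⟨W, hW, rfl⟩
  obtain ⟨h1, h2⟩ := open_gen W hW
  refine AddSubgroup.subset_closure ⟨fixedField W, h2, ?_⟩
  rw [Ind_eq, one_fn, h1]

theorem EE_le (N : ℕ) : EE N YY ≤ spE N := by
  refine (AddSubgroup.closure_le _).mpr ?_
  rintro h ⟨W, l, hW, hl, ⟨j, hj⟩, hX, rfl⟩
  obtain ⟨F, hF, rfl, ψ, hψ, rfl⟩ := exists_chr W hW hl
  exact AddSubgroup.subset_closure ⟨F, hF, ψ, hψ, ⟨j, hasExp_of ψ hj⟩, hX, rfl⟩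

theorem main (N : ℕ) (hN0 : 0 < N) (hN : 2 ∣ N) (K : SF ℚ) (hK : IsNF K) (ψ : Chr K)
    (hψ : ψ.HasExp N) :
    (∀ α : Chr K, α.HasExp 2 → Ind K ψ.fn + Ind K (ψ.fn * α.fn) ∈ spC N ⊔ spP) ∧
    Ind K ψ.fn ∈ spC N ⊔ spE N ∧
    (∀ n, Odd n → ψ.HasExp (2 * n) → Ind K ψ.fn ∈ spC N ⊔ spP) ∧
    (∀ n, Odd n → ψ.HasExp n → Ind K ψ.fn - Ind K (Chr.one K).fn ∈ spC N) := by
  have hU := open_fs hK
  have D := dataYY
  have hc := isChar hK ψ hψ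
  refine ⟨fun α hα => ?_, ?_, fun n hn h => ?_, fun n hn h => ?_⟩
  · exact sup_le_sup (I_le N) Pm_le (two_Ind hN hN0 D hU hc (isChar hK α hα))
  · exact sup_le_sup (I_le N) (EE_le N) (twoPart hN hN0 D hU hc)
  · exact sup_le_sup (I_le N) Pm_le (four_Ind hN D hU hc hn (pow_fn ψ h))
  · rw [one_fn]
    exact I_le N (odd_Ind hN D hU hc hn (pow_fn ψ h))

theorem mainS (N : ℕ) (hN : 2 ∣ N) (K : SF ℚ) (hK : IsNF K) (ψ : Chr K) (hψ : ψ.HasExp N)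
    (δ : ℂ) (hδ : δ = 1 ∨ δ = -1) : Ind K ψ.fn ∈ spS δ N := by
  have h1 := parity hN dataYY (open_fs hK) (isChar hK ψ hψ) hδ
  refine (AddSubgroup.closure_le _).mpr ?_ h1
  rintro h ⟨W, l, hW, hl, hX, rfl⟩
  obtain ⟨F, hF, rfl, χ, hχ, rfl⟩ := exists_chr W hW hl
  exact AddSubgroup.subset_closure ⟨F, hF, χ, hχ, hX, rfl⟩

end Pool.Agent.R493.SD
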