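import Mathlib
import Pool.Agent.R493.ST.Exact
/-!
# Exact sets of multipliers `u` with `u n + c` prime, common to several scales
-/

namespace Pool.Agent.R493.ST

open Finset Filter

/-- the number of the `n ≤ x` such that, for all `1 ≤ u ≤ max F + M`, the number `u n + c` is prime if
and only if `u ∈ F` -/
noncomputable def mulN (c : ℤ) (M : ℕ) (F : Finset ℕ) (x : ℝ) : ℕ :=
  {n : ℕ | (n : ℝ) ≤ x ∧ ∀ u : ℕ, 1 ≤ u → u ≤ F.sup id + M →
    (((u : ℤ) * (n : ℤ) + c).toNat.Prime ↔ u ∈ F)}.ncard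

theorem multiples (k : ℕ) : ∃ B : ℕ, ∀ L R M : ℕ, ∃ K : ℕ, ∀ U : Finset ℕ, K ≤ U.card →
    (∀ u ∈ U, 1 ≤ u) → ∀ c : Fin R → ℤ, (∀ ρ, c ρ = 1 ∨ c ρ = -1) → ∃ x₀ : ℝ,
    ∀ x : Fin R → ℝ, (∀ ρ, x₀ ≤ x ρ) →
      ∃ W ⊆ U, W.card = L ∧ ∀ ρ, ∀ F ⊆ W, 1 ≤ F.card → F.card ≤ k + 1 →
        x ρ / Real.log (x ρ) ^ B ≤ (mulN (c ρ) M F (x ρ) : ℝ) := by
  classical
  obtain ⟨C, h⟩ := multi k
  refine ⟨C, fun L R M => ?_⟩
  obtain ⟨N, hN⟩ := h L R
  refine ⟨(M + 1) * N, fun U hU hU1 c hc => ?_⟩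
  obtain ⟨z, -, hz⟩ := Finset.exists_le_card_fiber_of_mul_le_card_of_maps_to (s := U)
    (t := range (M + 1)) (n := N) (f := fun v => v % (M + 1))
    (fun v _ => mem_range.2 (Nat.mod_lt _ (Nat.succ_pos _)))
    ⟨0, mem_range.2 (Nat.succ_pos _)⟩ (by rw [card_range]; exact hU)
  obtain ⟨V₁, hV₁, hV₁N⟩ := exists_subset_card_eq hz
  have hV₁U : V₁ ⊆ U := hV₁.trans (filter_subset _ _)
  obtain ⟨x₀, hx₀⟩ := hN M (Fin R) univ (fun ρ y => (((y + 1 : ℕ) : ℤ), c ρ)) (fun _ v => v - 1)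
    (by
      intro ρ _ y
      show (0 : ℤ) < ((y + 1 : ℕ) : ℤ)
      exact_mod_cast Nat.succ_pos y)
    (by
      intro ρ _ y z hyz he
      have h1 : (c ρ) ≠ 0 := by rcases hc ρ with h | h <;> rw [h] <;> norm_num
      simp only at he
      have h2 := mul_right_cancel₀ h1 he
      have h3 : y + 1 = z + 1 := by exact_mod_cast h2
      omega)
    V₁ (by rw [hV₁N])
    (by
      intro ρ _ u hu v hv huv
      have h1 := hU1 u (hV₁U (by exact_mod_cast hu))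
      have h2 := hU1 v (hV₁U (by exact_mod_cast hv))
      have h3 : u - 1 = v - 1 := huv
      omega)
    (by
      intro ρ _ u hu v hv huv
      have h1 := (mem_filter.1 (hV₁ hu)).2
      have h2 := (mem_filter.1 (hV₁ hv)).2
      have h0 : u - 1 < v - 1 := huv
      have h5 := hU1 u (hV₁U hu)
      have h3 : M + 1 ∣ v - u := (Nat.modEq_iff_dvd' (by omega)).1 (h1.trans h2.symm)
      have h4 := Nat.le_of_dvd (by omega) h3
      show u - 1 + M < v - 1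
      omega)
    (by
      intro ρ _ p hp
      refine ⟨0, fun v _ hd => ?_⟩
      simp only [Nat.cast_zero, mul_zero, zero_add] at hd
      have h1 : (p : ℤ) ∣ 1 := by
        rcases hc ρ with h | h <;> rw [h] at hd
        · exact hd
        · exact (dvd_neg.1 hd)
      exact (Nat.prime_iff_prime_int.1 hp).not_isUnit (isUnit_of_dvd_one h1))
  refine ⟨x₀, fun x hx => ?_⟩
  obtain ⟨W, hW, hWL, hWF⟩ := hx₀ (fun ρ => ρ) x (fun ρ => ⟨mem_univ _, hx ρ⟩)
  refine ⟨W, hW.trans hV₁U, hWL, fun ρ F hF hF1 hFk => ?_⟩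
  refine (hWF ρ F hF hF1 hFk).trans (Nat.cast_le.2 ?_)
  have hFne : F.Nonempty := card_pos.1 (by omega)
  have hFpos : ∀ u ∈ F, 1 ≤ u := fun u hu => hU1 u (hV₁U (hW (hF hu)))
  obtain ⟨v₀, hv₀, hv₀s⟩ := Finset.exists_mem_eq_sup F hFne id
  have hsup : F.sup id ≤ (F.image (fun v => v - 1)).sup id + 1 := by
    have h2 : F.sup id = v₀ := hv₀s
    have h3 : v₀ - 1 ≤ (F.image (fun v => v - 1)).sup id :=
      Finset.le_sup (f := id) (mem_image_of_mem (fun v => v - 1) hv₀)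
    omega
  unfold goodN mulN
  apply Set.ncard_le_ncard
  · rintro n ⟨h1, h2⟩
    refine ⟨h1, fun u hu1 hu => ?_⟩
    obtain ⟨y, rfl⟩ := Nat.exists_eq_add_of_le hu1
    have h3 := h2 y (by omega)
    have h4 : y ∈ F.image (fun v => v - 1) ↔ 1 + y ∈ F := by
      rw [mem_image]
      constructor
      · rintro ⟨v, hv, hvy⟩
        have h5 := hFpos v hv
        have : 1 + y = v := by omega
        rwa [this]
      · intro h5
        exact ⟨1 + y, h5, by omega⟩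
    rw [← h4, ← h3]
    have e : ((1 + y : ℕ) : ℤ) * (n : ℤ) + c ρ = ((y + 1 : ℕ) : ℤ) * (n : ℤ) + c ρ := by
      push_cast; ring
    rw [e]
    rcases Nat.eq_zero_or_pos n with h0 | h0
    · subst h0
      have e0 : ((y + 1 : ℕ) : ℤ) * ((0 : ℕ) : ℤ) + c ρ = c ρ := by simp
      rw [e0]
      have h6 : ¬ (c ρ).toNat.Prime := by
        rcases hc ρ with h | h <;> rw [h] <;> decide
      have h7 : ¬ (c ρ).natAbs.Prime := by
        rcases hc ρ with h | h <;> rw [h] <;> decide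
      exact ⟨fun h => absurd h h6, fun h => absurd h h7⟩
    · have h6 : 0 ≤ ((y + 1 : ℕ) : ℤ) * (n : ℤ) + c ρ := by
        have h7 : (1 : ℤ) ≤ (n : ℤ) := by exact_mod_cast h0
        have h8 : (1 : ℤ) ≤ ((y + 1 : ℕ) : ℤ) := by exact_mod_cast Nat.succ_pos y
        rcases hc ρ with h | h <;> rw [h] <;> nlinarith
      have h7 : (((y + 1 : ℕ) : ℤ) * (n : ℤ) + c ρ).toNat =
          (((y + 1 : ℕ) : ℤ) * (n : ℤ) + c ρ).natAbs := by omega
      rw [h7]
  · apply (Set.finite_Iic ⌊x ρ⌋₊).subset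
    rintro n ⟨h3, _⟩
    exact Nat.le_floor h3

end Pool.Agent.R493.ST
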