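import Mathlib
import Pool.Agent.R493.ST.Str
/-!
# Exact patterns of primes in the orbits of `x ↦ b (x - c) + c`, common to several scales
-/

namespace Pool.Agent.R493.ST

open Finset Filter

/-- The number of the primes `p ≤ x` such that, for `t = min F` and all `j ≤ max F - t + M`, the number
`b ^ j (p - c) + c` is a prime if and only if `t + j ∈ F`, and such that `p` is not
`b ^ j (r - c) + c` for any prime `r` and `1 ≤ j ≤ M`. -/
noncomputable def orbN (b : ℕ) (c : ℤ) (M t : ℕ) (F : Finset ℕ) (x : ℝ) : ℕ :=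
  {p : ℕ | (p : ℝ) ≤ x ∧ p.Prime ∧
    (∀ j : ℕ, t + j ≤ F.sup id + M → (((b : ℤ) ^ j * ((p : ℤ) - c) + c).toNat.Prime ↔ t + j ∈ F)) ∧
    ∀ j : ℕ, 1 ≤ j → j ≤ M → ∀ r : ℕ, r.Prime → (b : ℤ) ^ j * ((r : ℤ) - c) + c ≠ p}.ncard

/-- the loss in the count when finitely many elements are removed -/
theorem sub_loss (C : ℕ) (E : ℝ) (hE : 0 ≤ E) : ∀ᶠ x : ℝ in atTop,
    x / Real.log x ^ (C + 1) + E ≤ x / Real.log x ^ C := by
  have hl : ∀ᶠ x : ℝ in atTop, (2 : ℝ) ≤ Real.log x := Real.tendsto_log_atTop.eventually_ge_atTop _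
  have h2 := (Real.isLittleO_pow_log_id_atTop (n := C)).def (c := 1 / (2 * (E + 1))) (by positivity)
  filter_upwards [hl, h2, eventually_ge_atTop (4 : ℝ)] with x h1 hx h3
  have h4 : (0 : ℝ) < Real.log x := by linarith
  simp only [id, Real.norm_eq_abs] at hx
  rw [abs_of_nonneg (by positivity), abs_of_nonneg (by linarith)] at hx
  have h5 : E ≤ x / Real.log x ^ C / 2 := by
    rw [div_div, le_div_iff₀ (by positivity)]
    have h6 : (E + 1) * (Real.log x ^ C * 2) ≤ (E + 1) * (1 / (2 * (E + 1)) * x * 2) :=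
      mul_le_mul_of_nonneg_left (mul_le_mul_of_nonneg_right hx (by norm_num)) (by linarith)
    have h7 : (E + 1) * (1 / (2 * (E + 1)) * x * 2) = x := by
      have : E + 1 ≠ 0 := by linarith
      field_simp
    have h8 : E * (Real.log x ^ C * 2) ≤ (E + 1) * (Real.log x ^ C * 2) :=
      mul_le_mul_of_nonneg_right (by linarith) (by positivity)
    linarith
  have h6 : x / Real.log x ^ (C + 1) ≤ x / Real.log x ^ C / 2 := by
    rw [pow_succ, ← div_div]
    exact div_le_div_of_nonneg_left (by positivity) (by norm_num) h1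
  linarith

theorem orbits (k : ℕ) : ∃ B : ℕ, ∀ L R M : ℕ, ∃ K : ℕ, ∀ V : Finset ℕ, K ≤ V.card →
    ∀ (b : Fin R → ℕ) (c : Fin R → ℤ), (∀ ρ, 2 ≤ b ρ ∧ (c ρ = 1 ∨ c ρ = -1)) → ∃ x₀ : ℝ,
    ∀ x : Fin R → ℝ, (∀ ρ, x₀ ≤ x ρ) →
      ∃ W ⊆ V, W.card = L ∧ ∀ ρ, ∀ F ⊆ W, F.card ≤ k + 1 → ∀ t ∈ F, (∀ e ∈ F, t ≤ e) →
        x ρ / Real.log (x ρ) ^ B ≤ (orbN (b ρ) (c ρ) M t F (x ρ) : ℝ) := by
  classical
  obtain ⟨C, h⟩ := multi k
  refine ⟨C + 1 + 1, fun L R M => ?_⟩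
  obtain ⟨N, hN⟩ := h L R
  refine ⟨(M + 1) * N, fun V hV b c hbc => ?_⟩
  obtain ⟨z, -, hz⟩ := Finset.exists_le_card_fiber_of_mul_le_card_of_maps_to (s := V)
    (t := range (M + 1)) (n := N) (f := fun v => v % (M + 1))
    (fun v _ => mem_range.2 (Nat.mod_lt _ (Nat.succ_pos _)))
    ⟨0, mem_range.2 (Nat.succ_pos _)⟩ (by rw [card_range]; exact hV)
  obtain ⟨V₁, hV₁, hV₁N⟩ := exists_subset_card_eq hz
  have hV₁V : V₁ ⊆ V := hV₁.trans (filter_subset _ _)
  obtain ⟨x₀, hx₀⟩ := hN M (Fin R) univ (fun ρ y => ((b ρ : ℤ) ^ y, c ρ)) (fun _ v => v + M)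
    (by
      intro ρ _ y
      have := (hbc ρ).1
      have h1 : (0 : ℤ) < (b ρ : ℤ) := by exact_mod_cast (by omega : 0 < b ρ)
      show (0 : ℤ) < (b ρ : ℤ) ^ y
      positivity)
    (by
      intro ρ _ y z hyz he
      have h1 : (c ρ) ≠ 0 := by rcases (hbc ρ).2 with h | h <;> rw [h] <;> norm_num
      simp only at he
      have h2 := mul_right_cancel₀ h1 he
      have h3 : b ρ ^ y = b ρ ^ z := by exact_mod_cast h2
      exact hyz (Nat.pow_right_injective (hbc ρ).1 h3))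
    V₁ (by rw [hV₁N])
    (by
      intro ρ _ u _ v _ huv
      exact Nat.add_right_cancel huv)
    (by
      intro ρ _ u hu v hv huv
      have h1 := (mem_filter.1 (hV₁ hu)).2
      have h2 := (mem_filter.1 (hV₁ hv)).2
      have h3 : M + 1 ∣ v - u := (Nat.modEq_iff_dvd' (by omega)).1 (h1.trans h2.symm)
      have h4 := Nat.le_of_dvd (by omega) h3
      omega)
    (by
      intro ρ _ p hp
      refine ⟨0, fun v _ hd => ?_⟩
      simp only [Nat.cast_zero, mul_zero, zero_add] at hd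
      have h1 : (p : ℤ) ∣ 1 := by
        rcases (hbc ρ).2 with h | h <;> rw [h] at hd
        · exact hd
        · exact (dvd_neg.1 hd)
      exact (Nat.prime_iff_prime_int.1 hp).not_isUnit (isUnit_of_dvd_one h1))
  -- constants
  set G : ℕ := ∑ ρ, (b ρ) ^ (V.sup id + M) + 1 with hG
  have hG1 : ∀ ρ, (b ρ) ^ (V.sup id + M) + 1 ≤ G := by
    intro ρ
    have := single_le_sum (f := fun ρ => (b ρ) ^ (V.sup id + M)) (fun _ _ => Nat.zero_le _) (mem_univ ρ)
    omega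
  set D : ℝ := 2 * (G : ℝ) with hD
  have hG0 : (1 : ℝ) ≤ G := by exact_mod_cast (by omega : 1 ≤ G)
  have hD1 : 1 ≤ D := by linarith
  obtain ⟨x₁, hx₁⟩ := eventually_atTop.1 (div_loss C hD1)
  obtain ⟨x₂, hx₂⟩ := eventually_atTop.1 (sub_loss (C + 1) 4 (by norm_num))
  refine ⟨max (max x₁ (D * x₀)) (max 2 x₂), fun x hx => ?_⟩
  have hbig : ∀ ρ, x₁ ≤ x ρ ∧ x₀ ≤ x ρ / D ∧ 2 ≤ x ρ ∧ x₂ ≤ x ρ := by
    intro ρ
    have h1 := hx ρ
    refine ⟨?_, ?_, ?_, ?_⟩
    · exact (le_max_left _ _).trans ((le_max_left _ _).trans h1)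
    · rw [le_div_iff₀ (by linarith), mul_comm]
      exact (le_max_right _ _).trans ((le_max_left _ _).trans h1)
    · exact (le_max_left _ _).trans ((le_max_right _ _).trans h1)
    · exact (le_max_right _ _).trans ((le_max_right _ _).trans h1)
  obtain ⟨W, hW, hWL, hWF⟩ := hx₀ (fun ρ => ρ) (fun ρ => x ρ / D)
    (fun ρ => ⟨mem_univ _, (hbig ρ).2.1⟩)
  refine ⟨W, hW.trans hV₁V, hWL, fun ρ F hF hFk t ht hmin => ?_⟩
  have hFne : F.Nonempty := ⟨t, ht⟩
  have h1 := hWF ρ F hF (card_pos.2 hFne) hFk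
  have hb2 := (hbc ρ).1
  have hc1 : -1 ≤ c ρ ∧ c ρ ≤ 1 := by rcases (hbc ρ).2 with h | h <;> rw [h] <;> norm_num
  have hb0 : (0 : ℤ) < (b ρ : ℤ) := by exact_mod_cast (by omega : 0 < b ρ)
  have htV : t ≤ V.sup id := Finset.le_sup (f := id) (hV₁V (hW (hF ht)))
  -- enough: an injection on the numbers `n ≥ 4`
  suffices hs : goodN (fun y => ((b ρ : ℤ) ^ y, c ρ)) M (F.image (fun v => v + M)) (x ρ / D) ≤
      orbN (b ρ) (c ρ) M t F (x ρ) + 4 by
    have h2 := hx₁ (x ρ) (hbig ρ).1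
    have h3 := hx₂ (x ρ) (hbig ρ).2.2.2
    have h4 : ((goodN (fun y => ((b ρ : ℤ) ^ y, c ρ)) M (F.image (fun v => v + M)) (x ρ / D) : ℕ) : ℝ) ≤
        (orbN (b ρ) (c ρ) M t F (x ρ) : ℝ) + 4 := by exact_mod_cast hs
    have h5 : x ρ / D / Real.log (x ρ / D) ^ C ≤
        ((goodN (fun y => ((b ρ : ℤ) ^ y, c ρ)) M (F.image (fun v => v + M)) (x ρ / D) : ℕ) : ℝ) := h1
    linarith
  have hfin : {n : ℕ | (n : ℝ) ≤ x ρ / D ∧ ∀ y ≤ (F.image (fun v => v + M)).sup id + M,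
      (((b ρ : ℤ) ^ y * (n : ℤ) + c ρ).natAbs.Prime ↔ y ∈ F.image (fun v => v + M))}.Finite := by
    apply (Set.finite_Iic ⌊x ρ / D⌋₊).subset
    rintro n ⟨h3, _⟩
    exact Nat.le_floor h3
  have hfin2 : {p : ℕ | (p : ℝ) ≤ x ρ ∧ p.Prime ∧
      (∀ j : ℕ, t + j ≤ F.sup id + M →
        (((b ρ : ℤ) ^ j * ((p : ℤ) - c ρ) + c ρ).toNat.Prime ↔ t + j ∈ F)) ∧
      ∀ j : ℕ, 1 ≤ j → j ≤ M → ∀ r : ℕ, r.Prime → (b ρ : ℤ) ^ j * ((r : ℤ) - c ρ) + c ρ ≠ p}.Finite := by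
    apply (Set.finite_Iic ⌊x ρ⌋₊).subset
    rintro n ⟨h3, _⟩
    exact Nat.le_floor h3
  unfold goodN orbN
  rw [← Set.ncard_inter_add_ncard_sdiff_eq_ncard _ (Set.Iio 4) hfin, add_comm]
  refine Nat.add_le_add ?_ ?_
  · refine Set.ncard_le_ncard_of_injOn
      (fun n : ℕ => ((b ρ : ℤ) ^ (t + M) * (n : ℤ) + c ρ).toNat) ?_ ?_ hfin2
    · rintro n ⟨⟨hn1, hn2⟩, hn4⟩
      have hn4' : 4 ≤ n := by
        by_contra hlt
        exact hn4 (Set.mem_Iio.2 (by omega))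
      have hpos : ∀ y, 4 ≤ (b ρ : ℤ) ^ y * (n : ℤ) := by
        intro y
        have h2 : (1 : ℤ) ≤ (b ρ : ℤ) ^ y := by
          have : (0 : ℤ) < (b ρ : ℤ) ^ y := by positivity
          omega
        have h3 : (4 : ℤ) ≤ (n : ℤ) := by exact_mod_cast hn4'
        nlinarith
      have hsup : F.sup id + M ≤ (F.image (fun v => v + M)).sup id := by
        obtain ⟨v₀, hv₀, hv₀s⟩ := Finset.exists_mem_eq_sup F hFne id
        have h2 : F.sup id = v₀ := hv₀s
        rw [h2]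
        exact Finset.le_sup (f := id) (mem_image_of_mem (fun v => v + M) hv₀)
      have hmem : ∀ y, y + M ∈ F.image (fun v => v + M) ↔ y ∈ F := by
        intro y
        rw [mem_image]
        exact ⟨fun ⟨v, hv, he⟩ => by rwa [← Nat.add_right_cancel he], fun hy => ⟨y, hy, rfl⟩⟩
      have hval : ∀ y, ((b ρ : ℤ) ^ y * (n : ℤ) + c ρ).natAbs = ((b ρ : ℤ) ^ y * (n : ℤ) + c ρ).toNat := by
        intro y
        have := hpos y
        omega
      have hp0 : ((((b ρ : ℤ) ^ (t + M) * (n : ℤ) + c ρ).toNat : ℕ) : ℤ) =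
          (b ρ : ℤ) ^ (t + M) * (n : ℤ) + c ρ := Int.toNat_of_nonneg (by have := hpos (t + M); omega)
      have htsup : t ≤ F.sup id := Finset.le_sup (f := id) ht
      refine ⟨?_, ?_, ?_, ?_⟩
      · have h2 : ((b ρ : ℤ) ^ (t + M) * (n : ℤ) + c ρ).toNat ≤ G * n := by
          have h3 : (b ρ) ^ (t + M) ≤ (b ρ) ^ (V.sup id + M) :=
            Nat.pow_le_pow_right (by omega) (by omega)
          have h4 : ((b ρ) ^ (t + M) + 1) * n ≤ G * n := Nat.mul_le_mul_right _ (by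
            have := hG1 ρ
            omega)
          have h5 : (((((b ρ) ^ (t + M) + 1) * n : ℕ)) : ℤ) = (b ρ : ℤ) ^ (t + M) * n + n := by
            push_cast; ring
          have h6 : (4 : ℤ) ≤ (n : ℤ) := by exact_mod_cast hn4'
          omega
        have h3 : ((((b ρ : ℤ) ^ (t + M) * (n : ℤ) + c ρ).toNat : ℕ) : ℝ) ≤ (G : ℝ) * n := by
          exact_mod_cast h2
        have h4 : (G : ℝ) * n ≤ G * (x ρ / D) := mul_le_mul_of_nonneg_left hn1 (by linarith)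
        have h5 : G * (x ρ / D) = x ρ / 2 := by
          rw [hD]
          have : (G : ℝ) ≠ 0 := by linarith
          field_simp
        have h6 := (hbig ρ).2.2.1
        linarith
      · have h2 := (hn2 (t + M) (by omega)).2 ((hmem t).2 ht)
        rw [hval] at h2
        exact h2
      · intro j hj
        rw [hp0]
        have h2 : (b ρ : ℤ) ^ j * (((b ρ : ℤ) ^ (t + M) * (n : ℤ) + c ρ) - c ρ) + c ρ =
            (b ρ : ℤ) ^ (t + j + M) * (n : ℤ) + c ρ := by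
          rw [show t + j + M = j + (t + M) by omega, pow_add]
          ring
        rw [h2, ← hval, hn2 (t + j + M) (by omega)]
        exact hmem (t + j)
      · intro j hj1 hjM r hr he
        rw [hp0] at he
        have h2 : (b ρ : ℤ) ^ (t + M) = (b ρ : ℤ) ^ j * (b ρ : ℤ) ^ (t + M - j) := by
          rw [← pow_add]
          congr 1
          omega
        have h3 : (b ρ : ℤ) ^ j * ((r : ℤ) - c ρ) = (b ρ : ℤ) ^ j * ((b ρ : ℤ) ^ (t + M - j) * n) := by
          rw [h2] at he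
          linear_combination he
        have h4 : (r : ℤ) - c ρ = (b ρ : ℤ) ^ (t + M - j) * n :=
          mul_left_cancel₀ (by positivity) h3
        have h5 : ((b ρ : ℤ) ^ (t + M - j) * (n : ℤ) + c ρ).natAbs = r := by
          rw [← h4]
          simp
        have h6 := (hn2 (t + M - j) (by omega)).1 (by
          rw [h5]; exact hr)
        obtain ⟨v, hv, hve⟩ := mem_image.1 h6
        have h7 := hmin v hv
        have h8 : v + M = t + M - j := hve
        omega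
    · rintro n ⟨_, hn4⟩ n' ⟨_, hn4'⟩ he
      have hpos : ∀ n : ℕ, n ∉ Set.Iio 4 → 0 ≤ (b ρ : ℤ) ^ (t + M) * (n : ℤ) + c ρ := by
        intro n hn
        have hn' : 4 ≤ n := by
          by_contra hlt
          exact hn (Set.mem_Iio.2 (by omega))
        have h2 : (1 : ℤ) ≤ (b ρ : ℤ) ^ (t + M) := by
          have : (0 : ℤ) < (b ρ : ℤ) ^ (t + M) := by positivity
          omega
        have h3 : (4 : ℤ) ≤ (n : ℤ) := by exact_mod_cast hn'
        nlinarith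
      have h2 := hpos n hn4
      have h3 := hpos n' hn4'
      have he' : ((b ρ : ℤ) ^ (t + M) * (n : ℤ) + c ρ).toNat =
        ((b ρ : ℤ) ^ (t + M) * (n' : ℤ) + c ρ).toNat := he
      have h4 : (b ρ : ℤ) ^ (t + M) * (n : ℤ) = (b ρ : ℤ) ^ (t + M) * (n' : ℤ) := by omega
      have h5 : ((b ρ : ℤ) ^ (t + M)) ≠ 0 := by positivity
      exact_mod_cast mul_left_cancel₀ h5 h4
  · have h2 := Set.ncard_le_ncard (s := {n : ℕ | (n : ℝ) ≤ x ρ / D ∧
      ∀ y ≤ (F.image (fun v => v + M)).sup id + M,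
      (((b ρ : ℤ) ^ y * (n : ℤ) + c ρ).natAbs.Prime ↔ y ∈ F.image (fun v => v + M))} ∩ Set.Iio 4)
      (t := Set.Iio 4) Set.inter_subset_right (Set.finite_Iio 4)
    have h3 : (Set.Iio 4 : Set ℕ).ncard = 4 := by
      have e : (Set.Iio 4 : Set ℕ) = ((range 4 : Finset ℕ) : Set ℕ) := by
        ext y; simp
      rw [e, Set.ncard_coe_finset, card_range]
    omega

end Pool.Agent.R493.ST
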